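import Pool.Agent.V1161.PS.Torsor

/-!
# Categorical recognition of the types and of the orbit diagrams
-/

namespace Pool.Agent.V1161.PS

set_option linter.unusedSectionVars false

open CategoryTheory CategoryTheory.Limits Function

section Abstract

variable {𝒟 : Type*} [Category 𝒟]

/-- At most one morphism to any object, and two distinct morphisms from some object. -/
def IsJ (D : 𝒟) : Prop := (∀ X (a b : D ⟶ X), a = b) ∧ ∃ X, ∃ a b : X ⟶ D, a ≠ b

/-- Contravariant type. -/
def ShT (X : 𝒟) : Prop := ∃ D : 𝒟, IsJ D ∧ Nonempty (D ⟶ X)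

/-- Atoms. -/
def Atom (X : 𝒟) : Prop :=
  ¬ ShT X ∧ (∀ S : 𝒟, ¬ ShT S → ∀ a b : S ⟶ X, a = b) ∧ ∃ D : 𝒟, IsJ D ∧ Nat.card (X ⟶ D) = 2

theorem ShT.iso {X Y : 𝒟} (i : X ≅ Y) (h : ShT X) : ShT Y := by
  obtain ⟨D, hD, ⟨f⟩⟩ := h
  exact ⟨D, hD, ⟨f ≫ i.hom⟩⟩

end Abstract

section Transport

variable {𝒟 𝒟' : Type*} [Category 𝒟] [Category 𝒟'] (e : 𝒟 ≌ 𝒟')

theorem IsJ.transport {D : 𝒟} (h : IsJ D) : IsJ (e.functor.obj D) := by
  constructor
  · intro X' a b
    let i := e.functor.objObjPreimageIso X'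
    have h1 := h.1 _ (e.functor.preimage (a ≫ i.inv)) (e.functor.preimage (b ≫ i.inv))
    have h2 := congrArg e.functor.map h1
    rw [e.functor.map_preimage, e.functor.map_preimage] at h2
    exact (cancel_mono i.inv).1 h2
  · obtain ⟨X, a, b, hab⟩ := h.2
    exact ⟨e.functor.obj X, e.functor.map a, e.functor.map b, fun hc => hab (e.functor.map_injective hc)⟩

theorem ShT.transport {X : 𝒟} (h : ShT X) : ShT (e.functor.obj X) := by
  obtain ⟨D, hD, ⟨f⟩⟩ := h
  exact ⟨_, hD.transport e, ⟨e.functor.map f⟩⟩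

theorem shT_iff {X : 𝒟} : ShT (e.functor.obj X) ↔ ShT X :=
  ⟨fun h => (h.transport e.symm).iso (e.unitIso.app X).symm, fun h => h.transport e⟩

theorem Atom.transport {X : 𝒟} (h : Atom X) : Atom (e.functor.obj X) := by
  refine ⟨fun hc => h.1 ((shT_iff e).1 hc), ?_, ?_⟩
  · intro S hS a b
    have hS' : ¬ ShT (e.inverse.obj S) := fun hc => hS ((shT_iff e.symm).1 hc)
    have h1 := h.2.1 _ hS' (e.inverse.map a ≫ (e.unitIso.app X).inv)
      (e.inverse.map b ≫ (e.unitIso.app X).inv)
    exact e.inverse.map_injective ((cancel_mono _).1 h1)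
  · obtain ⟨D, hD, hc⟩ := h.2.2
    refine ⟨_, hD.transport e, ?_⟩
    rw [← hc]
    exact (Nat.card_congr (e.fullyFaithfulFunctor.homEquiv (X := X) (Y := D))).symm

theorem Tor.transport {T : 𝒟} (h : Tor T) : Tor (e.functor.obj T) := by
  obtain ⟨τ, P, i, j, π, h0, hadd, hi, hj, hcop, hprod⟩ := h
  refine ⟨fun n => e.functor.map (τ n), e.functor.obj P, e.functor.map i, e.functor.map j,
    fun n => e.functor.map (π n), ?_, ?_, ?_, ?_, ?_, ?_⟩
  · show e.functor.map (τ 0) = _
    rw [h0, e.functor.map_id]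
  · intro m n
    show e.functor.map (τ (m + n)) = _
    rw [hadd, e.functor.map_comp]
  · intro n
    show e.functor.map i ≫ e.functor.map (π n) = _
    rw [← e.functor.map_comp, hi, e.functor.map_id]
  · intro n
    show e.functor.map j ≫ e.functor.map (π n) = _
    rw [← e.functor.map_comp, hj]
  · intro X' a b
    let s := e.functor.objObjPreimageIso X'
    obtain ⟨h, ⟨h1, h2⟩, hu⟩ := hcop _ (e.functor.preimage (a ≫ s.inv)) (e.functor.preimage (b ≫ s.inv))
    refine ⟨e.functor.map h ≫ s.hom, ⟨?_, ?_⟩, ?_⟩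
    · rw [← Category.assoc, ← e.functor.map_comp, h1, e.functor.map_preimage, Category.assoc,
        s.inv_hom_id, Category.comp_id]
    · rw [← Category.assoc, ← e.functor.map_comp, h2, e.functor.map_preimage, Category.assoc,
        s.inv_hom_id, Category.comp_id]
    · rintro k ⟨k1, k2⟩
      have hk := hu (e.functor.preimage (k ≫ s.inv)) ⟨?_, ?_⟩
      · rw [← hk, e.functor.map_preimage, Category.assoc, s.inv_hom_id, Category.comp_id]
      · apply e.functor.map_injective
        rw [e.functor.map_comp, e.functor.map_preimage, e.functor.map_preimage, ← Category.assoc, k1]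
      · apply e.functor.map_injective
        rw [e.functor.map_comp, e.functor.map_preimage, e.functor.map_preimage, ← Category.assoc, k2]
  · intro X' g
    let s := e.functor.objObjPreimageIso X'
    obtain ⟨h, h1, hu⟩ := hprod _ (fun n => e.functor.preimage (s.hom ≫ g n))
    refine ⟨s.inv ≫ e.functor.map h, ?_, ?_⟩
    · intro n
      show (s.inv ≫ e.functor.map h) ≫ e.functor.map (π n) = g n
      rw [Category.assoc, ← e.functor.map_comp, h1, e.functor.map_preimage, ← Category.assoc,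
        s.inv_hom_id, Category.id_comp]
    · intro k hk
      have hk' := hu (e.functor.preimage (s.hom ≫ k)) (fun n => by
        apply e.functor.map_injective
        rw [e.functor.map_comp, e.functor.map_preimage, e.functor.map_preimage, Category.assoc, hk n])
      rw [← hk', e.functor.map_preimage, ← Category.assoc, s.inv_hom_id, Category.id_comp]

end Transport

variable {V : Type} {E : V → V → Type}

/-- The terminal contravariant diagram. -/
def J0 (E : V → V → Type) : ShD E where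
  M _ := Unit
  res _ _ := ()
  bij _ := ⟨fun _ _ _ => rfl, fun _ => ⟨(), rfl⟩⟩

/-- Constant morphisms. -/
def cst (S : PtD E) (M : ShD E) (c : Bool) : ofPt S ⟶ ofSh M :=
  mkPS (fun _ _ _ => c) (fun _ _ _ => rfl)

theorem cst_ne {S : PtD E} {M : ShD E} {v : V} (z : S.S v) (m : M.M v) :
    cst S M true ≠ cst S M false := by
  intro h
  have h1 : ps (cst S M true) v m z = ps (cst S M false) v m z := by rw [h]
  exact Bool.noConfusion h1

variable [Nonempty V]

theorem isJ_J0 (hirr : Irred E) (hns : ∀ v : V, ∃ u, Nonempty (E u v)) : IsJ (ofSh (J0 E)) := by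
  constructor
  · intro X a b
    rcases diag_cases hirr hns X with ⟨S, rfl⟩ | ⟨M, rfl⟩
    · exact (sp_empty a).elim
    · exact ss_ext fun v m => rfl
  · obtain ⟨x⟩ := nonempty_Xp hns (Classical.arbitrary V)
    exact ⟨ofPt (XP E), cst _ _ true, cst _ _ false, cst_ne (S := XP E) x ()⟩

theorem IsJ.sh (hirr : Irred E) (hns : ∀ v : V, ∃ u, Nonempty (E u v)) {D : Diag Ob E}
    (h : IsJ D) : ∃ M : ShD E, D = ofSh M ∧ ∀ v, Nonempty (M.M v) := by
  rcases diag_cases hirr hns D with ⟨S, rfl⟩ | ⟨M, rfl⟩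
  · exfalso
    obtain ⟨X, a, b, hab⟩ := h.2
    rcases diag_cases hirr hns X with ⟨S', rfl⟩ | ⟨M, rfl⟩
    · apply hab
      refine pp_ext fun v z => ?_
      exact (cst_ne (M := J0 E) (pp a v z) () (h.1 _ _ _)).elim
    · exact sp_empty a
  · refine ⟨M, rfl, ?_⟩
    by_contra hc
    push Not at hc
    obtain ⟨v₀, hv₀⟩ := hc
    have hall : ∀ v, IsEmpty (M.M v) := by
      intro v
      induction hirr v₀ v with
      | refl => exact hv₀
      | tail _ he ih =>
        obtain ⟨e⟩ := he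
        exact ⟨fun m => ih.false (M.res e m)⟩
    obtain ⟨X, a, b, hab⟩ := h.2
    apply hab
    rcases diag_cases hirr hns X with ⟨S, rfl⟩ | ⟨N, rfl⟩
    · exact ps_ext fun v m => ((hall v).false m).elim
    · exact ss_ext fun v m => ((hall v).false m).elim

theorem shT_ofSh (hirr : Irred E) (hns : ∀ v : V, ∃ u, Nonempty (E u v)) (M : ShD E) :
    ShT (ofSh M) :=
  ⟨ofSh (J0 E), isJ_J0 hirr hns, ⟨mkSS (fun _ _ => ()) (fun _ _ => rfl)⟩⟩

theorem not_shT_ofPt (hirr : Irred E) (hns : ∀ v : V, ∃ u, Nonempty (E u v)) (S : PtD E) :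
    ¬ ShT (ofPt S) := by
  rintro ⟨D, hD, ⟨f⟩⟩
  obtain ⟨M, rfl, -⟩ := hD.sh hirr hns
  exact sp_empty f

/-- The kernel pair of the anchor map. -/
def kerD (S : PtD E) : PtD E where
  S v := {p : S.S v × S.S v // S.anc v p.1 = S.anc v p.2}
  map e p := ⟨(S.map e p.1.1, S.map e p.1.2), by
    show S.anc _ (S.map e p.1.1) = S.anc _ (S.map e p.1.2)
    rw [S.anc_map, S.anc_map, p.2]⟩
  bij v := by
    constructor
    · rintro ⟨u, e, ⟨⟨y, y'⟩, hy⟩⟩ ⟨u₁, e₁, ⟨⟨y₁, y₁'⟩, hy₁⟩⟩ h
      have h1 : S.map e y = S.map e₁ y₁ := congrArg (fun p => p.1.1) h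
      have h2 : S.map e y' = S.map e₁ y₁' := congrArg (fun p => p.1.2) h
      have h3 := (S.bij v).1 (a₁ := ⟨u, e, y⟩) (a₂ := ⟨u₁, e₁, y₁⟩) h1
      have h4 := (S.bij v).1 (a₁ := ⟨u, e, y'⟩) (a₂ := ⟨u₁, e₁, y₁'⟩) h2
      have hu : u = u₁ := congrArg (fun z : (Σ u, E u v × S.S u) => z.1) h3
      subst hu
      have h3' := eq_of_heq (Sigma.mk.inj_iff.1 h3).2
      have h4' := eq_of_heq (Sigma.mk.inj_iff.1 h4).2
      have he : e = e₁ := congrArg Prod.fst h3'
      have hya : y = y₁ := congrArg Prod.snd h3'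
      have hyb : y' = y₁' := congrArg Prod.snd h4'
      subst he
      subst hya
      subst hyb
      rfl
    · rintro ⟨⟨z, z'⟩, hz⟩
      obtain ⟨u, e, y, rfl⟩ := S.surj z
      obtain ⟨u', e', y', rfl⟩ := S.surj z'
      have hz' : S.anc v (S.map e y) = S.anc v (S.map e' y') := hz
      rw [S.anc_map, S.anc_map] at hz'
      have h2 := cons_inj hz'
      have hu : u = u' := congrArg (fun z : (Σ u, E u v × Xp E u) => z.1) h2
      subst hu
      have h3 := eq_of_heq (Sigma.mk.inj_iff.1 h2).2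
      have he : e = e' := congrArg Prod.fst h3
      subst he
      have hy : S.anc u y = S.anc u y' := congrArg Prod.snd h3
      exact ⟨⟨u, e, ⟨(y, y'), hy⟩⟩, rfl⟩

/-- A pointwise bijective morphism of covariant diagrams is an isomorphism. -/
noncomputable def isoPP {S S' : PtD E} (f : ofPt S ⟶ ofPt S') (hb : ∀ v, Function.Bijective (pp f v)) :
    ofPt S ≅ ofPt S' where
  hom := f
  inv := mkPP (fun v => (Equiv.ofBijective _ (hb v)).symm) (fun {u v} e y => by
    rw [Equiv.symm_apply_eq]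
    show S'.map e y = pp f v (S.map e ((Equiv.ofBijective _ (hb u)).symm y))
    rw [pp_nat]
    congr 1
    exact ((Equiv.ofBijective _ (hb u)).apply_symm_apply y).symm)
  hom_inv_id := pp_ext fun v z => (Equiv.ofBijective _ (hb v)).symm_apply_apply z
  inv_hom_id := pp_ext fun v z => (Equiv.ofBijective _ (hb v)).apply_symm_apply z

theorem orb_nonempty (ω : Orb (sft (RE E))) : ∃ v, Nonempty ((Eo E ω).S v) := by
  induction ω using Quotient.ind with
  | _ x => exact ⟨_, ⟨toXp x, rfl⟩⟩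

/-- A morphism to an orbit diagram preserves the underlying path. -/
theorem hom_Eo (ω : Orb (sft (RE E))) (S : PtD E) (f : ofPt S ⟶ ofPt (Eo E ω)) {v : V}
    (z : S.S v) : (pp f v z).1 = S.anc v z :=
  unique_anc S (fun v z => (pp f v z).1) (fun v z => S.anc v z)
    (fun e y => congrArg Subtype.val (pp_nat f e y)) (fun e y => S.anc_map e y) v z

theorem atom_Eo (hirr : Irred E) (hns : ∀ v : V, ∃ u, Nonempty (E u v)) (ω : Orb (sft (RE E))) :
    Atom (ofPt (Eo E ω)) := by
  refine ⟨not_shT_ofPt hirr hns _, ?_, ofSh (J0 E), isJ_J0 hirr hns, ?_⟩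
  · intro S hS a b
    rcases diag_cases hirr hns S with ⟨S, rfl⟩ | ⟨M, rfl⟩
    · refine pp_ext fun v z => Subtype.ext ?_
      rw [hom_Eo, hom_Eo]
    · exact (hS (shT_ofSh hirr hns M)).elim
  · obtain ⟨v₀, ⟨z₀⟩⟩ := orb_nonempty ω
    have key : ∀ α : ofPt (Eo E ω) ⟶ ofSh (J0 E), ∀ v (z : (Eo E ω).S v),
        ps α v () z = ps α v₀ () z₀ := by
      intro α
      -- the value as a function on the points of the orbit
      let A : {x : Om (RE E) // orb (sft (RE E)) x = ω} → Bool := fun x =>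
        ps α (x.1.1 0).2.1 () ⟨toXp x.1, x.2⟩
      have hA : ∀ v (z : (Eo E ω).S v), ps α v () z = A ⟨z.1.1, z.2⟩ := by
        rintro v ⟨⟨x, rfl⟩, hz⟩
        rfl
      have hs : ∀ (x : Om (RE E)) (hx : orb (sft (RE E)) x = ω)
          (hx' : orb (sft (RE E)) (sft (RE E) x) = ω), A ⟨sft (RE E) x, hx'⟩ = A ⟨x, hx⟩ := by
        intro x hx hx'
        obtain ⟨u, e, y, hy⟩ := exists_cons (toXp x)
        have hxy : x = (cons e y).1 := congrArg Subtype.val hy
        clear hy
        generalize (x.1 0).2.1 = v at *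
        subst hxy
        have h1 : xorb y = ω := by rw [← xorb_cons e y]; exact hx
        have h2 := ps_nat α e () (⟨y, h1⟩ : (Eo E ω).S u)
        have h3 := hA v ((Eo E ω).map e ⟨y, h1⟩)
        have h4 := hA u ⟨y, h1⟩
        have h5 : (⟨sft (RE E) (cons e y).1, hx'⟩ : {x : Om (RE E) // orb (sft (RE E)) x = ω})
            = ⟨y.1, h1⟩ := Subtype.ext (sft_cons e y)
        rw [h5]
        exact h4.symm.trans (h2.symm.trans h3)
      have hi : ∀ (i : ℕ) (x : Om (RE E)) (hx : orb (sft (RE E)) x = ω)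
          (hx' : orb (sft (RE E)) ((sft (RE E))^[i] x) = ω),
          A ⟨(sft (RE E))^[i] x, hx'⟩ = A ⟨x, hx⟩ := by
        intro i
        induction i with
        | zero => intro x hx hx'; rfl
        | succ i ih =>
          intro x hx hx'
          have h1 : orb (sft (RE E)) (sft (RE E) x) = ω := by rw [orb_apply]; exact hx
          exact (ih (sft (RE E) x) h1 hx').trans (hs x hx h1)
      intro v z
      rw [hA, hA]
      obtain ⟨i, j, hij⟩ := orb_eq.1 ((z.2 : orb _ z.1.1 = ω).trans (z₀.2 : orb _ z₀.1.1 = ω).symm)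
      have h1 : orb (sft (RE E)) ((sft (RE E))^[i] z.1.1) = ω := by rw [orb_iterate]; exact z.2
      have h2 : orb (sft (RE E)) ((sft (RE E))^[j] z₀.1.1) = ω := by rw [orb_iterate]; exact z₀.2
      rw [← hi i z.1.1 z.2 h1, ← hi j z₀.1.1 z₀.2 h2]
      congr 1
      exact Subtype.ext hij
    have eqv : (ofPt (Eo E ω) ⟶ ofSh (J0 E)) ≃ Bool :=
      { toFun := fun α => ps α v₀ () z₀
        invFun := fun c => cst _ _ c
        left_inv := fun α => ps_ext fun v m z => (key α v z).symm
        right_inv := fun c => rfl }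
    rw [Nat.card_congr eqv, Nat.card_eq_fintype_card, Fintype.card_bool]

theorem Atom.exists_iso (hirr : Irred E) (hns : ∀ v : V, ∃ u, Nonempty (E u v)) {X : Diag Ob E}
    (h : Atom X) : ∃ ω, Nonempty (X ≅ ofPt (Eo E ω)) := by
  rcases diag_cases hirr hns X with ⟨S, rfl⟩ | ⟨M, rfl⟩
  swap
  · exact (h.1 (shT_ofSh hirr hns M)).elim
  obtain ⟨-, hsub, D, hD, hcard⟩ := h
  obtain ⟨M, rfl, hM⟩ := hD.sh hirr hns
  -- the anchor map is injective
  have hinj : ∀ v (z z' : S.S v), S.anc v z = S.anc v z' → z = z' := by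
    intro v z z' hz
    have h1 := hsub (ofPt (kerD S)) (not_shT_ofPt hirr hns _)
      (mkPP (fun v p => p.1.1) (fun e y => rfl)) (mkPP (fun v p => p.1.2) (fun e y => rfl))
    exact congrArg (fun f : ofPt (kerD S) ⟶ ofPt S => pp f v ⟨(z, z'), hz⟩) h1
  obtain ⟨α, β, hαβ, huniv⟩ := Nat.card_eq_two_iff.1 hcard
  have hex : ∃ v₀, Nonempty (S.S v₀) := by
    by_contra hc
    push Not at hc
    apply hαβ
    exact ps_ext fun v m z => ((hc v).false z).elim
  obtain ⟨v₀, ⟨z₀⟩⟩ := hex
  classical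
  let ind : ofPt S ⟶ ofSh M := mkPS (fun v _ z => decide (xorb (S.anc v z) = xorb (S.anc v₀ z₀)))
    (fun e m y => by
      show decide (xorb (S.anc _ (S.map e y)) = _) = decide (xorb (S.anc _ y) = _)
      rw [S.anc_map, xorb_cons])
  obtain ⟨m₀⟩ := hM v₀
  have hne := cst_ne (M := M) z₀ m₀
  have hind : ind ≠ cst S M false := by
    intro hc
    have h1 : ps ind v₀ m₀ z₀ = ps (cst S M false) v₀ m₀ z₀ := by rw [hc]
    have h2 : decide (xorb (S.anc v₀ z₀) = xorb (S.anc v₀ z₀)) = false := h1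
    rw [decide_eq_true rfl] at h2
    exact Bool.noConfusion h2
  have hindT : ind = cst S M true := by
    have hm : ∀ γ : ofPt S ⟶ ofSh M, γ = α ∨ γ = β := by
      intro γ
      have : γ ∈ ({α, β} : Set _) := by rw [huniv]; exact Set.mem_univ γ
      simpa using this
    rcases hm ind with h1 | h1 <;> rcases hm (cst S M true) with h2 | h2 <;>
      rcases hm (cst S M false) with h3 | h3
    · exact h1.trans h2.symm
    · exact h1.trans h2.symm
    · exact absurd (h1.trans h3.symm) hind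
    · exact absurd (h2.trans h3.symm) hne
    · exact absurd (h2.trans h3.symm) hne
    · exact absurd (h1.trans h3.symm) hind
    · exact h1.trans h2.symm
    · exact h1.trans h2.symm
  have hall : ∀ v (z : S.S v), xorb (S.anc v z) = xorb (S.anc v₀ z₀) := by
    intro v z
    obtain ⟨m⟩ := hM v
    have h1 : ps ind v m z = ps (cst S M true) v m z := by rw [hindT]
    have h2 : decide (xorb (S.anc v z) = xorb (S.anc v₀ z₀)) = true := h1
    exact of_decide_eq_true h2
  refine ⟨xorb (S.anc v₀ z₀), ⟨isoPP (mkPP (fun v z => ⟨S.anc v z, hall v z⟩)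
    (fun e y => Subtype.ext (S.anc_map e y))) fun v => ⟨?_, ?_⟩⟩⟩
  · intro z z' hzz
    exact hinj v z z' (congrArg Subtype.val hzz)
  · rintro ⟨x, hx⟩
    -- the image is closed under the shift and its inverse
    have him1 : ∀ (x : Om (RE E)), (∃ v, ∃ z : S.S v, (S.anc v z).1 = x) →
        ∃ v, ∃ z : S.S v, (S.anc v z).1 = sft (RE E) x := by
      rintro x ⟨v, z, rfl⟩
      obtain ⟨u, e, y, rfl⟩ := S.surj z
      exact ⟨u, y, by rw [S.anc_map, sft_cons]⟩
    have him2 : ∀ (x : Om (RE E)), (∃ v, ∃ z : S.S v, (S.anc v z).1 = sft (RE E) x) →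
        ∃ v, ∃ z : S.S v, (S.anc v z).1 = x := by
      rintro x ⟨v, z, hz⟩
      have hv : v = (x.1 0).1 := by
        have h1 := (S.anc v z).2
        rw [hz] at h1
        exact h1.symm.trans (x.2 0)
      subst hv
      refine ⟨(x.1 0).2.1, S.map (x.1 0).2.2 z, ?_⟩
      rw [S.anc_map]
      apply Om.ext
      intro i
      cases i with
      | zero => rfl
      | succ i =>
        rw [cons_succ, hz]
        rfl
    have him3 : ∀ (i : ℕ) (x : Om (RE E)), (∃ v, ∃ z : S.S v, (S.anc v z).1 = x) →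
        ∃ v, ∃ z : S.S v, (S.anc v z).1 = (sft (RE E))^[i] x := by
      intro i
      induction i with
      | zero => exact fun x h => h
      | succ i ih =>
        intro x h
        rw [iterate_succ_apply]
        exact ih _ (him1 x h)
    have him4 : ∀ (i : ℕ) (x : Om (RE E)), (∃ v, ∃ z : S.S v, (S.anc v z).1 = (sft (RE E))^[i] x) →
        ∃ v, ∃ z : S.S v, (S.anc v z).1 = x := by
      intro i
      induction i with
      | zero => exact fun x h => h
      | succ i ih =>
        intro x h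
        rw [iterate_succ_apply] at h
        exact him2 x (ih _ h)
    obtain ⟨i, j, hij⟩ := orb_eq.1 hx
    have h1 := him3 j (S.anc v₀ z₀).1 ⟨v₀, z₀, rfl⟩
    rw [← hij] at h1
    obtain ⟨v', z, hz⟩ := him4 i _ h1
    have hv : v' = v := by
      have h2 := (S.anc v' z).2
      rw [hz] at h2
      exact h2.symm.trans x.2
    subst hv
    exact ⟨z, Subtype.ext (Subtype.ext hz)⟩

theorem Eo_inj {ω ω' : Orb (sft (RE E))} (f : ofPt (Eo E ω) ⟶ ofPt (Eo E ω')) : ω = ω' := by
  obtain ⟨v, ⟨z⟩⟩ := orb_nonempty ω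
  have h1 := hom_Eo ω' _ f z
  have h2 := hom_Eo ω _ (𝟙 _) z
  have h3 : (pp (𝟙 (ofPt (Eo E ω))) v z) = z := rfl
  rw [h3] at h2
  have h4 : (pp f v z).1 = z.1 := h1.trans h2.symm
  rw [← z.2, ← (pp f v z).2, h4]

end Pool.Agent.V1161.PS
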