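import Mathlib

/-!
# The collage category, and diagrams satisfying the coproduct condition
-/

namespace Pool.Agent.V1161.PS

open CategoryTheory CategoryTheory.Limits

/-- Objects of the collage category: two copies of the class of sets. -/
inductive Ob : Type 1
  /-- a set, in the covariant copy -/
  | pt (X : Type) : Ob
  /-- a set, in the contravariant copy -/
  | sh (M : Type) : Ob

/-- Morphisms of the collage category. -/
def Ob.Hom : Ob → Ob → Type
  | .pt X, .pt Y => X → Y
  | .pt X, .sh M => M → X → Bool
  | .sh M, .sh N => N → M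
  | .sh _, .pt _ => Empty

/-- Identities. -/
def Ob.id' : ∀ a : Ob, Ob.Hom a a
  | .pt _ => fun x => x
  | .sh _ => fun m => m

/-- Composition. -/
def Ob.comp' : ∀ {a b c : Ob}, Ob.Hom a b → Ob.Hom b c → Ob.Hom a c
  | .pt _, .pt _, .pt _, f, g => fun x => g (f x)
  | .pt _, .pt _, .sh _, f, g => fun m x => g m (f x)
  | .pt _, .sh _, .sh _, f, g => fun m => f (g m)
  | .sh _, .sh _, .sh _, f, g => fun m => f (g m)
  | .pt _, .sh _, .pt _, _, g => g.elim
  | .sh _, .sh _, .pt _, _, g => g.elim
  | .sh _, .pt _, _, f, _ => f.elim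

/-- The collage category of the functor `Set → Setᵒᵖ`, `X ↦ (X → Bool)`. -/
instance : Category.{0} Ob where
  Hom := Ob.Hom
  id := Ob.id'
  comp := Ob.comp'
  id_comp {a b} f := by
    cases a <;> cases b <;> first | rfl | exact f.elim
  comp_id {a b} f := by
    cases a <;> cases b <;> first | rfl | exact f.elim
  assoc {a b c d} f g h := by
    cases a <;> cases b <;> first | exact f.elim | skip
    all_goals cases c <;> first | exact g.elim | skip
    all_goals cases d <;> first | exact h.elim | rfl

/-- The universal property of a coproduct, spelled out. -/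
def UP {C : Type*} [Category C] {ι : Type*} (f : ι → C) (P : C) (p : ∀ j, f j ⟶ P) : Prop :=
  ∀ W (g : ∀ j, f j ⟶ W), ∃! h : P ⟶ W, ∀ j, p j ≫ h = g j

theorem up_iff {C : Type*} [Category C] {ι : Type*} (f : ι → C) (P : C) (p : ∀ j, f j ⟶ P) :
    Nonempty (IsColimit (Cofan.mk P p)) ↔ UP f P p := by
  constructor
  · rintro ⟨hc⟩ W g
    refine ⟨hc.desc (Cofan.mk W g), fun j => hc.fac (Cofan.mk W g) ⟨j⟩, fun h hh => ?_⟩
    apply hc.uniq (Cofan.mk W g)
    rintro ⟨j⟩
    exact hh j
  · intro h
    choose d hd hu using h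
    exact ⟨Cofan.IsColimit.mk _ (fun t => d t.pt (fun j => t.inj j)) (fun t j => hd _ _ j)
      (fun t m w => hu _ _ m w)⟩

instance : HasBinaryCoproducts Ob := by
  have key : ∀ X Y : Ob, ∃ (W : Ob) (i : X ⟶ W) (j : Y ⟶ W), ∀ (T : Ob) (a : X ⟶ T) (b : Y ⟶ T),
      ∃! h : W ⟶ T, i ≫ h = a ∧ j ≫ h = b := by
    intro X Y
    cases X with
    | pt X =>
      cases Y with
      | pt Y =>
        refine ⟨.pt (X ⊕ Y), (Sum.inl : X → X ⊕ Y), (Sum.inr : Y → X ⊕ Y), fun T a b => ?_⟩
        cases T with
        | pt Z =>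
          refine ⟨(Sum.elim a b : X ⊕ Y → Z), ⟨rfl, rfl⟩, ?_⟩
          rintro h ⟨rfl, rfl⟩
          exact funext fun z => by cases z <;> rfl
        | sh M =>
          refine ⟨(fun m => Sum.elim (a m) (b m) : M → X ⊕ Y → Bool), ⟨rfl, rfl⟩, ?_⟩
          rintro h ⟨rfl, rfl⟩
          exact funext fun m => funext fun z => by cases z <;> rfl
      | sh N =>
        refine ⟨.sh (N × (X → Bool)), (fun m => m.2 : N × (X → Bool) → X → Bool),
          (fun m => m.1 : N × (X → Bool) → N), fun T a b => ?_⟩
        cases T with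
        | pt Z => exact b.elim
        | sh M =>
          refine ⟨(fun m => (b m, a m) : M → N × (X → Bool)), ⟨rfl, rfl⟩, ?_⟩
          rintro h ⟨rfl, rfl⟩
          rfl
    | sh X =>
      cases Y with
      | pt Y =>
        refine ⟨.sh (X × (Y → Bool)), (fun m => m.1 : X × (Y → Bool) → X),
          (fun m => m.2 : X × (Y → Bool) → Y → Bool), fun T a b => ?_⟩
        cases T with
        | pt Z => exact a.elim
        | sh M =>
          refine ⟨(fun m => (a m, b m) : M → X × (Y → Bool)), ⟨rfl, rfl⟩, ?_⟩
          rintro h ⟨rfl, rfl⟩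
          rfl
      | sh N =>
        refine ⟨.sh (X × N), (fun m => m.1 : X × N → X), (fun m => m.2 : X × N → N),
          fun T a b => ?_⟩
        cases T with
        | pt Z => exact a.elim
        | sh M =>
          refine ⟨(fun m => (a m, b m) : M → X × N), ⟨rfl, rfl⟩, ?_⟩
          rintro h ⟨rfl, rfl⟩
          rfl
  have : ∀ {X Y : Ob}, HasColimit (pair X Y) := by
    intro X Y
    obtain ⟨W, i, j, h⟩ := key X Y
    choose d hd hu using h
    exact ⟨⟨⟨BinaryCofan.mk i j, BinaryCofan.IsColimit.mk _ (fun {T} a b => d T a b)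
      (fun {T} a b => (hd T a b).1) (fun {T} a b => (hd T a b).2)
      (fun {T} a b m h₁ h₂ => hu T a b m ⟨h₁, h₂⟩)⟩⟩⟩
  exact hasBinaryCoproducts_of_hasColimit_pair Ob

section Diagrams

variable (C : Type*) [Category C] {V : Type} (E : V → V → Type)

/-- A diagram in `C` of shape the directed graph with vertex set `V` and edge sets `E u v`
satisfying the coproduct condition: at every vertex which is not a source, the morphisms of the
edges ending there form a coproduct cofan. -/
structure Diag where
  /-- the objects -/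
  obj : V → C
  /-- the morphisms -/
  map : ∀ {u v : V}, E u v → (obj u ⟶ obj v)
  /-- the coproduct condition -/
  coprod : ∀ v : V, (∃ u, Nonempty (E u v)) →
    Nonempty (IsColimit (Cofan.mk (f := fun p : (Σ u, E u v) => obj p.1) (obj v) (fun p => map p.2)))

variable {C} {E}

/-- Morphisms of diagrams. -/
@[ext]
structure Diag.Hom (D D' : Diag C E) where
  /-- the components -/
  app : ∀ v, D.obj v ⟶ D'.obj v
  /-- naturality -/
  comm : ∀ {u v : V} (e : E u v), D.map e ≫ app v = app u ≫ D'.map e

instance : Category (Diag C E) where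
  Hom := Diag.Hom
  id D := ⟨fun _ => 𝟙 _, fun e => by rw [Category.comp_id, Category.id_comp]⟩
  comp f g := ⟨fun v => f.app v ≫ g.app v, fun e => by
    rw [← Category.assoc, f.comm, Category.assoc, g.comm, Category.assoc]⟩
  id_comp f := Diag.Hom.ext (funext fun v => Category.id_comp _)
  comp_id f := Diag.Hom.ext (funext fun v => Category.comp_id _)
  assoc f g h := Diag.Hom.ext (funext fun v => Category.assoc _ _ _)

end Diagrams

end Pool.Agent.V1161.PS
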