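import Mathlib

/-!
# Tail orbits of a self-map and Birkhoff sums over periodic orbits
-/

namespace Pool.Agent.V1161.PS

open Function

variable {X : Type*} (σ : X → X)

/-- Tail equivalence of a self-map. -/
def tail : Setoid X where
  r x y := ∃ i j, σ^[i] x = σ^[j] y
  iseqv :=
    { refl := fun x => ⟨0, 0, rfl⟩
      symm := fun {_ _} ⟨i, j, h⟩ => ⟨j, i, h.symm⟩
      trans := fun {x y z} ⟨i, j, h⟩ ⟨k, l, h'⟩ => ⟨k + i, j + l, by
        rw [iterate_add_apply, h, ← iterate_add_apply, add_comm k j, iterate_add_apply, h',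
          iterate_add_apply]⟩ }

/-- The set of tail orbits. -/
abbrev Orb := Quotient (tail σ)

/-- The tail orbit of a point. -/
abbrev orb (x : X) : Orb σ := Quotient.mk (tail σ) x

variable {σ}

theorem orb_eq {x y : X} : orb σ x = orb σ y ↔ ∃ i j, σ^[i] x = σ^[j] y :=
  ⟨fun h => Quotient.exact h, fun h => Quotient.sound h⟩

@[simp] theorem orb_apply (x : X) : orb σ (σ x) = orb σ x :=
  orb_eq.2 ⟨0, 1, rfl⟩

theorem orb_iterate (x : X) (n : ℕ) : orb σ (σ^[n] x) = orb σ x :=
  orb_eq.2 ⟨0, n, rfl⟩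

/-- In one tail orbit the periodic points form one cycle. -/
theorem exists_iterate {x y : X} (hy : y ∈ periodicPts σ) (h : orb σ x = orb σ y) :
    ∃ k, σ^[k] x = y := by
  obtain ⟨i, j, hij⟩ := orb_eq.1 h
  obtain ⟨n, hn, hp⟩ := hy
  have hp' : σ^[n * j] y = y := by
    rw [mul_comm]; exact hp.const_mul j
  refine ⟨(n * j - j) + i, ?_⟩
  have hle : j ≤ n * j := Nat.le_mul_of_pos_left j hn
  rw [iterate_add_apply, hij, ← iterate_add_apply, Nat.sub_add_cancel hle, hp']

/-- Birkhoff sum over the minimal period. -/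
noncomputable def ell (f : X → ℤ) (x : X) : ℤ := birkhoffSum σ f (minimalPeriod σ x) x

theorem ell_apply (f : X → ℤ) {x : X} (hx : x ∈ periodicPts σ) :
    ell (σ := σ) f (σ x) = ell (σ := σ) f x := by
  unfold ell
  have h1 : minimalPeriod σ (σ x) = minimalPeriod σ x := minimalPeriod_apply hx
  rw [h1]
  have h2 := birkhoffSum_apply_sub_birkhoffSum σ f (minimalPeriod σ x) x
  have h3 : σ^[minimalPeriod σ x] x = x := isPeriodicPt_minimalPeriod σ x
  rw [h3, sub_self] at h2
  exact sub_eq_zero.1 h2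

theorem periodic_iterate {x : X} (hx : x ∈ periodicPts σ) (n : ℕ) :
    σ^[n] x ∈ periodicPts σ := by
  obtain ⟨m, hm, hp⟩ := hx
  exact ⟨m, hm, hp.apply_iterate n⟩

theorem ell_iterate (f : X → ℤ) {x : X} (hx : x ∈ periodicPts σ) (n : ℕ) :
    ell (σ := σ) f (σ^[n] x) = ell (σ := σ) f x := by
  induction n with
  | zero => rfl
  | succ n ih => rw [iterate_succ_apply', ell_apply f (periodic_iterate hx n), ih]

theorem ell_eq_of_orb (f : X → ℤ) {x y : X} (hx : x ∈ periodicPts σ) (hy : y ∈ periodicPts σ)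
    (h : orb σ x = orb σ y) : ell (σ := σ) f x = ell (σ := σ) f y := by
  obtain ⟨k, hk⟩ := exists_iterate hy h
  rw [← hk, ell_iterate f hx]

/-- The Birkhoff sum over a period is a multiple of the one over the minimal period. -/
theorem birkhoff_mul (f : X → ℤ) (x : X) (k : ℕ) :
    birkhoffSum σ f (k * minimalPeriod σ x) x = k * ell (σ := σ) f x := by
  induction k with
  | zero => simp
  | succ k ih =>
    rw [Nat.succ_mul, birkhoffSum_add, ih]
    have h3 : σ^[k * minimalPeriod σ x] x = x := (isPeriodicPt_minimalPeriod σ x).const_mul k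
    rw [h3]
    unfold ell
    push_cast
    ring

theorem birkhoff_of_isPeriodicPt (f : X → ℤ) {x : X} {n : ℕ} (h : IsPeriodicPt σ n x) :
    ∃ k : ℕ, n = k * minimalPeriod σ x ∧ birkhoffSum σ f n x = k * ell (σ := σ) f x := by
  obtain ⟨k, hk⟩ := h.minimalPeriod_dvd
  refine ⟨k, by rw [hk, mul_comm], ?_⟩
  rw [hk, mul_comm, birkhoff_mul]

variable (σ)

open Classical in
/-- The weight of a tail orbit: absolute value of the Birkhoff sum over the minimal period for
an orbit containing a periodic point, and `0` otherwise. -/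
noncomputable def wt (f : X → ℤ) (ω : Orb σ) : ℕ :=
  if h : ∃ x, orb σ x = ω ∧ x ∈ periodicPts σ then (ell (σ := σ) f h.choose).natAbs else 0

variable {σ}

theorem wt_orb (f : X → ℤ) {x : X} (hx : x ∈ periodicPts σ) :
    wt σ f (orb σ x) = (ell (σ := σ) f x).natAbs := by
  have h : ∃ y, orb σ y = orb σ x ∧ y ∈ periodicPts σ := ⟨x, rfl, hx⟩
  unfold wt
  rw [dif_pos h, ell_eq_of_orb f h.choose_spec.2 hx h.choose_spec.1]

theorem wt_of_not (f : X → ℤ) {ω : Orb σ} (h : ¬ ∃ x, orb σ x = ω ∧ x ∈ periodicPts σ) :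
    wt σ f ω = 0 := by
  unfold wt
  rw [dif_neg h]

theorem exists_of_wt_ne_zero (f : X → ℤ) {ω : Orb σ} (h : wt σ f ω ≠ 0) :
    ∃ x, orb σ x = ω ∧ x ∈ periodicPts σ := by
  by_contra hc
  exact h (wt_of_not f hc)

/-- If two functions have the same absolute Birkhoff sums over minimal periods, they have the
same weights. -/
theorem wt_congr {f g : X → ℤ}
    (h : ∀ x ∈ periodicPts σ, (ell (σ := σ) f x).natAbs = (ell (σ := σ) g x).natAbs)
    (ω : Orb σ) : wt σ f ω = wt σ g ω := by
  by_cases hω : ∃ x, orb σ x = ω ∧ x ∈ periodicPts σ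
  · obtain ⟨x, rfl, hx⟩ := hω
    rw [wt_orb f hx, wt_orb g hx, h x hx]
  · rw [wt_of_not f hω, wt_of_not g hω]

theorem wt_neg (f : X → ℤ) (ω : Orb σ) : wt σ (fun x => - f x) ω = wt σ f ω := by
  apply wt_congr
  intro x _
  unfold ell
  have : birkhoffSum σ (fun x => - f x) (minimalPeriod σ x) x
      = - birkhoffSum σ f (minimalPeriod σ x) x := by
    simp [birkhoffSum]
  rw [this, Int.natAbs_neg]

theorem birkhoff_cob (f h : X → ℤ) (n : ℕ) (x : X) :
    birkhoffSum σ (fun x => f x + h x - h (σ x)) n x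
      = birkhoffSum σ f n x + h x - h (σ^[n] x) := by
  induction n with
  | zero => simp
  | succ n ih =>
    rw [birkhoffSum_succ, ih, birkhoffSum_succ, iterate_succ_apply']
    ring

theorem wt_cob (f h : X → ℤ) (ω : Orb σ) :
    wt σ (fun x => f x + h x - h (σ x)) ω = wt σ f ω := by
  apply wt_congr
  intro x _
  unfold ell
  rw [birkhoff_cob, isPeriodicPt_minimalPeriod σ x]
  congr 1
  ring

/-! ### Conjugacy -/

section conj

variable {Y : Type*} {τ : Y → Y} (e : X ≃ Y) (he : ∀ x, e (σ x) = τ (e x))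

include he in
theorem conj_iterate (n : ℕ) (x : X) : e (σ^[n] x) = τ^[n] (e x) := by
  induction n generalizing x with
  | zero => rfl
  | succ n ih => rw [iterate_succ_apply, ih, he, iterate_succ_apply]

/-- A conjugacy identifies the orbit sets. -/
def orbEquiv : Orb σ ≃ Orb τ :=
  Quotient.congr e (fun a b => by
    constructor
    · rintro ⟨i, j, h⟩
      exact ⟨i, j, by rw [← conj_iterate e he, ← conj_iterate e he, h]⟩
    · rintro ⟨i, j, h⟩
      refine ⟨i, j, e.injective ?_⟩
      rw [conj_iterate e he, conj_iterate e he, h])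

include he in
theorem conj_isPeriodicPt {n : ℕ} {x : X} : IsPeriodicPt τ n (e x) ↔ IsPeriodicPt σ n x := by
  unfold IsPeriodicPt IsFixedPt
  rw [← conj_iterate e he]
  exact e.injective.eq_iff

include he in
theorem conj_minimalPeriod (x : X) : minimalPeriod τ (e x) = minimalPeriod σ x := by
  apply Nat.dvd_antisymm
  · apply IsPeriodicPt.minimalPeriod_dvd
    rw [conj_isPeriodicPt e he]
    exact isPeriodicPt_minimalPeriod σ x
  · apply IsPeriodicPt.minimalPeriod_dvd
    rw [← conj_isPeriodicPt e he]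
    exact isPeriodicPt_minimalPeriod τ (e x)

include he in
theorem conj_mem_periodicPts (x : X) : e x ∈ periodicPts τ ↔ x ∈ periodicPts σ := by
  constructor
  · rintro ⟨n, hn, h⟩; exact ⟨n, hn, (conj_isPeriodicPt e he).1 h⟩
  · rintro ⟨n, hn, h⟩; exact ⟨n, hn, (conj_isPeriodicPt e he).2 h⟩

include he in
theorem conj_birkhoff {f : X → ℤ} {g : Y → ℤ} (hfg : ∀ x, g (e x) = f x) (n : ℕ) (x : X) :
    birkhoffSum τ g n (e x) = birkhoffSum σ f n x := by
  unfold birkhoffSum
  refine Finset.sum_congr rfl fun i _ => ?_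
  rw [← conj_iterate e he, hfg]

include he in
theorem conj_wt {f : X → ℤ} {g : Y → ℤ} (hfg : ∀ x, g (e x) = f x) (ω : Orb σ) :
    wt τ g (orbEquiv e he ω) = wt σ f ω := by
  by_cases hω : ∃ x, orb σ x = ω ∧ x ∈ periodicPts σ
  · obtain ⟨x, rfl, hx⟩ := hω
    have h1 : orbEquiv e he (orb σ x) = orb τ (e x) := rfl
    rw [h1, wt_orb f hx, wt_orb g ((conj_mem_periodicPts e he x).2 hx)]
    unfold ell
    rw [conj_minimalPeriod e he, conj_birkhoff e he hfg]
  · rw [wt_of_not f hω, wt_of_not]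
    rintro ⟨y, hy, hp⟩
    apply hω
    refine ⟨e.symm y, ?_, ?_⟩
    · apply (orbEquiv e he).injective
      rw [← hy]
      have h1 : orbEquiv e he (orb σ (e.symm y)) = orb τ (e (e.symm y)) := rfl
      rw [h1, e.apply_symm_apply]
    · rw [← conj_mem_periodicPts e he, e.apply_symm_apply]
      exact hp

end conj

end Pool.Agent.V1161.PS
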