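import Pool.Agent.V1161.PS.Walk

/-!
# Recoding finite-depth functions, and the main theorem on Markov shifts
-/

namespace Pool.Agent.V1161.PS

set_option linter.unusedSectionVars false

open Function

/-- `f` depends only on the first `D` letters. -/
def Dep {A : Type} {R : A → A → Prop} (D : ℕ) (f : Om R → ℤ) : Prop :=
  ∀ x y : Om R, (∀ i < D, x.1 i = y.1 i) → f x = f y

section Pair

variable {A : Type} (R : A → A → Prop)

/-- Allowed pairs. -/
abbrev Pr : Type := {p : A × A // R p.1 p.2}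

/-- The relation on allowed pairs. -/
def R2 : Pr R → Pr R → Prop := fun p q => p.1.2 = q.1.1

/-- The two-block code. -/
def blk : Om R ≃ Om (R2 R) where
  toFun x := ⟨fun i => ⟨(x.1 i, x.1 (i + 1)), x.2 i⟩, fun _ => rfl⟩
  invFun y := ⟨fun i => (y.1 i).1.1, fun i => by
    have h1 : (y.1 i).1.2 = (y.1 (i + 1)).1.1 := y.2 i
    rw [← h1]
    exact (y.1 i).2⟩
  left_inv x := Om.ext fun _ => rfl
  right_inv y := Om.ext fun i => by
    apply Subtype.ext
    show ((y.1 i).1.1, (y.1 (i + 1)).1.1) = (y.1 i).1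
    have h1 : (y.1 i).1.2 = (y.1 (i + 1)).1.1 := y.2 i
    rw [← h1]

theorem blk_sft (x : Om R) : blk R (sft R x) = sft (R2 R) (blk R x) := rfl

variable {R}

theorem irr_R2 (hirr : Irr R) : Irr (R2 R) := by
  have key : ∀ a b, Relation.TransGen R a b → ∀ p q : Pr R, p.1.2 = a → q.1.1 = b →
      Relation.TransGen (R2 R) p q := by
    intro a b h
    induction h with
    | @single d h =>
      intro p q hp hq
      have h3 : R2 R p (⟨(a, d), h⟩ : Pr R) := hp
      have h4 : R2 R (⟨(a, d), h⟩ : Pr R) q := hq.symm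
      exact (Relation.TransGen.single h3).tail h4
    | @tail d d' _ h ih =>
      intro p q hp hq
      have h4 : R2 R (⟨(d, d'), h⟩ : Pr R) q := hq.symm
      exact (ih p ⟨(d, d'), h⟩ hp rfl).tail h4
  intro p q
  exact key _ _ (hirr _ _) p q rfl rfl

variable [Fintype A] [DecidableEq A] [DecidableRel R]

instance : DecidableRel (R2 R) := fun p q => inferInstanceAs (Decidable (p.1.2 = q.1.1))

theorem det_R2 : (1 - Rmat (R2 R)).det = (1 - Rmat R).det := by
  let S : Matrix A (Pr R) ℤ := Matrix.of fun a p => if p.1.1 = a then 1 else 0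
  let T : Matrix (Pr R) A ℤ := Matrix.of fun p b => if p.1.2 = b then 1 else 0
  have h1 : S * T = Rmat R := by
    ext1 a b
    rw [Matrix.mul_apply]
    have hs : ∀ p : Pr R, S a p * T p b = if p.1 = (a, b) then 1 else 0 := by
      intro p
      show (if p.1.1 = a then (1 : ℤ) else 0) * (if p.1.2 = b then 1 else 0) = _
      by_cases h : p.1 = (a, b)
      · rw [if_pos h, h, if_pos rfl, if_pos rfl, one_mul]
      · rw [if_neg h]
        by_cases h1 : p.1.1 = a
        · have h2 : p.1.2 ≠ b := fun h2 => h (Prod.ext h1 h2)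
          rw [if_neg h2, mul_zero]
        · rw [if_neg h1, zero_mul]
    simp_rw [hs]
    show _ = if R a b then (1 : ℤ) else 0
    by_cases h : R a b
    · rw [if_pos h, Finset.sum_eq_single (⟨(a, b), h⟩ : Pr R)]
      · rw [if_pos rfl]
      · intro p _ hp
        rw [if_neg]
        intro hc
        exact hp (Subtype.ext hc)
      · intro hc; exact absurd (Finset.mem_univ _) hc
    · rw [if_neg h]
      apply Finset.sum_eq_zero
      intro p _
      rw [if_neg]
      intro hc
      apply h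
      have := p.2
      rw [hc] at this
      exact this
  have h2 : T * S = Rmat (R2 R) := by
    ext1 p q
    rw [Matrix.mul_apply]
    have hs : ∀ a, T p a * S a q = if p.1.2 = a then (if q.1.1 = a then 1 else 0) else 0 := by
      intro a
      show (if p.1.2 = a then (1 : ℤ) else 0) * (if q.1.1 = a then 1 else 0) = _
      split_ifs <;> simp
    simp_rw [hs]
    rw [Finset.sum_ite_eq Finset.univ, if_pos (Finset.mem_univ _)]
    show _ = if p.1.2 = q.1.1 then (1 : ℤ) else 0
    by_cases h : p.1.2 = q.1.1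
    · rw [if_pos h, if_pos h.symm]
    · rw [if_neg h, if_neg (Ne.symm h)]
  rw [← h1, ← h2]
  exact Matrix.det_one_sub_mul_comm T S

end Pair

/-- Every finite-depth function becomes a two-letter function after recoding. -/
theorem recode (D : ℕ) : ∀ (A : Type) [Fintype A] [DecidableEq A] (R : A → A → Prop)
    [DecidableRel R] (_ : Irr R) (f : Om R → ℤ) (_ : Dep (D + 2) f),
    ∃ (B : Type) (_ : Fintype B) (_ : DecidableEq B) (S : B → B → Prop) (_ : DecidableRel S)
      (c : B → B → ℤ) (e : Om R ≃ Om S), Irr S ∧ (∀ x, e (sft R x) = sft S (e x)) ∧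
      (∀ x, two c (e x) = f x) ∧ (1 - Rmat S).det = (1 - Rmat R).det := by
  induction D with
  | zero =>
    intro A _ _ R _ hirr f hf
    classical
    refine ⟨A, inferInstance, inferInstance, R, inferInstance,
      fun a b => if h : ∃ x : Om R, x.1 0 = a ∧ x.1 1 = b then f h.choose else 0,
      Equiv.refl _, hirr, fun _ => rfl, ?_, rfl⟩
    intro x
    have h : ∃ y : Om R, y.1 0 = x.1 0 ∧ y.1 1 = x.1 1 := ⟨x, rfl, rfl⟩
    show (if h : ∃ y : Om R, y.1 0 = x.1 0 ∧ y.1 1 = x.1 1 then f h.choose else 0) = f x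
    rw [dif_pos h]
    apply hf
    intro i hi
    have : i = 0 ∨ i = 1 := by omega
    rcases this with rfl | rfl
    · exact h.choose_spec.1
    · exact h.choose_spec.2
  | succ D ih =>
    intro A _ _ R _ hirr f hf
    have hf1 : Dep (D + 2) (fun y => f ((blk R).symm y)) := by
      intro x y hxy
      apply hf
      intro i hi
      rcases Nat.lt_or_ge i (D + 2) with h | h
      · show (x.1 i).1.1 = (y.1 i).1.1
        rw [hxy i h]
      · have hi' : i = D + 1 + 1 := by omega
        subst hi'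
        show (x.1 (D + 1 + 1)).1.1 = (y.1 (D + 1 + 1)).1.1
        have h1 : (x.1 (D + 1)).1.2 = (x.1 (D + 1 + 1)).1.1 := x.2 (D + 1)
        have h2 : (y.1 (D + 1)).1.2 = (y.1 (D + 1 + 1)).1.1 := y.2 (D + 1)
        rw [← h1, ← h2, hxy (D + 1) (by omega)]
    obtain ⟨B, iB, jB, S, kS, c, e, h1, h2, h3, h4⟩ := ih (Pr R) (R2 R) (irr_R2 hirr) _ hf1
    refine ⟨B, iB, jB, S, kS, c, (blk R).trans e, h1, ?_, ?_, ?_⟩
    · intro x
      show e (blk R (sft R x)) = _
      rw [blk_sft, h2]
      rfl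
    · intro x
      show two c (e (blk R x)) = _
      rw [h3, Equiv.symm_apply_apply]
    · rw [h4, det_R2]

/-- Normal form. -/
theorem normal_form {A : Type} [Fintype A] [DecidableEq A] {R : A → A → Prop} [DecidableRel R]
    (hirr : Irr R) {D : ℕ} {f : Om R → ℤ} (hf : Dep D f)
    (hfin : ∀ k, 0 < k → {ω : Orb (sft R) | wt (sft R) f ω = k}.Finite)
    (hne : ∃ ω : Orb (sft R), wt (sft R) f ω ≠ 0) :
    ∃ (B : Type) (_ : Fintype B) (_ : DecidableEq B) (S : B → B → Prop) (_ : DecidableRel S)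
      (c : B → B → ℕ) (e : Orb (sft R) ≃ Orb (sft S)), Pos S (two (cz c)) ∧
      (∀ ω, wt (sft S) (two (cz c)) (e ω) = wt (sft R) f ω) ∧
      (1 - Rmat S).det = (1 - Rmat R).det := by
  have hf' : Dep (D + 2) f := fun x y h => hf x y fun i hi => h i (by omega)
  obtain ⟨B, iB, jB, S, kS, c, e, h1, h2, h3, h4⟩ := recode D A R hirr f hf'
  have hw : ∀ ω, wt (sft S) (two c) (orbEquiv e h2 ω) = wt (sft R) f ω := fun ω =>
    conj_wt e h2 h3 ω
  have hfin' : ∀ k, 0 < k → {ω : Orb (sft S) | wt (sft S) (two c) ω = k}.Finite := by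
    intro k hk
    have h5 : {ω : Orb (sft S) | wt (sft S) (two c) ω = k}
        = (orbEquiv e h2) '' {ω : Orb (sft R) | wt (sft R) f ω = k} := by
      ext ω
      constructor
      · intro hω
        refine ⟨(orbEquiv e h2).symm ω, ?_, (orbEquiv e h2).apply_symm_apply ω⟩
        show wt (sft R) f ((orbEquiv e h2).symm ω) = k
        rw [← hw, (orbEquiv e h2).apply_symm_apply]
        exact hω
      · rintro ⟨ω', hω', rfl⟩
        show wt (sft S) (two c) (orbEquiv e h2 ω') = k
        rw [hw]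
        exact hω'
    rw [h5]
    exact (hfin k hk).image _
  have hne' : ∃ ω : Orb (sft S), wt (sft S) (two c) ω ≠ 0 := by
    obtain ⟨ω, hω⟩ := hne
    exact ⟨orbEquiv e h2 ω, by rw [hw]; exact hω⟩
  rcases pos_or_neg h1 hfin' hne' with hp | hp
  · obtain ⟨d, hd, hdw⟩ := exists_nat h1 hp
    exact ⟨B, iB, jB, S, kS, d, orbEquiv e h2, hd, fun ω => by rw [hdw, hw], h4⟩
  · have hneg : (fun x : Om S => - two c x) = two (fun a b => - c a b) := rfl
    have hp' : Pos S (two fun a b => - c a b) := hp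
    obtain ⟨d, hd, hdw⟩ := exists_nat h1 hp'
    refine ⟨B, iB, jB, S, kS, d, orbEquiv e h2, hd, fun ω => ?_, h4⟩
    rw [hdw, ← hneg, wt_neg, hw]

/-- **Main theorem on Markov shifts.** -/
theorem main_dyn {A B : Type} [Fintype A] [DecidableEq A] [Fintype B] [DecidableEq B]
    {R : A → A → Prop} [DecidableRel R] {S : B → B → Prop} [DecidableRel S]
    (hR : Irr R) (hS : Irr S) {D D' : ℕ} {f : Om R → ℤ} {g : Om S → ℤ} (hf : Dep D f)
    (hg : Dep D' g) (e : Orb (sft R) ≃ Orb (sft S))
    (he : ∀ ω, wt (sft S) g (e ω) = wt (sft R) f ω)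
    (hfin : ∀ k, 0 < k → {ω : Orb (sft R) | wt (sft R) f ω = k}.Finite)
    (hne : ∃ ω : Orb (sft R), wt (sft R) f ω ≠ 0) :
    (1 - Rmat R).det = (1 - Rmat S).det := by
  have hfin' : ∀ k, 0 < k → {ω : Orb (sft S) | wt (sft S) g ω = k}.Finite := by
    intro k hk
    have h5 : {ω : Orb (sft S) | wt (sft S) g ω = k} = e '' {ω : Orb (sft R) | wt (sft R) f ω = k} := by
      ext ω
      constructor
      · intro hω
        refine ⟨e.symm ω, ?_, e.apply_symm_apply ω⟩
        show wt (sft R) f (e.symm ω) = k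
        rw [← he, e.apply_symm_apply]
        exact hω
      · rintro ⟨ω', hω', rfl⟩
        show wt (sft S) g (e ω') = k
        rw [he]
        exact hω'
    rw [h5]
    exact (hfin k hk).image _
  have hne' : ∃ ω : Orb (sft S), wt (sft S) g ω ≠ 0 := by
    obtain ⟨ω, hω⟩ := hne
    exact ⟨e ω, by rw [he]; exact hω⟩
  obtain ⟨A', iA, jA, R', kR, c, e₁, hp₁, hw₁, hd₁⟩ := normal_form hR hf hfin hne
  obtain ⟨B', iB, jB, S', kS, d, e₂, hp₂, hw₂, hd₂⟩ := normal_form hS hg hfin' hne'
  rw [← hd₁, ← hd₂]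
  apply det_eq hp₁ hp₂ ((e₁.symm.trans e).trans e₂)
  intro ω
  show wt (sft S') (two (cz d)) (e₂ (e (e₁.symm ω))) = _
  rw [hw₂, he, ← hw₁, e₁.apply_symm_apply]

/-- For the constant function `1` there are finitely many orbits of each weight. -/
theorem finite_one {A : Type} [Finite A] {R : A → A → Prop} (k : ℕ) (hk : 0 < k) :
    {ω : Orb (sft R) | wt (sft R) (fun _ => (1 : ℤ)) ω = k}.Finite := by
  apply ((fix_finite (R := R) hk).image (orb (sft R))).subset
  intro ω hω
  have hω' : wt (sft R) (fun _ => (1 : ℤ)) ω = k := hω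
  obtain ⟨x, rfl, hx⟩ := exists_of_wt_ne_zero _ (by rw [hω']; omega : wt (sft R) (fun _ => (1 : ℤ)) ω ≠ 0)
  rw [wt_orb _ hx] at hω'
  have h1 : ell (σ := sft R) (fun _ => (1 : ℤ)) x = minimalPeriod (sft R) x := by
    unfold ell birkhoffSum
    simp
  rw [h1, Int.natAbs_natCast] at hω'
  refine ⟨x, ?_, rfl⟩
  show IsPeriodicPt (sft R) k x
  rw [← hω']
  exact isPeriodicPt_minimalPeriod _ _

/-- For the constant function `1` some orbit has nonzero weight. -/
theorem exists_one {A : Type} [Nonempty A] {R : A → A → Prop} (hR : Irr R) :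
    ∃ ω : Orb (sft R), wt (sft R) (fun _ => (1 : ℤ)) ω ≠ 0 := by
  obtain ⟨a⟩ := ‹Nonempty A›
  obtain ⟨n, hn, w, hw⟩ := exists_walk (c := fun _ _ => (1 : ℤ)) (hR a a)
  obtain ⟨x, hx, -⟩ := hw.exists_pt hn
  have hxp : x ∈ periodicPts (sft R) := ⟨n, hn, hx⟩
  refine ⟨orb _ x, ?_⟩
  rw [wt_orb _ hxp]
  have h1 : ell (σ := sft R) (fun _ => (1 : ℤ)) x = minimalPeriod (sft R) x := by
    unfold ell birkhoffSum
    simp
  rw [h1, Int.natAbs_natCast]
  exact (minimalPeriod_pos_of_mem_periodicPts hxp).ne'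

end Pool.Agent.V1161.PS
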