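import Pool.Agent.V1161.PS.Dyn

/-!
# Invariant functions of skew products over a tail orbit
-/

namespace Pool.Agent.V1161.PS

open Function

variable {X : Type*} (σ : X → X) (f : X → ℤ) (ω : Orb σ)

/-- The part of the skew product over a tail orbit. -/
abbrev Yo : Type _ := {x : X // orb σ x = ω} × ℤ

/-- The skew product map. -/
def sk : Yo σ ω → Yo σ ω := fun p => (⟨σ p.1.1, by rw [orb_apply, p.1.2]⟩, p.2 + f p.1.1)

variable {σ} {ω}

theorem sk_iterate (i : ℕ) (p : Yo σ ω) :
    (sk σ f ω)^[i] p = (⟨σ^[i] p.1.1, by rw [orb_iterate, p.1.2]⟩, p.2 + birkhoffSum σ f i p.1.1) := by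
  induction i with
  | zero => simp
  | succ i ih =>
    rw [iterate_succ_apply', ih]
    unfold sk
    ext
    · show σ (σ^[i] p.1.1) = σ^[i + 1] p.1.1
      rw [iterate_succ_apply']
    · show p.2 + birkhoffSum σ f i p.1.1 + f (σ^[i] p.1.1) = p.2 + birkhoffSum σ f (i + 1) p.1.1
      rw [birkhoffSum_succ, add_assoc]

/-- Invariant functions are functions on the orbit set. -/
def invEquiv {Y : Type*} (s : Y → Y) (B : Type*) :
    {β : Y → B // ∀ p, β (s p) = β p} ≃ (Orb s → B) where
  toFun β := fun o => Quotient.lift β.1 (by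
    rintro a b ⟨i, j, h⟩
    have key : ∀ (i : ℕ) (a : Y), β.1 (s^[i] a) = β.1 a := by
      intro i
      induction i with
      | zero => intro a; rfl
      | succ i ih => intro a; rw [iterate_succ_apply, ih, β.2]
    rw [← key i a, h, key]) o
  invFun g := ⟨fun y => g (orb s y), fun p => congrArg g (orb_apply p)⟩
  left_inv β := rfl
  right_inv g := by
    funext o
    induction o using Quotient.ind
    rfl

theorem birkhoff_div (x : X) (i : ℕ) :
    birkhoffSum σ f i x = (i / minimalPeriod σ x : ℕ) * ell (σ := σ) f x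
      + birkhoffSum σ f (i % minimalPeriod σ x) x := by
  conv_lhs => rw [← Nat.div_add_mod i (minimalPeriod σ x), mul_comm (minimalPeriod σ x)]
  rw [birkhoffSum_add, birkhoff_mul]
  congr 2
  exact (isPeriodicPt_minimalPeriod σ x).const_mul _

theorem orb_sk_eq (x : X) (hx : orb σ x = ω) (n n' : ℤ) :
    orb (sk σ f ω) (⟨x, hx⟩, n) = orb (sk σ f ω) (⟨x, hx⟩, n') ↔
      ∃ i j, σ^[i] x = σ^[j] x ∧ n + birkhoffSum σ f i x = n' + birkhoffSum σ f j x := by
  rw [orb_eq]
  constructor
  · rintro ⟨i, j, h⟩
    rw [sk_iterate, sk_iterate] at h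
    exact ⟨i, j, congrArg (fun p : Yo σ ω => p.1.1) h, congrArg (fun p : Yo σ ω => p.2) h⟩
  · rintro ⟨i, j, h1, h2⟩
    refine ⟨i, j, ?_⟩
    rw [sk_iterate, sk_iterate]
    ext
    · exact h1
    · exact h2

theorem orb_sk_surj (x : X) (hx : orb σ x = ω) (o : Orb (sk σ f ω)) :
    ∃ n : ℤ, orb (sk σ f ω) (⟨x, hx⟩, n) = o := by
  induction o using Quotient.ind with
  | _ p =>
  obtain ⟨⟨y, hy⟩, m⟩ := p
  obtain ⟨i, j, h⟩ := orb_eq.1 (hy.trans hx.symm)
  refine ⟨m + birkhoffSum σ f i y - birkhoffSum σ f j x, ?_⟩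
  apply orb_eq.2
  refine ⟨j, i, ?_⟩
  rw [sk_iterate, sk_iterate]
  ext
  · exact h.symm
  · show m + birkhoffSum σ f i y - birkhoffSum σ f j x + birkhoffSum σ f j x
      = m + birkhoffSum σ f i y
    ring

theorem card_orb_sk : Nat.card (Orb (sk σ f ω)) = wt σ f ω := by
  by_cases hp : ∃ x, orb σ x = ω ∧ x ∈ periodicPts σ
  · obtain ⟨x, hx, hxp⟩ := hp
    have hw : wt σ f ω = (ell (σ := σ) f x).natAbs := by rw [← hx, wt_orb f hxp]
    rw [hw]
    have key : ∀ n n' : ℤ, orb (sk σ f ω) (⟨x, hx⟩, n) = orb (sk σ f ω) (⟨x, hx⟩, n') ↔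
        -n + n' ∈ AddSubgroup.zmultiples (ell (σ := σ) f x) := by
      intro n n'
      rw [orb_sk_eq, AddSubgroup.mem_zmultiples_iff]
      constructor
      · rintro ⟨i, j, h1, h2⟩
        have h3 : i % minimalPeriod σ x = j % minimalPeriod σ x := by
          have hq := minimalPeriod_pos_of_mem_periodicPts hxp
          rw [← iterate_mod_minimalPeriod_eq (n := i), ← iterate_mod_minimalPeriod_eq (n := j)] at h1
          exact (iterate_eq_iterate_iff_of_lt_minimalPeriod (Nat.mod_lt _ hq) (Nat.mod_lt _ hq)).1 h1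
        rw [birkhoff_div f x i, birkhoff_div f x j, h3] at h2
        refine ⟨((i / minimalPeriod σ x : ℕ) : ℤ) - (j / minimalPeriod σ x : ℕ), ?_⟩
        rw [smul_eq_mul]
        linarith
      · rintro ⟨k, hk⟩
        rw [smul_eq_mul] at hk
        rcases le_total 0 k with h0 | h0
        · obtain ⟨k', rfl⟩ := Int.eq_ofNat_of_zero_le h0
          refine ⟨k' * minimalPeriod σ x, 0, ?_, ?_⟩
          · exact (isPeriodicPt_minimalPeriod σ x).const_mul k'
          · rw [birkhoff_mul, birkhoffSum_zero]
            linarith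
        · obtain ⟨k', hk'⟩ := Int.eq_ofNat_of_zero_le (neg_nonneg.2 h0)
          refine ⟨0, k' * minimalPeriod σ x, ?_, ?_⟩
          · exact ((isPeriodicPt_minimalPeriod σ x).const_mul k').symm
          · rw [birkhoff_mul, birkhoffSum_zero, ← hk']
            linarith
    have e : (ℤ ⧸ AddSubgroup.zmultiples (ell (σ := σ) f x)) ≃ Orb (sk σ f ω) := by
      refine Equiv.ofBijective (Quotient.lift (fun n : ℤ => orb (sk σ f ω) (⟨x, hx⟩, n)) ?_) ⟨?_, ?_⟩
      · intro n n' h
        exact (key n n').2 (QuotientAddGroup.leftRel_apply.1 h)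
      · intro a b
        induction a using Quotient.ind
        induction b using Quotient.ind
        intro h
        exact Quotient.sound (QuotientAddGroup.leftRel_apply.2 ((key _ _).1 h))
      · intro o
        obtain ⟨n, hn⟩ := orb_sk_surj f x hx o
        exact ⟨Quotient.mk _ n, hn⟩
    rw [← Nat.card_congr e, ← Int.index_zmultiples]
    rfl
  · rw [wt_of_not f hp]
    induction ω using Quotient.ind with
    | _ x =>
    have hinj : Function.Injective (fun n : ℤ => orb (sk σ f (Quotient.mk (tail σ) x)) (⟨x, rfl⟩, n)) := by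
      intro n n' h
      obtain ⟨i, j, h1, h2⟩ := (orb_sk_eq f x rfl n n').1 h
      have hij : i = j := by
        by_contra hne
        rcases lt_or_gt_of_ne hne with h3 | h3
        · apply hp
          refine ⟨σ^[i] x, orb_iterate x i, j - i, by omega, ?_⟩
          show σ^[j - i] (σ^[i] x) = σ^[i] x
          rw [← iterate_add_apply, Nat.sub_add_cancel h3.le, h1]
        · apply hp
          refine ⟨σ^[j] x, orb_iterate x j, i - j, by omega, ?_⟩
          show σ^[i - j] (σ^[j] x) = σ^[j] x
          rw [← iterate_add_apply, Nat.sub_add_cancel (le_of_lt h3), h1]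
      subst hij
      linarith
    have : Infinite (Orb (sk σ f (Quotient.mk (tail σ) x))) := Infinite.of_injective _ hinj
    exact Nat.card_eq_zero_of_infinite

/-- The number of functions to `Bool` determines the (finite) cardinality. -/
theorem card_bool {A B : Type} (h : Nat.card (A → Bool) = Nat.card (B → Bool)) :
    Nat.card A = Nat.card B := by
  have key : ∀ C : Type, Finite C → Nat.card (C → Bool) = 2 ^ Nat.card C := by
    intro C hC
    rw [Nat.card_fun, Nat.card_eq_fintype_card (α := Bool), Fintype.card_bool]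
  have key2 : ∀ C : Type, Infinite C → Nat.card (C → Bool) = 0 := by
    intro C hC
    have : Infinite (C → Bool) := by
      classical
      exact Infinite.of_injective (fun c : C => fun d => decide (d = c)) (fun c c' hcc => by
        have := congrFun hcc c
        simpa using this)
    exact Nat.card_eq_zero_of_infinite
  rcases finite_or_infinite A with hA | hA
  · rcases finite_or_infinite B with hB | hB
    · rw [key A hA, key B hB] at h
      exact Nat.pow_right_injective le_rfl h
    · rw [key A hA, key2 B hB] at h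
      exact absurd h (by positivity)
  · rcases finite_or_infinite B with hB | hB
    · rw [key2 A hA, key B hB] at h
      exact absurd h.symm (by positivity)
    · rw [Nat.card_eq_zero_of_infinite, Nat.card_eq_zero_of_infinite]

end Pool.Agent.V1161.PS
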