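import Pool.Agent.V1161.PS.Torsor
import Pool.Agent.V1161.PS.Skew
import Pool.Agent.V1161.PS.Recode

/-!
# The cocycle of an integer torsor
-/

namespace Pool.Agent.V1161.PS

open CategoryTheory CategoryTheory.Limits Function

variable {V : Type} {E : V → V → Type} {T : ShD E} (L : LT T)

/-- `t' = n + t` near the path `x`. -/
inductive Germ : ∀ v, Xp E v → T.M v → T.M v → ℤ → Prop
  | base (v : V) (x : Xp E v) (t : T.M v) (n : ℤ) : Germ v x t (L.τ n v t) n
  | step (u v : V) (e : E u v) (y : Xp E u) (x : Xp E v) (hx : x = cons e y) (t t' : T.M v) (n : ℤ)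
      (h : Germ u y (T.res e t) (T.res e t') n) : Germ v x t t' n

variable {L}

theorem germ_exists {v : V} {t t' : T.M v} (h : Near T L.τ v t t') :
    ∀ x : Xp E v, ∃ n, Germ L v x t t' n := by
  induction h with
  | base v t n => exact fun x => ⟨n, Germ.base v x t n⟩
  | step v t t' _ ih =>
    intro x
    obtain ⟨u, e, y, rfl⟩ := exists_cons x
    obtain ⟨n, hn⟩ := ih u e y
    exact ⟨n, Germ.step u v e y _ rfl t t' n hn⟩

theorem Germ.restr {v : V} {x : Xp E v} {t t' : T.M v} {n : ℤ} (h : Germ L v x t t' n) {u : V}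
    (e : E u v) (y : Xp E u) (hx : x = cons e y) : Germ L u y (T.res e t) (T.res e t') n := by
  cases h with
  | base _ _ _ n =>
    rw [← L.nat]
    exact Germ.base u y _ n
  | step u' _ e' y' _ hx' _ _ _ h =>
    have h2 := cons_inj (hx'.symm.trans hx)
    have hu : u' = u := congrArg (fun z : (Σ u, E u v × Xp E u) => z.1) h2
    subst hu
    have h3 := eq_of_heq (Sigma.mk.inj_iff.1 h2).2
    have he : e' = e := congrArg Prod.fst h3
    have hy : y' = y := congrArg Prod.snd h3
    rw [← he, ← hy]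
    exact h

theorem Germ.base' {v : V} {x : Xp E v} {t t' : T.M v} {n : ℤ} (h : Germ L v x t t' n) :
    ∀ m, t' = L.τ m v t → n = m := by
  induction h with
  | base v x t n => exact fun m hm => L.inj n m v t hm
  | step u v e y x hx t t' n _ ih =>
    intro m hm
    exact ih m (by rw [hm, L.nat])

theorem Germ.unique {v : V} {x : Xp E v} {t t' : T.M v} {n : ℤ} (h : Germ L v x t t' n) :
    ∀ m, Germ L v x t t' m → n = m := by
  induction h with
  | base v x t n => exact fun m hm => (hm.base' n rfl).symm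
  | step u v e y x hx t t' n _ ih =>
    intro m hm
    exact ih m (hm.restr e y hx)

theorem Germ.add {v : V} {x : Xp E v} {t t' : T.M v} {n : ℤ} (h : Germ L v x t t' n) :
    ∀ (t'' : T.M v) (m : ℤ), Germ L v x t' t'' m → Germ L v x t t'' (n + m) := by
  induction h with
  | base v x t n =>
    intro t'' m h'
    -- induct on the second germ
    have key : ∀ {v : V} {x : Xp E v} {s t'' : T.M v} {m : ℤ}, Germ L v x s t'' m →
        ∀ t, s = L.τ n v t → Germ L v x t t'' (n + m) := by
      intro v x s t'' m h'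
      induction h' with
      | base v x s m =>
        rintro t rfl
        rw [← L.add, add_comm m n]
        exact Germ.base v x t (n + m)
      | step u v e y x hx s t'' m _ ih =>
        rintro t rfl
        exact Germ.step u v e y x hx t t'' _ (ih _ (L.nat n e t).symm)
    exact key h' t rfl
  | step u v e y x hx t t' n _ ih =>
    intro t'' m h'
    exact Germ.step u v e y x hx t t'' _ (ih _ m (h'.restr e y hx))

variable (L)

/-- The difference of two sections near a path. -/
noncomputable def nu {v : V} (x : Xp E v) (t t' : T.M v) : ℤ :=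
  (germ_exists (L.near v t t') x).choose

theorem nu_germ {v : V} (x : Xp E v) (t t' : T.M v) : Germ L v x t t' (nu L x t t') :=
  (germ_exists (L.near v t t') x).choose_spec

theorem nu_eq {v : V} {x : Xp E v} {t t' : T.M v} {n : ℤ} (h : Germ L v x t t' n) :
    nu L x t t' = n := (nu_germ L x t t').unique n h

theorem nu_cons {u v : V} (e : E u v) (y : Xp E u) (t t' : T.M v) :
    nu L (cons e y) t t' = nu L y (T.res e t) (T.res e t') :=
  (nu_eq L ((nu_germ L (cons e y) t t').restr e y rfl)).symm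

theorem nu_add {v : V} (x : Xp E v) (t t' t'' : T.M v) :
    nu L x t t'' = nu L x t t' + nu L x t' t'' :=
  nu_eq L ((nu_germ L x t t').add _ _ (nu_germ L x t' t''))

theorem nu_tau {v : V} (x : Xp E v) (t : T.M v) (n : ℤ) : nu L x t (L.τ n v t) = n :=
  nu_eq L (Germ.base v x t n)

theorem nu_self {v : V} (x : Xp E v) (t : T.M v) : nu L x t t = 0 := by
  have := nu_tau L x t 0
  rwa [L.zero] at this

theorem nu_tau_tau {v : V} (x : Xp E v) (t t' : T.M v) (m n : ℤ) :
    nu L x (L.τ m v t) (L.τ n v t') = n - m + nu L x t t' := by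
  have h1 := nu_add L x t (L.τ m v t) (L.τ n v t')
  have h2 := nu_add L x t t' (L.τ n v t')
  rw [nu_tau] at h1 h2
  linarith

theorem nu_depth [Finite V] [∀ u v, Finite (E u v)] {v : V} (t t' : T.M v) :
    ∃ D, ∀ x x' : Xp E v, (∀ i < D, x.1.1 i = x'.1.1 i) → nu L x t t' = nu L x' t t' := by
  have key : ∀ {v : V} {t t' : T.M v}, Near T L.τ v t t' →
      ∃ D, ∀ x x' : Xp E v, (∀ i < D, x.1.1 i = x'.1.1 i) → nu L x t t' = nu L x' t t' := by
    intro v t t' h
    induction h with
    | base v t n => exact ⟨0, fun x x' _ => by rw [nu_tau, nu_tau]⟩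
    | step v t t' _ ih =>
      choose D hD using ih
      have hfin : (Set.range (fun p : (Σ u, E u v) => D p.1 p.2)).Finite := Set.finite_range _
      obtain ⟨B, hB⟩ := hfin.bddAbove
      refine ⟨B + 1, fun x x' hxx' => ?_⟩
      obtain ⟨u, e, y, rfl⟩ := exists_cons x
      obtain ⟨u', e', y', rfl⟩ := exists_cons x'
      have h0 : (⟨u, v, e⟩ : Et E) = ⟨u', v, e'⟩ := hxx' 0 (Nat.succ_pos B)
      have hu : u = u' := congrArg (fun z : Et E => z.1) h0
      subst hu
      have he : e = e' := by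
        have h1 := eq_of_heq (Sigma.mk.inj_iff.1 h0).2
        exact eq_of_heq (Sigma.mk.inj_iff.1 h1).2
      subst he
      rw [nu_cons, nu_cons]
      apply hD u e
      intro i hi
      have hle : D u e ≤ B := hB ⟨⟨u, e⟩, rfl⟩
      exact hxx' (i + 1) (by omega)
  exact key (L.near v t t')

variable (b : ∀ v, T.M v)

/-- The cocycle of a torsor with respect to a family of sections. -/
noncomputable def coc (x : Om (RE E)) : ℤ :=
  nu L (⟨sft (RE E) x, x.2 0⟩ : Xp E (x.1 0).1) (b (x.1 0).1) (T.res (x.1 0).2.2 (b (x.1 0).2.1))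

theorem coc_cons {u v : V} (e : E u v) (y : Xp E u) :
    coc L b (cons e y).1 = nu L y (b u) (T.res e (b v)) := rfl

theorem coc_dep [Finite V] [∀ u v, Finite (E u v)] : ∃ D, Dep D (coc L b) := by
  choose D hD using fun p : Et E => nu_depth L (v := p.1) (b p.1) (T.res p.2.2 (b p.2.1))
  have hfin : (Set.range D).Finite := Set.finite_range _
  obtain ⟨B, hB⟩ := hfin.bddAbove
  refine ⟨B + 1, fun x x' hxx' => ?_⟩
  have hx : x = (toXp x).1 := rfl
  have hx' : x' = (toXp x').1 := rfl
  obtain ⟨u, e, y, hy⟩ := exists_cons (toXp x)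
  obtain ⟨u', e', y', hy'⟩ := exists_cons (toXp x')
  have hxy : x = (cons e y).1 := congrArg Subtype.val hy
  have hxy' : x' = (cons e' y').1 := congrArg Subtype.val hy'
  clear hy hy' hx hx'
  generalize (x.1 0).2.1 = v at *
  generalize (x'.1 0).2.1 = v' at *
  subst hxy
  subst hxy'
  have h0 : (⟨u, v, e⟩ : Et E) = ⟨u', v', e'⟩ := hxx' 0 (Nat.succ_pos B)
  have hu : u = u' := congrArg (fun z : Et E => z.1) h0
  subst hu
  have h1 := eq_of_heq (Sigma.mk.inj_iff.1 h0).2
  have hv : v = v' := congrArg (fun z : (Σ v, E u v) => z.1) h1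
  subst hv
  have he : e = e' := eq_of_heq (Sigma.mk.inj_iff.1 h1).2
  subst he
  rw [coc_cons, coc_cons]
  apply hD ⟨u, v, e⟩
  intro i hi
  have hle : D ⟨u, v, e⟩ ≤ B := hB ⟨_, rfl⟩
  exact hxx' (i + 1) (by omega)

section Count

variable (ω : Orb (sft (RE E)))

theorem germ_zero {S : PtD E} (α : ofPt S ⟶ ofSh T) {v : V} {x : Xp E v} {t t' : T.M v} {n : ℤ}
    (h : Germ L v x t t' n) : n = 0 → ∀ z : S.S v, S.anc v z = x → ps α v t z = ps α v t' z := by
  induction h with
  | base v x t n =>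
    rintro rfl z _
    rw [L.zero]
  | step u v e y x hx t t' n _ ih =>
    intro hn z hz
    obtain ⟨u', e', z', rfl⟩ := S.surj z
    rw [S.anc_map] at hz
    have h2 := cons_inj (hz.trans hx)
    have hu : u' = u := congrArg (fun z : (Σ u, E u v × Xp E u) => z.1) h2
    subst hu
    have h3 := eq_of_heq (Sigma.mk.inj_iff.1 h2).2
    have he : e' = e := congrArg Prod.fst h3
    have hy : S.anc u' z' = y := congrArg Prod.snd h3
    subst he
    rw [ps_nat, ps_nat]
    exact ih hn z' hy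

theorem anc_Eo {v : V} (z : (Eo E ω).S v) : (Eo E ω).anc v z = z.1 :=
  unique_anc (Eo E ω) (fun v => (Eo E ω).anc v) (fun v z => z.1)
    (fun e y => (Eo E ω).anc_map e y) (fun _ _ => rfl) v z

theorem germ_zero' (α : ofPt (Eo E ω) ⟶ ofSh T) {v : V} {t t' : T.M v} (z : (Eo E ω).S v)
    (h : nu L z.1 t t' = 0) : ps α v t z = ps α v t' z := by
  have := nu_germ L z.1 t t'
  exact germ_zero L α this h z (anc_Eo ω z)

/-- Morphisms from an orbit diagram to a torsor are the invariant functions of the skew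
product. -/
noncomputable def homEquiv : (ofPt (Eo E ω) ⟶ ofSh T) ≃
    {β : Yo (sft (RE E)) ω → Bool // ∀ p, β (sk (sft (RE E)) (coc L b) ω p) = β p} where
  toFun α := ⟨fun p => ps α (p.1.1.1 0).2.1 (L.τ p.2 _ (b _)) ⟨toXp p.1.1, p.1.2⟩, by
    rintro ⟨⟨x, hx⟩, n⟩
    -- write the point as a prolonged path
    have key : ∀ (u v : V) (e : E u v) (y : Xp E u) (hy : xorb (cons e y) = ω)
        (hy' : xorb y = ω),
        ps α u (L.τ (n + coc L b (cons e y).1) u (b u)) ⟨y, hy'⟩
          = ps α v (L.τ n v (b v)) ⟨cons e y, hy⟩ := by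
      intro u v e y hy hy'
      have h1 : (⟨cons e y, hy⟩ : (Eo E ω).S v) = (Eo E ω).map e ⟨y, hy'⟩ := rfl
      rw [h1, ps_nat, ← L.nat]
      apply germ_zero' L ω α
      rw [nu_tau_tau, coc_cons]
      ring
    have h2 := key (x.1 0).1 (x.1 0).2.1 (x.1 0).2.2 ⟨sft (RE E) x, x.2 0⟩
    have h3 : cons (x.1 0).2.2 (⟨sft (RE E) x, x.2 0⟩ : Xp E (x.1 0).1) = toXp x := by
      apply Xp_ext
      intro i
      cases i <;> rfl
    rw [h3] at h2
    have h4 : xorb (toXp x) = ω := hx
    have h5 : xorb (⟨sft (RE E) x, x.2 0⟩ : Xp E (x.1 0).1) = ω := by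
      rw [← h4, ← h3, xorb_cons]
    have h6 := h2 h4 h5
    have h7 : (⟨_, (⟨sft (RE E) x, x.2 0⟩ : Xp E (x.1 0).1)⟩ : Σ v, Xp E v)
        = ⟨_, toXp (sft (RE E) x)⟩ := toXp_eq _
    -- transport along `h7`
    have key2 : ∀ (q q' : Σ v, Xp E v) (hq : xorb q.2 = ω) (hq' : xorb q'.2 = ω), q = q' →
        ∀ m : ℤ, ps α q.1 (L.τ m _ (b _)) ⟨q.2, hq⟩ = ps α q'.1 (L.τ m _ (b _)) ⟨q'.2, hq'⟩ := by
      rintro q q' hq hq' rfl m
      rfl
    exact (key2 ⟨_, toXp (sft (RE E) x)⟩ ⟨_, (⟨sft (RE E) x, x.2 0⟩ : Xp E (x.1 0).1)⟩ _ h5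
      h7.symm _).trans h6⟩
  invFun β := mkPS (fun v t z => β.1 (⟨z.1.1, z.2⟩, nu L z.1 (b v) t)) (fun {u v} e t y => by
    have h1 := β.2 (⟨(cons e y.1).1, (by
      show xorb (cons e y.1) = ω
      rw [xorb_cons]; exact y.2)⟩, nu L (cons e y.1) (b v) t)
    have h2 : sk (sft (RE E)) (coc L b) ω (⟨(cons e y.1).1, (by
        show xorb (cons e y.1) = ω
        rw [xorb_cons]; exact y.2)⟩, nu L (cons e y.1) (b v) t)
        = (⟨y.1.1, y.2⟩, nu L y.1 (b u) (T.res e t)) := by
      have h3 : nu L (cons e y.1) (b v) t + coc L b (cons e y.1).1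
          = nu L y.1 (b u) (T.res e t) := by
        rw [nu_cons, coc_cons, nu_add L y.1 (b u) (T.res e (b v)) (T.res e t)]
        ring
      exact Prod.ext (Subtype.ext (sft_cons e y.1)) h3
    rw [h2] at h1
    exact h1.symm)
  left_inv α := by
    refine ps_ext fun v t z => ?_
    obtain ⟨⟨x, rfl⟩, hz⟩ := z
    show ps α (x.1 0).2.1 (L.τ (nu L (toXp x) (b _) t) _ (b _)) ⟨toXp x, hz⟩ = ps α _ t ⟨toXp x, hz⟩
    apply germ_zero' L ω α
    have h1 := nu_add L (toXp x) (b _) (L.τ (nu L (toXp x) (b _) t) _ (b _)) t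
    rw [nu_tau] at h1
    linarith
  right_inv β := by
    apply Subtype.ext
    funext p
    obtain ⟨⟨x, hx⟩, n⟩ := p
    show β.1 (⟨x, hx⟩, nu L (toXp x) (b _) (L.τ n _ (b _))) = β.1 (⟨x, hx⟩, n)
    rw [nu_tau]

theorem card_hom : Nat.card (ofPt (Eo E ω) ⟶ ofSh T)
    = Nat.card (Orb (sk (sft (RE E)) (coc L b) ω) → Bool) :=
  Nat.card_congr ((homEquiv L b ω).trans (invEquiv _ _))

end Count

end Pool.Agent.V1161.PS
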