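import Mathlib

/-!
# Directed graphs, diagrams satisfying the coproduct condition, the Parry-Sullivan number
-/

namespace Pool.Agent.V1161.PS

open CategoryTheory CategoryTheory.Limits

/-- A directed graph: vertices, edges, source and target maps. -/
structure Graph where
  /-- vertices -/
  V : Type
  /-- edges -/
  E : Type
  /-- source -/
  s : E → V
  /-- target -/
  t : E → V

/-- Every vertex can be reached from every vertex by a directed path (paths of length zero are
allowed). -/
def Graph.Irreducible (G : Graph) : Prop :=
  ∀ u v : G.V, Relation.ReflTransGen (fun a b => ∃ e : G.E, G.s e = a ∧ G.t e = b) u v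

/-- The adjacency matrix: number of edges from `u` to `v`. -/
noncomputable def Graph.adj (G : Graph) : Matrix G.V G.V ℤ :=
  Matrix.of fun u v => (Nat.card {e : G.E // G.s e = u ∧ G.t e = v} : ℤ)

open Classical in
/-- The Parry-Sullivan number `det (I - A)`. -/
noncomputable def Graph.parrySullivan (G : Graph) [Fintype G.V] : ℤ := (1 - G.adj).det

/-- A diagram in `C` of shape `G` satisfying the coproduct condition. -/
structure Diagram (C : Type*) [Category C] (G : Graph) where
  /-- the objects -/
  obj : G.V → C
  /-- the morphisms -/
  map : ∀ e : G.E, obj (G.s e) ⟶ obj (G.t e)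
  /-- at every vertex `v` which is not a source, the morphisms of the edges with target `v` make
  `obj v` a coproduct of the objects at their sources -/
  coprod : ∀ v : G.V, (∃ e, G.t e = v) →
    Nonempty (IsColimit (Cofan.mk (f := fun e : {e : G.E // G.t e = v} => obj (G.s e.1)) (obj v)
      (fun e => map e.1 ≫ eqToHom (congrArg obj e.2))))

/-- Morphisms of diagrams. -/
@[ext]
structure Diagram.Hom {C : Type*} [Category C] {G : Graph} (D D' : Diagram C G) where
  /-- the components -/
  app : ∀ v, D.obj v ⟶ D'.obj v
  /-- naturality -/
  comm : ∀ e : G.E, D.map e ≫ app (G.t e) = app (G.s e) ≫ D'.map e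

instance {C : Type*} [Category C] {G : Graph} : Category (Diagram C G) where
  Hom := Diagram.Hom
  id D := ⟨fun _ => 𝟙 _, fun e => by rw [Category.comp_id, Category.id_comp]⟩
  comp f g := ⟨fun v => f.app v ≫ g.app v, fun e => by
    rw [← Category.assoc, f.comm, Category.assoc, g.comm, Category.assoc]⟩
  id_comp f := Diagram.Hom.ext (funext fun v => Category.id_comp _)
  comp_id f := Diagram.Hom.ext (funext fun v => Category.comp_id _)
  assoc f g h := Diagram.Hom.ext (funext fun v => Category.assoc _ _ _)

end Pool.Agent.V1161.PS
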