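import Mathlib

/-!
# Jacobi's formula for derivations, and the truncated trace formula
-/

namespace Pool.Agent.V1161.PS

open Matrix Polynomial

section Jacobi

variable {R S : Type*} [CommRing R] [CommRing S] [Algebra R S] (D : Derivation R S S)

theorem deriv_prod {ι : Type*} [DecidableEq ι] (s : Finset ι) (f : ι → S) :
    D (∏ i ∈ s, f i) = ∑ i ∈ s, (∏ j ∈ s.erase i, f j) * D (f i) := by
  induction s using Finset.induction_on with
  | empty => simp
  | insert a s ha ih =>
    rw [Finset.prod_insert ha, Derivation.leibniz, ih, Finset.sum_insert ha,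
      Finset.erase_insert ha, smul_eq_mul, smul_eq_mul, Finset.mul_sum, add_comm]
    congr 1
    refine Finset.sum_congr rfl fun i hi => ?_
    have hne : i ≠ a := fun h => ha (h ▸ hi)
    rw [Finset.erase_insert_of_ne hne.symm, Finset.prod_insert (fun h => ha (Finset.mem_of_mem_erase h))]
    ring

variable {n : Type*} [Fintype n] [DecidableEq n]

theorem jacobi (M : Matrix n n S) :
    D M.det = (M.adjugate * M.map D).trace := by
  have h1 : D M.det = ∑ i : n, (M.updateCol i (fun k => D (M k i))).det := by
    rw [Matrix.det_apply, map_sum]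
    simp_rw [Matrix.det_apply]
    rw [Finset.sum_comm]
    refine Finset.sum_congr rfl fun σ _ => ?_
    have : D (Equiv.Perm.sign σ • ∏ i, M (σ i) i)
        = Equiv.Perm.sign σ • D (∏ i, M (σ i) i) := by
      rcases Int.units_eq_one_or (Equiv.Perm.sign σ) with h | h <;> simp [h]
    rw [this, deriv_prod, Finset.smul_sum]
    refine Finset.sum_congr rfl fun i _ => ?_
    congr 1
    rw [← Finset.prod_erase_mul _ _ (Finset.mem_univ i)]
    congr 1
    · refine Finset.prod_congr rfl fun j hj => ?_
      rw [Matrix.updateCol_ne (Finset.ne_of_mem_erase hj)]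
    · rw [Matrix.updateCol_self]
  rw [h1, Matrix.trace]
  refine Finset.sum_congr rfl fun i _ => ?_
  rw [← Matrix.cramer_apply, Matrix.cramer_eq_adjugate_mulVec]
  rfl

end Jacobi

section Trunc

variable {n : Type*} [Fintype n] [DecidableEq n]

theorem trunc (D : Derivation ℤ ℤ[X] ℤ[X]) (L L' : Matrix n n ℤ[X]) (N K : ℕ)
    (hN : L ^ N = (X ^ K : ℤ[X]) • L') :
    ∃ Q : ℤ[X], D (1 - L).det
      = - (1 - L).det * (∑ m ∈ Finset.range N, (L ^ m * L.map D).trace) + X ^ K * Q := by
  have h1 : (1 - L).map D = - L.map D := by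
    ext1 a b
    simp only [Matrix.map_apply, Matrix.sub_apply, Matrix.neg_apply, map_sub]
    rw [Matrix.one_apply]
    split_ifs
    · rw [Derivation.map_one_eq_zero, zero_sub]
    · rw [map_zero, zero_sub]
  have h2 : (1 - L).adjugate = (1 - L).det • (∑ m ∈ Finset.range N, L ^ m)
      + (1 - L).adjugate * L ^ N := by
    have h3 : (1 - L) * ∑ m ∈ Finset.range N, L ^ m = 1 - L ^ N := mul_neg_geom_sum L N
    have h4 : (1 - L).adjugate * (1 - L ^ N) = (1 - L).det • (∑ m ∈ Finset.range N, L ^ m) := by
      rw [← h3, ← Matrix.mul_assoc, Matrix.adjugate_mul, Matrix.smul_mul, Matrix.one_mul]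
    rw [← h4, Matrix.mul_sub, Matrix.mul_one, sub_add_cancel]
  refine ⟨- ((1 - L).adjugate * L' * L.map D).trace, ?_⟩
  rw [jacobi, h1]
  conv_lhs => rw [h2, hN]
  rw [Matrix.mul_neg, Matrix.trace_neg, Matrix.add_mul, Matrix.trace_add, Matrix.smul_mul,
    Matrix.trace_smul, Finset.sum_mul, Matrix.trace_sum, Matrix.mul_smul, Matrix.smul_mul,
    Matrix.trace_smul]
  simp only [smul_eq_mul]
  ring

end Trunc

section PowApply

variable {n : Type*} [Fintype n] [DecidableEq n] {S : Type*} [CommRing S]

theorem pow_apply_sum (L : Matrix n n S) (m : ℕ) (a b : n) :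
    (L ^ m) a b = ∑ w : Fin (m + 1) → n, if w 0 = a ∧ w (Fin.last m) = b then
      ∏ i : Fin m, L (w i.castSucc) (w i.succ) else 0 := by
  induction m generalizing a with
  | zero =>
    rw [pow_zero, Matrix.one_apply]
    have : ∀ w : Fin 1 → n, (if w 0 = a ∧ w (Fin.last 0) = b then
        ∏ i : Fin 0, L (w i.castSucc) (w i.succ) else 0)
        = if w = (fun _ => a) then (if a = b then (1 : S) else 0) else 0 := by
      intro w
      by_cases h : w 0 = a
      · have hw : w = fun _ => a := by
          funext i; rw [Subsingleton.elim i 0, h]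
        subst hw
        simp
      · have hw : ¬ w = fun _ => a := fun hc => h (by rw [hc])
        simp [h, hw]
    simp_rw [this]
    rw [Finset.sum_ite_eq' Finset.univ (fun _ => a)]
    simp
  | succ m ih =>
    rw [pow_succ', Matrix.mul_apply]
    simp_rw [ih, Finset.mul_sum]
    rw [← Equiv.sum_comp (Fin.consEquiv (fun _ : Fin (m + 2) => n)), Fintype.sum_prod_type]
    have key : ∀ (x : n) (w : Fin (m + 1) → n),
        (if (Fin.consEquiv (fun _ : Fin (m + 2) => n) (x, w)) 0 = a ∧
          (Fin.consEquiv (fun _ : Fin (m + 2) => n) (x, w)) (Fin.last (m + 1)) = b then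
          ∏ i : Fin (m + 1), L ((Fin.consEquiv (fun _ : Fin (m + 2) => n) (x, w)) i.castSucc)
            ((Fin.consEquiv (fun _ : Fin (m + 2) => n) (x, w)) i.succ) else 0)
        = if x = a then (if w (Fin.last m) = b then
            L x (w 0) * ∏ i : Fin m, L (w i.castSucc) (w i.succ) else 0) else 0 := by
      intro x w
      simp only [Fin.consEquiv_apply, Fin.cons_zero]
      rw [show Fin.last (m + 1) = (Fin.last m).succ from rfl, Fin.cons_succ, Fin.prod_univ_succ]
      simp only [Fin.castSucc_zero, Fin.cons_zero, Fin.cons_succ]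
      by_cases h : x = a
      · by_cases h' : w (Fin.last m) = b
        · simp only [h, h', true_and, if_true]
          congr 1
        · simp [h']
      · simp [h]
    simp_rw [key]
    rw [Finset.sum_comm]
    conv_rhs => rw [Finset.sum_comm]
    refine Finset.sum_congr rfl fun w _ => ?_
    rw [Finset.sum_ite_eq' Finset.univ a, if_pos (Finset.mem_univ a)]
    rw [Finset.sum_eq_single (w 0)]
    · by_cases h' : w (Fin.last m) = b
      · simp [h']
      · simp [h']
    · intro c _ hc
      simp [Ne.symm hc]
    · intro h; exact absurd (Finset.mem_univ _) h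

theorem trace_pow_mul (L M : Matrix n n S) (m : ℕ) :
    (L ^ m * M).trace = ∑ w : Fin (m + 1) → n,
      (∏ i : Fin m, L (w i.castSucc) (w i.succ)) * M (w (Fin.last m)) (w 0) := by
  rw [Matrix.trace]
  simp only [Matrix.diag_apply, Matrix.mul_apply]
  simp_rw [pow_apply_sum, Finset.sum_mul]
  have : ∀ a b : n, (∑ w : Fin (m + 1) → n, (if w 0 = a ∧ w (Fin.last m) = b then
      ∏ i : Fin m, L (w i.castSucc) (w i.succ) else 0) * M b a)
      = ∑ w : Fin (m + 1) → n, if w 0 = a then (if w (Fin.last m) = b then
        (∏ i : Fin m, L (w i.castSucc) (w i.succ)) * M (w (Fin.last m)) (w 0) else 0) else 0 := by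
    intro a b
    refine Finset.sum_congr rfl fun w _ => ?_
    by_cases h : w 0 = a
    · by_cases h' : w (Fin.last m) = b
      · simp [h, h']
      · simp [h']
    · simp [h]
  simp_rw [this]
  simp_rw [Finset.sum_comm (s := (Finset.univ : Finset n)) (t := (Finset.univ : Finset (Fin (m + 1) → n)))]
  simp

end PowApply

end Pool.Agent.V1161.PS
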