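import Pool.Agent.V1161.PS.Germ
import Pool.Agent.V1161.PS.Atom

/-!
# The length torsor, and the main theorem for graphs in which every vertex receives an edge
-/

namespace Pool.Agent.V1161.PS

set_option linter.unusedSectionVars false

open CategoryTheory CategoryTheory.Limits Function

variable {V : Type} (E : V → V → Type)

/-- Finite depth functions on path spaces. -/
def Fd {v : V} (g : Xp E v → ℤ) : Prop :=
  ∃ D, ∀ x y : Xp E v, (∀ i < D, x.1.1 i = y.1.1 i) → g x = g y

/-- The length torsor. -/
noncomputable def T1 [Finite V] [∀ u v, Finite (E u v)] : ShD E where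
  M v := {g : Xp E v → ℤ // Fd E g}
  res {u v} e g := ⟨fun y => g.1 (cons e y) + 1, by
    obtain ⟨D, hD⟩ := g.2
    refine ⟨D, fun x y hxy => ?_⟩
    have : g.1 (cons e x) = g.1 (cons e y) := by
      apply hD
      intro i hi
      cases i with
      | zero => rfl
      | succ i => exact hxy i (by omega)
    exact congrArg (fun z : ℤ => z + 1) this⟩
  bij v := by
    constructor
    · rintro ⟨g, hg⟩ ⟨g', hg'⟩ h
      apply Subtype.ext
      funext x
      obtain ⟨u, e, y, rfl⟩ := exists_cons x
      have h1 := congrArg Subtype.val (congrFun h ⟨u, e⟩)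
      have h2 : g (cons e y) + 1 = g' (cons e y) + 1 := congrFun h1 y
      exact add_right_cancel h2
    · intro g
      have hex : ∃ G : Xp E v → ℤ, ∀ u (e : E u v) (y : Xp E u), G (cons e y) = (g ⟨u, e⟩).1 y - 1 := by
        refine ⟨fun x => (g ⟨((XP E).unc v x).1, ((XP E).unc v x).2.1⟩).1 ((XP E).unc v x).2.2 - 1, ?_⟩
        intro u e y
        have h1 := (XP E).unc_map e y
        have h2 : (XP E).unc v (cons e y) = ⟨u, e, y⟩ := h1
        show (g ⟨((XP E).unc v (cons e y)).1, ((XP E).unc v (cons e y)).2.1⟩).1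
          ((XP E).unc v (cons e y)).2.2 - 1 = _
        rw [h2]
      obtain ⟨G, hG⟩ := hex
      have hfd : Fd E G := by
        choose D hD using fun p : (Σ u, E u v) => (g p).2
        obtain ⟨B, hB⟩ := (Set.finite_range D).bddAbove
        refine ⟨B + 1, fun x x' hxx' => ?_⟩
        obtain ⟨u, e, y, rfl⟩ := exists_cons x
        obtain ⟨u', e', y', rfl⟩ := exists_cons x'
        have h0 : (⟨u, v, e⟩ : Et E) = ⟨u', v, e'⟩ := hxx' 0 (Nat.succ_pos B)
        have hu : u = u' := congrArg (fun z : Et E => z.1) h0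
        subst hu
        have he : e = e' := by
          have h1 := eq_of_heq (Sigma.mk.inj_iff.1 h0).2
          exact eq_of_heq (Sigma.mk.inj_iff.1 h1).2
        subst he
        rw [hG, hG, hD ⟨u, e⟩ y y']
        intro i hi
        have hle : D ⟨u, e⟩ ≤ B := hB ⟨_, rfl⟩
        exact hxx' (i + 1) (by omega)
      refine ⟨⟨G, hfd⟩, funext fun p => Subtype.ext (funext fun y => ?_)⟩
      show G (cons p.2 y) + 1 = (g p).1 y
      rw [hG]
      ring

variable [Finite V] [∀ u v, Finite (E u v)]

/-- The action of the integers on the length torsor. -/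
noncomputable def T1τ (n : ℤ) (v : V) (g : (T1 E).M v) : (T1 E).M v :=
  ⟨fun x => g.1 x + n, by
    obtain ⟨D, hD⟩ := g.2
    exact ⟨D, fun x y hxy => congrArg (fun z : ℤ => z + n) (hD x y hxy)⟩⟩

theorem T1_near (hns : ∀ v : V, ∃ u, Nonempty (E u v)) (D : ℕ) : ∀ (v : V) (t t' : (T1 E).M v),
    (∀ x y : Xp E v, (∀ i < D, x.1.1 i = y.1.1 i) → t'.1 x - t.1 x = t'.1 y - t.1 y) →
    Near (T1 E) (T1τ E) v t t' := by
  induction D with
  | zero =>
    intro v t t' h
    obtain ⟨x₀⟩ := nonempty_Xp hns v
    have h1 : t' = T1τ E (t'.1 x₀ - t.1 x₀) v t := by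
      apply Subtype.ext
      funext x
      show t'.1 x = t.1 x + (t'.1 x₀ - t.1 x₀)
      have := h x x₀ (fun i hi => absurd hi (Nat.not_lt_zero i))
      linarith
    rw [h1]
    exact Near.base v t _
  | succ D ih =>
    intro v t t' h
    apply Near.step
    intro u e
    apply ih
    intro x y hxy
    have := h (cons e x) (cons e y) (fun i hi => by
      cases i with
      | zero => rfl
      | succ i => exact hxy i (by omega))
    show (t'.1 (cons e x) + 1) - (t.1 (cons e x) + 1) = (t'.1 (cons e y) + 1) - (t.1 (cons e y) + 1)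
    linarith

/-- The length torsor is a locally simply transitive. -/
noncomputable def LT1 (hns : ∀ v : V, ∃ u, Nonempty (E u v)) : LT (T1 E) where
  τ := T1τ E
  nat n {u v} e t := Subtype.ext (funext fun y => by
    show t.1 (cons e y) + 1 + n = t.1 (cons e y) + n + 1
    ring)
  zero v t := Subtype.ext (funext fun y => by
    show t.1 y + 0 = t.1 y
    ring)
  add m n v t := Subtype.ext (funext fun y => by
    show t.1 y + (m + n) = t.1 y + n + m
    ring)
  inj m n v t h := by
    obtain ⟨x⟩ := nonempty_Xp hns v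
    have h1 : t.1 x + m = t.1 x + n := congrFun (congrArg Subtype.val h) x
    exact add_left_cancel h1
  near v t t' := by
    obtain ⟨D, hD⟩ := t.2
    obtain ⟨D', hD'⟩ := t'.2
    apply T1_near E hns (max D D')
    intro x y hxy
    rw [hD x y fun i hi => hxy i (lt_of_lt_of_le hi (le_max_left _ _)),
      hD' x y fun i hi => hxy i (lt_of_lt_of_le hi (le_max_right _ _))]

/-- The zero sections. -/
noncomputable def b0 (v : V) : (T1 E).M v := ⟨fun _ => 0, 0, fun _ _ _ => rfl⟩

theorem coc_b0 (hns : ∀ v : V, ∃ u, Nonempty (E u v)) :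
    coc (LT1 E hns) (b0 E) = fun _ => 1 := by
  funext x
  unfold coc
  have h1 : (T1 E).res (x.1 0).2.2 (b0 E (x.1 0).2.1) = (LT1 E hns).τ 1 _ (b0 E (x.1 0).1) :=
    Subtype.ext (funext fun y => rfl)
  rw [h1, nu_tau]

variable {E}

omit [Finite V] [∀ u v, Finite (E u v)] in
/-- Irreducibility of the edge relation. -/
theorem irr_RE (hirr : Irred E) : Irr (RE E) := by
  have key : ∀ p q : V, Relation.ReflTransGen (fun a b => Nonempty (E a b)) p q →
      ∀ a b : Et E, b.2.1 = p → a.1 = q → Relation.TransGen (RE E) a b := by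
    intro p q h
    induction h with
    | refl =>
      intro a b hb ha
      exact Relation.TransGen.single (hb.trans ha.symm)
    | @tail r q' _ he ih =>
      intro a b hb ha
      obtain ⟨e⟩ := he
      have h1 : RE E a (⟨r, q', e⟩ : Et E) := ha.symm
      exact Relation.TransGen.head h1 (ih _ b hb rfl)
  intro a b
  exact key _ _ (hirr b.2.1 a.1) a b rfl rfl

end Pool.Agent.V1161.PS
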