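import Pool.Agent.V1161.PS.Trace

/-!
# Long words have large weight; the constant coefficient
-/

namespace Pool.Agent.V1161.PS

set_option linter.unusedSectionVars false

open Function Polynomial

variable {A : Type} [Fintype A] [DecidableEq A] {R : A → A → Prop} [DecidableRel R] {c : A → A → ℕ}

/-- All periodic points have positive Birkhoff sums. -/
def Pos (R : A → A → Prop) (f : Om R → ℤ) : Prop :=
  ∀ n, 0 < n → ∀ x : Om R, IsPeriodicPt (sft R) n x → 0 < birkhoffSum (sft R) f n x

theorem one_le_words (hpos : Pos R (two (cz c))) {n : ℕ} (hn : Fintype.card A ≤ n) (w : ℕ → A)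
    (hw : ∀ i < n, R (w i) (w (i + 1))) :
    1 ≤ ∑ i ∈ Finset.range n, c (w i) (w (i + 1)) := by
  have hni : ¬ Function.Injective (fun i : Fin (n + 1) => w i) := by
    intro hinj
    have := Fintype.card_le_of_injective _ hinj
    rw [Fintype.card_fin] at this
    omega
  have hex : ∃ i j : ℕ, i < j ∧ j ≤ n ∧ w i = w j := by
    unfold Function.Injective at hni
    push Not at hni
    obtain ⟨a, b, hab, hne⟩ := hni
    rcases lt_or_gt_of_ne hne with h | h
    · exact ⟨a, b, h, Nat.lt_succ_iff.1 b.2, hab⟩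
    · exact ⟨b, a, h, Nat.lt_succ_iff.1 a.2, hab.symm⟩
  obtain ⟨i, j, hij, hjn, hwij⟩ := hex
  obtain ⟨x, -, -, h3, h4⟩ := close (R := R) (n := j - i) (by omega) (fun k => w (i + k))
    (fun k hk => hw (i + k) (by omega)) (by
      show w (i + (j - i)) = w (i + 0)
      rw [Nat.add_sub_cancel' hij.le, Nat.add_zero, hwij])
  have h5 := hpos (j - i) (by omega) x h3
  rw [h4 (cz c)] at h5
  have h6 : 0 < ∑ k ∈ Finset.range (j - i), c (w (i + k)) (w (i + k + 1)) := by
    unfold cz at h5
    exact_mod_cast h5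
  calc 1 ≤ ∑ k ∈ Finset.range (j - i), c (w (i + k)) (w (i + k + 1)) := h6
    _ = ∑ k ∈ Finset.Ico i j, c (w k) (w (k + 1)) := by
        rw [Finset.sum_Ico_eq_sum_range]
    _ ≤ ∑ k ∈ Finset.range n, c (w k) (w (k + 1)) := by
        apply Finset.sum_le_sum_of_subset
        intro k hk
        rw [Finset.mem_Ico] at hk
        rw [Finset.mem_range]
        omega

theorem X_dvd_pow (hpos : Pos R (two (cz c))) (a b : A) :
    (X : ℤ[X]) ∣ (Lmat R c ^ Fintype.card A) a b := by
  rw [pow_apply_sum]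
  apply Finset.dvd_sum
  intro w _
  split_ifs with h
  · by_cases h1 : ∀ i : Fin (Fintype.card A), R (w i.castSucc) (w i.succ)
    · rw [prod_L _ _ h1]
      let w' : ℕ → A := fun i => if h : i < Fintype.card A + 1 then w ⟨i, h⟩ else w 0
      have hval : ∀ (i : ℕ) (h : i < Fintype.card A + 1), w' i = w ⟨i, h⟩ := fun i h => by
        simp only [w', h, dif_pos]
      have h2 : 1 ≤ ∑ i ∈ Finset.range (Fintype.card A), c (w' i) (w' (i + 1)) := by
        apply one_le_words hpos le_rfl
        intro i hi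
        rw [hval i (by omega), hval (i + 1) (by omega)]
        exact h1 ⟨i, hi⟩
      have h3 : ∑ i : Fin (Fintype.card A), c (w i.castSucc) (w i.succ)
          = ∑ i ∈ Finset.range (Fintype.card A), c (w' i) (w' (i + 1)) := by
        rw [Finset.sum_range]
        refine Finset.sum_congr rfl fun i _ => ?_
        rw [hval i (by omega), hval (i + 1) (by omega)]
        rfl
      rw [h3]
      exact dvd_pow_self _ (by omega)
    · push Not at h1
      obtain ⟨i, hi⟩ := h1
      have : ∏ i : Fin (Fintype.card A), Lmat R c (w i.castSucc) (w i.succ) = 0 := by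
        apply Finset.prod_eq_zero (Finset.mem_univ i)
        unfold Lmat
        rw [Matrix.of_apply, if_neg hi]
      rw [this]
      exact dvd_zero _
  · exact dvd_zero _

theorem exists_smul (hpos : Pos R (two (cz c))) :
    ∃ L₁ : Matrix A A ℤ[X], Lmat R c ^ Fintype.card A = (X : ℤ[X]) • L₁ := by
  choose L₁ hL₁ using X_dvd_pow hpos
  refine ⟨Matrix.of L₁, ?_⟩
  ext1 a b
  rw [hL₁ a b]
  rfl

theorem exists_pow_smul (hpos : Pos R (two (cz c))) (K N : ℕ) (hN : Fintype.card A * K ≤ N) :
    ∃ L' : Matrix A A ℤ[X], Lmat R c ^ N = (X ^ K : ℤ[X]) • L' := by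
  obtain ⟨L₁, hL₁⟩ := exists_smul hpos
  refine ⟨L₁ ^ K * Lmat R c ^ (N - Fintype.card A * K), ?_⟩
  rw [← Matrix.smul_mul, ← _root_.smul_pow, ← hL₁, ← pow_mul, ← pow_add, Nat.add_sub_cancel' hN]

/-- The determinant polynomial. -/
noncomputable def Ppoly (R : A → A → Prop) [DecidableRel R] (c : A → A → ℕ) : ℤ[X] :=
  (1 - Lmat R c).det

theorem Ppoly_coeff_zero (hpos : Pos R (two (cz c))) : (Ppoly R c).coeff 0 = 1 := by
  have h1 : (Ppoly R c).coeff 0 = (1 - (Lmat R c).map (Polynomial.evalRingHom 0)).det := by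
    unfold Ppoly
    rw [Polynomial.coeff_zero_eq_eval_zero, ← Polynomial.coe_evalRingHom, RingHom.map_det]
    congr 1
    rw [map_sub, map_one]
    rfl
  rw [h1]
  have h2 : IsNilpotent ((Lmat R c).map (Polynomial.evalRingHom (0 : ℤ))) := by
    obtain ⟨L₁, hL₁⟩ := exists_smul hpos
    refine ⟨Fintype.card A, ?_⟩
    have h3 : (Lmat R c).map (Polynomial.evalRingHom (0 : ℤ)) ^ Fintype.card A
        = (Lmat R c ^ Fintype.card A).map (Polynomial.evalRingHom (0 : ℤ)) := by
      have := map_pow (Polynomial.evalRingHom (0 : ℤ)).mapMatrix (Lmat R c) (Fintype.card A)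
      exact this.symm
    rw [h3, hL₁]
    ext1 a b
    simp
  have h4 := Matrix.isNilpotent_charpoly_sub_pow_of_isNilpotent h2
  have h5 : ((Lmat R c).map (Polynomial.evalRingHom (0 : ℤ))).charpoly = X ^ Fintype.card A :=
    sub_eq_zero.1 h4.eq_zero
  have h6 := congrArg (Polynomial.eval 1) h5
  rw [Matrix.eval_charpoly] at h6
  simp only [eval_pow, eval_X, one_pow, map_one] at h6
  exact h6

theorem K_le_long (hpos : Pos R (two (cz c))) (K : ℕ) (x : Om R) :
    (K : ℤ) ≤ birkhoffSum (sft R) (two (cz c)) (Fintype.card A * K) x := by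
  induction K with
  | zero => simp
  | succ K ih =>
    rw [Nat.mul_succ, birkhoffSum_add, birkhoff_cz (Fintype.card A)]
    have := one_le_words hpos (le_refl (Fintype.card A))
      ((sft R)^[Fintype.card A * K] x).1 (fun i _ => ((sft R)^[Fintype.card A * K] x).2 i)
    push_cast
    have h2 : (1 : ℤ) ≤ ((∑ i ∈ Finset.range (Fintype.card A),
      c (((sft R)^[Fintype.card A * K] x).1 i) (((sft R)^[Fintype.card A * K] x).1 (i + 1)) : ℕ) : ℤ) := by
      exact_mod_cast this
    push_cast at h2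
    linarith

theorem birkhoff_mono (x : Om R) {m n : ℕ} (h : m ≤ n) :
    birkhoffSum (sft R) (two (cz c)) m x ≤ birkhoffSum (sft R) (two (cz c)) n x := by
  rw [birkhoff_cz, birkhoff_cz]
  have : ∑ i ∈ Finset.range m, c (x.1 i) (x.1 (i + 1)) ≤ ∑ i ∈ Finset.range n, c (x.1 i) (x.1 (i + 1)) :=
    Finset.sum_le_sum_of_subset (Finset.range_subset_range.2 h)
  exact_mod_cast this

theorem len_lt (hpos : Pos R (two (cz c))) {x : Om R} {m k : ℕ}
    (h : birkhoffSum (sft R) (two (cz c)) m x = k) : m < Fintype.card A * (k + 1) := by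
  by_contra hc
  push Not at hc
  have h1 := birkhoff_mono (c := c) x hc
  have h2 := K_le_long hpos (k + 1) x
  rw [h] at h1
  push_cast at h2
  linarith

end Pool.Agent.V1161.PS
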