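import Pool.Agent.V1161.PS.Length

/-!
# The main theorem
-/

namespace Pool.Agent.V1161.PS

set_option linter.dupNamespace false

set_option linter.unusedSectionVars false

open CategoryTheory CategoryTheory.Limits Function

/-- The Parry-Sullivan number `det (I - A)`. -/
def PS {V : Type} [Fintype V] [DecidableEq V] (E : V → V → Type) [∀ u v, Fintype (E u v)] : ℤ :=
  (1 - Matrix.of fun u v => (Fintype.card (E u v) : ℤ)).det

section Edges

variable {V W : Type} [Fintype V] [DecidableEq V] [Nonempty V] [Fintype W] [DecidableEq W]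
  [Nonempty W] {E : V → V → Type} {F : W → W → Type} [∀ u v, Fintype (E u v)]
  [∀ u v, Fintype (F u v)]

omit [Nonempty V] in
open Classical in
theorem det_RE : (1 - Rmat (RE E)).det = PS E := by
  let S : Matrix (Et E) V ℤ := Matrix.of fun a v => if a.1 = v then 1 else 0
  let T : Matrix V (Et E) ℤ := Matrix.of fun v b => if b.2.1 = v then 1 else 0
  have h1 : S * T = Rmat (RE E) := by
    ext1 a b
    rw [Matrix.mul_apply]
    have hs : ∀ v, S a v * T v b = if a.1 = v then (if b.2.1 = v then 1 else 0) else 0 := by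
      intro v
      show (if a.1 = v then (1 : ℤ) else 0) * (if b.2.1 = v then 1 else 0) = _
      split_ifs <;> simp
    simp_rw [hs]
    rw [Finset.sum_ite_eq Finset.univ, if_pos (Finset.mem_univ _)]
    unfold Rmat
    rw [Matrix.of_apply]
    by_cases h : b.2.1 = a.1
    · rw [if_pos h, if_pos (show RE E a b from h)]
    · rw [if_neg h, if_neg (show ¬ RE E a b from h)]
  have h2 : T * S = (Matrix.of fun u v => (Fintype.card (E u v) : ℤ)).transpose := by
    ext1 v w
    rw [Matrix.mul_apply]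
    show ∑ a : Et E, (if a.2.1 = v then (1 : ℤ) else 0) * (if a.1 = w then 1 else 0)
      = (Fintype.card (E w v) : ℤ)
    rw [Fintype.sum_sigma]
    rw [Finset.sum_eq_single w]
    · rw [Fintype.sum_sigma, Finset.sum_eq_single v]
      · simp
      · intro v' _ hv'
        apply Finset.sum_eq_zero
        intro e _
        show (if v' = v then (1 : ℤ) else 0) * (if w = w then 1 else 0) = 0
        rw [if_neg hv', zero_mul]
      · intro h; exact absurd (Finset.mem_univ _) h
    · intro w' _ hw'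
      apply Finset.sum_eq_zero
      intro p _
      show (if p.1 = v then (1 : ℤ) else 0) * (if w' = w then 1 else 0) = 0
      rw [if_neg hw', mul_zero]
    · intro h; exact absurd (Finset.mem_univ _) h
  calc (1 - Rmat (RE E)).det = (1 - S * T).det := by rw [h1]
    _ = (1 - T * S).det := Matrix.det_one_sub_mul_comm S T
    _ = (1 - (Matrix.of fun u v => (Fintype.card (E u v) : ℤ)).transpose).det := by rw [h2]
    _ = ((1 - Matrix.of fun u v => (Fintype.card (E u v) : ℤ)).transpose).det := by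
        rw [Matrix.transpose_sub, Matrix.transpose_one]
    _ = PS E := Matrix.det_transpose _

/-- The main theorem when every vertex receives an edge. -/
theorem main_edges (hE : Irred E) (hF : Irred F) (hnE : ∀ v : V, ∃ u, Nonempty (E u v))
    (hnF : ∀ v : W, ∃ u, Nonempty (F u v)) (e : Diag Ob E ≌ Diag Ob F) : PS E = PS F := by
  classical
  -- the length torsor and its image
  let L₁ := LT1 E hnE
  obtain ⟨T', hT'⟩ : ∃ T' : ShD F, e.functor.obj (ofSh (T1 E)) = ofSh T' := by
    rcases diag_cases hF hnF (e.functor.obj (ofSh (T1 E))) with ⟨S, hS⟩ | ⟨M, hM⟩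
    · exfalso
      have h1 := (shT_ofSh hE hnE (T1 E)).transport e
      rw [hS] at h1
      exact not_shT_ofPt hF hnF S h1
    · exact ⟨M, hM⟩
  have hTor : Tor (ofSh T') := by
    rw [← hT']
    exact (L₁.tor hE hnE).transport e
  obtain ⟨L⟩ := hTor.lt hF hnF
  have hne : ∀ v, Nonempty (T'.M v) := by
    by_contra hc
    push Not at hc
    obtain ⟨v₀, hv₀⟩ := hc
    have hall : ∀ v, IsEmpty (T'.M v) := by
      intro v
      induction hF v₀ v with
      | refl => exact hv₀
      | tail _ he ih =>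
        obtain ⟨e⟩ := he
        exact ⟨fun m => ih.false (T'.res e m)⟩
    have huniq : ∀ (X : Diag Ob F) (a b : X ⟶ ofSh T'), a = b := by
      intro X a b
      rcases diag_cases hF hnF X with ⟨S, rfl⟩ | ⟨N, rfl⟩
      · exact ps_ext fun v m => ((hall v).false m).elim
      · exact ss_ext fun v m => ((hall v).false m).elim
    rw [← hT'] at huniq
    obtain ⟨x⟩ := nonempty_Xp hnE (Classical.arbitrary V)
    have hcne := cst_ne (S := XP E) (M := T1 E) x (b0 E _)
    exact hcne (e.functor.map_injective (huniq _ _ _))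
  let b : ∀ v, T'.M v := fun v => (hne v).some
  obtain ⟨D, hD⟩ := coc_dep L b
  -- the bijection of orbits
  have hφ : ∀ ω : Orb (sft (RE E)), ∃ ω' : Orb (sft (RE F)),
      Nonempty (e.functor.obj (ofPt (Eo E ω)) ≅ ofPt (Eo F ω')) := fun ω =>
    ((atom_Eo hE hnE ω).transport e).exists_iso hF hnF
  have hψ : ∀ ω' : Orb (sft (RE F)), ∃ ω : Orb (sft (RE E)),
      Nonempty (e.inverse.obj (ofPt (Eo F ω')) ≅ ofPt (Eo E ω)) := fun ω' =>
    ((atom_Eo hF hnF ω').transport e.symm).exists_iso hE hnE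
  choose φ hφ using hφ
  choose ψ hψ using hψ
  let Φ : Orb (sft (RE E)) ≃ Orb (sft (RE F)) :=
    { toFun := φ
      invFun := ψ
      left_inv := fun ω => by
        obtain ⟨i⟩ := hφ ω
        obtain ⟨j⟩ := hψ (φ ω)
        exact Eo_inj (j.inv ≫ e.inverse.map i.inv ≫ (e.unitIso.app _).inv)
      right_inv := fun ω' => by
        obtain ⟨i⟩ := hψ ω'
        obtain ⟨j⟩ := hφ (ψ ω')
        exact Eo_inj (j.inv ≫ e.functor.map i.inv ≫ (e.counitIso.app _).hom) }
  have hw : ∀ ω, wt (sft (RE F)) (coc L b) (Φ ω) = wt (sft (RE E)) (fun _ => (1 : ℤ)) ω := by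
    intro ω
    rw [← card_orb_sk, ← card_orb_sk]
    apply card_bool
    have h1 := card_hom L b (Φ ω)
    have h2 := card_hom L₁ (b0 E) ω
    rw [show coc L₁ (b0 E) = fun _ => 1 from coc_b0 E hnE] at h2
    rw [← h1, ← h2]
    obtain ⟨i⟩ := hφ ω
    have h3 : Nat.card (e.functor.obj (ofPt (Eo E ω)) ⟶ e.functor.obj (ofSh (T1 E)))
        = Nat.card (ofPt (Eo E ω) ⟶ ofSh (T1 E)) :=
      (Nat.card_congr (e.fullyFaithfulFunctor.homEquiv)).symm
    rw [← h3, hT']
    exact (Nat.card_congr (i.homCongr (Iso.refl _))).symm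
  obtain ⟨v⟩ := ‹Nonempty V›
  obtain ⟨u, ⟨e₀⟩⟩ := hnE v
  have : Nonempty (Et E) := ⟨⟨u, v, e₀⟩⟩
  have hdet := main_dyn (R := RE E) (S := RE F) (irr_RE hE) (irr_RE hF) (D := 0)
    (f := fun _ => (1 : ℤ)) (fun _ _ _ => rfl) hD Φ hw finite_one (exists_one (irr_RE hE))
  rw [det_RE, det_RE] at hdet
  exact hdet

end Edges

/-! ### The graph without edges -/

section NoEdges

/-- Every object of covariant type maps to every nonempty object of covariant type. -/
def Wk2 (𝒟 : Type*) [Category 𝒟] : Prop :=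
  ∀ X S : 𝒟, ¬ ShT X → ¬ ShT S → (∃ Y, ∃ a b : S ⟶ Y, a ≠ b) → Nonempty (X ⟶ S)

theorem Wk2.transport {𝒟 𝒟' : Type*} [Category 𝒟] [Category 𝒟'] (e : 𝒟 ≌ 𝒟') (h : Wk2 𝒟') :
    Wk2 𝒟 := by
  intro X S hX hS hne
  obtain ⟨Y, a, b, hab⟩ := hne
  obtain ⟨f⟩ := h (e.functor.obj X) (e.functor.obj S) (fun hc => hX ((shT_iff e).1 hc))
    (fun hc => hS ((shT_iff e).1 hc)) ⟨e.functor.obj Y, e.functor.map a, e.functor.map b,
      fun hc => hab (e.functor.map_injective hc)⟩
  exact ⟨e.functor.preimage f⟩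

theorem wk2_empty {V : Type} {E : V → V → Type} (v₀ : V) (hv : ∀ v, v = v₀)
    (hno : ∀ u v, IsEmpty (E u v)) : Wk2 (Diag Ob E) := by
  -- the one-vertex diagrams
  let K : Ob → Diag Ob E := fun o =>
    ⟨fun _ => o, fun {u v} e => ((hno u v).false e).elim, fun v h => by
      obtain ⟨u, ⟨e⟩⟩ := h
      exact ((hno u v).false e).elim⟩
  let mk : ∀ {X Y : Diag Ob E}, (∀ v, X.obj v ⟶ Y.obj v) → (X ⟶ Y) := fun {X Y} a =>
    Diag.Hom.mk a (fun {u v} e => ((hno u v).false e).elim)
  have hsub : ∀ v w : V, v = w := fun v w => (hv v).trans (hv w).symm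
  have hJ : IsJ (K (Ob.sh Unit)) := by
    constructor
    · intro X a b
      apply Diag.Hom.ext
      funext v
      have key : ∀ (o : Ob) (f g : Ob.sh Unit ⟶ o), f = g := by
        rintro o f g
        cases o with
        | pt Z => exact (f : Empty).elim
        | sh N => exact funext fun n => rfl
      exact key _ _ _
    · refine ⟨K (Ob.pt Unit), mk fun v => (fun _ _ => true : Unit → Unit → Bool),
        mk fun v => (fun _ _ => false : Unit → Unit → Bool), fun hc => ?_⟩
      have h1 := congrArg (fun f : K (Ob.pt Unit) ⟶ K (Ob.sh Unit) => f.app v₀) hc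
      have h2 : (fun _ _ => true : Unit → Unit → Bool) = fun _ _ => false := h1
      exact Bool.noConfusion (congrFun (congrFun h2 ()) ())
  have hsh : ∀ X : Diag Ob E, (∃ M, X.obj v₀ = Ob.sh M) → ShT X := by
    rintro X ⟨M, hM⟩
    refine ⟨_, hJ, ⟨mk fun v => ?_⟩⟩
    have key : ∀ (o : Ob) (N : Type) (_ : o = Ob.sh N), Nonempty (Ob.sh Unit ⟶ o) := by
      rintro o N rfl
      exact ⟨(fun _ => () : N → Unit)⟩
    exact (key (X.obj v) M (by rw [hv v]; exact hM)).some
  have hpt : ∀ X : Diag Ob E, ¬ ShT X → ∃ Z, ∀ v, X.obj v = Ob.pt Z := by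
    intro X hX
    cases h : X.obj v₀ with
    | pt Z => exact ⟨Z, fun v => by rw [hv v]; exact h⟩
    | sh M => exact (hX (hsh X ⟨M, h⟩)).elim
  intro X S hX hS hne
  obtain ⟨Z, hZ⟩ := hpt X hX
  obtain ⟨Z', hZ'⟩ := hpt S hS
  have hne' : Nonempty Z' := by
    by_contra hc
    rw [not_nonempty_iff] at hc
    obtain ⟨Y, a, b, hab⟩ := hne
    apply hab
    apply Diag.Hom.ext
    funext v
    have key : ∀ (o : Ob) (_ : o = Ob.pt Z') (o' : Ob) (f g : o ⟶ o'), f = g := by
      rintro o rfl o' f g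
      cases o' with
      | pt Z'' => exact funext fun z => (hc.false z).elim
      | sh N => exact funext fun n => funext fun z => (hc.false z).elim
    exact key _ (hZ' v) _ _ _
  obtain ⟨z⟩ := hne'
  have key : ∀ (o : Ob) (_ : o = Ob.pt Z) (o' : Ob) (_ : o' = Ob.pt Z'), Nonempty (o ⟶ o') := by
    rintro o rfl o' rfl
    exact ⟨(fun _ => z : Z → Z')⟩
  exact ⟨mk fun v => (key _ (hZ v) _ (hZ' v)).some⟩

/-- The covering of the path spaces given by the length. -/
def XZ {V : Type} (E : V → V → Type) : PtD E where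
  S v := Xp E v × ℤ
  map e p := (cons e p.1, p.2 + 1)
  bij v := by
    constructor
    · rintro ⟨u, e, y, n⟩ ⟨u', e', y', n'⟩ h
      have h2 := cons_inj (congrArg Prod.fst h : cons e y = cons e' y')
      have h3 : n + 1 = n' + 1 := congrArg Prod.snd h
      have hn : n = n' := add_right_cancel h3
      subst hn
      have hu : u = u' := congrArg (fun z : (Σ u, E u v × Xp E u) => z.1) h2
      subst hu
      have h4 := eq_of_heq (Sigma.mk.inj_iff.1 h2).2
      have he : e = e' := congrArg Prod.fst h4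
      have hy : y = y' := congrArg Prod.snd h4
      subst he
      subst hy
      rfl
    · rintro ⟨x, n⟩
      obtain ⟨u, e, y, rfl⟩ := exists_cons x
      exact ⟨⟨u, e, y, n - 1⟩, Prod.ext rfl (by show n - 1 + 1 = n; ring)⟩

theorem not_wk2 {W : Type} [Nonempty W] {F : W → W → Type} (hF : Irred F)
    (hnF : ∀ v : W, ∃ u, Nonempty (F u v)) : ¬ Wk2 (Diag Ob F) := by
  intro h
  obtain ⟨w⟩ := ‹Nonempty W›
  have : Nonempty W := ⟨w⟩
  obtain ⟨x₀⟩ := nonempty_Xp hnF w
  obtain ⟨f⟩ := h (ofPt (XP F)) (ofPt (XZ F)) (not_shT_ofPt hF hnF _) (not_shT_ofPt hF hnF _)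
    ⟨ofSh (J0 F), cst _ _ true, cst _ _ false, cst_ne (S := XZ F) (v := w) (x₀, 0) ()⟩
  let A : Om (RE F) → ℤ := fun x => (pp f _ (toXp x)).2
  have hA : ∀ v (x : Xp F v), (pp f v x).2 = A x.1 := by
    rintro v ⟨x, rfl⟩
    rfl
  have hs : ∀ x : Om (RE F), A x = A (sft (RE F) x) + 1 := by
    intro x
    obtain ⟨u, e, y, hy⟩ := exists_cons (toXp x)
    have hxy : x = (cons e y).1 := congrArg Subtype.val hy
    rw [hxy, sft_cons, ← hA, ← hA]
    have h1 := pp_nat f e y
    exact congrArg Prod.snd h1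
  have hi : ∀ (n : ℕ) (x : Om (RE F)), A x = A ((sft (RE F))^[n] x) + n := by
    intro n
    induction n with
    | zero => intro x; simp
    | succ n ih =>
      intro x
      rw [iterate_succ_apply, hs, ih (sft (RE F) x)]
      push_cast
      ring
  obtain ⟨u, ⟨e₀⟩⟩ := hnF w
  have a : Et F := ⟨u, w, e₀⟩
  obtain ⟨n, hn, c, hc⟩ := exists_walk (c := fun _ _ => (1 : ℤ)) (irr_RE hF a a)
  obtain ⟨x, hx, -⟩ := hc.exists_pt hn
  have h1 := hi n x
  rw [hx.eq] at h1
  have h2 : (0 : ℤ) < n := by exact_mod_cast hn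
  linarith

end NoEdges

/-- A vertex of an irreducible graph not receiving any edge is the only vertex, and there are no
edges. -/
theorem no_edges {V : Type} {E : V → V → Type} (hE : Irred E)
    (h : ¬ ∀ v : V, ∃ u, Nonempty (E u v)) : ∃ v₀ : V, (∀ v, v = v₀) ∧ ∀ u v, IsEmpty (E u v) := by
  push Not at h
  obtain ⟨v₀, hv₀⟩ := h
  have h1 : ∀ v, v = v₀ := by
    intro v
    rcases (Relation.ReflTransGen.cases_tail (hE v v₀)) with h2 | ⟨w, -, ⟨e⟩⟩
    · exact h2.symm
    · exact ((hv₀ w).false e).elim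
  refine ⟨v₀, h1, fun u v => ?_⟩
  rw [h1 v]
  exact hv₀ u

theorem PS_no_edges {V : Type} [Fintype V] [DecidableEq V] {E : V → V → Type}
    [∀ u v, Fintype (E u v)] (h : ∀ u v, IsEmpty (E u v)) : PS E = 1 := by
  unfold PS
  have : (Matrix.of fun u v => (Fintype.card (E u v) : ℤ)) = 0 := by
    ext1 u v
    have := h u v
    show (Fintype.card (E u v) : ℤ) = 0
    rw [Fintype.card_eq_zero]
    rfl
  rw [this, sub_zero, Matrix.det_one]

/-- **Main theorem.** Equivalent categories of diagrams with values in the collage category have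
equal Parry-Sullivan numbers. -/
theorem main {V W : Type} [Fintype V] [DecidableEq V] [Nonempty V] [Fintype W] [DecidableEq W]
    [Nonempty W] (E : V → V → Type) (F : W → W → Type) [∀ u v, Fintype (E u v)]
    [∀ u v, Fintype (F u v)] (hE : Irred E) (hF : Irred F)
    (h : Nonempty (Diag Ob E ≌ Diag Ob F)) : PS E = PS F := by
  obtain ⟨e⟩ := h
  by_cases h1 : ∀ v : V, ∃ u, Nonempty (E u v)
  · by_cases h2 : ∀ v : W, ∃ u, Nonempty (F u v)
    · exact main_edges hE hF h1 h2 e
    · exfalso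
      obtain ⟨v₀, h3, h4⟩ := no_edges hF h2
      exact not_wk2 hE h1 ((wk2_empty v₀ h3 h4).transport e)
  · obtain ⟨v₀, h3, h4⟩ := no_edges hE h1
    by_cases h2 : ∀ v : W, ∃ u, Nonempty (F u v)
    · exfalso
      exact not_wk2 hF h2 ((wk2_empty v₀ h3 h4).transport e.symm)
    · obtain ⟨v₀', h3', h4'⟩ := no_edges hF h2
      rw [PS_no_edges h4, PS_no_edges h4']

end Pool.Agent.V1161.PS
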