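import Pool.Agent.V1161.PS.Dyn
import Pool.Agent.V1161.PS.Jacobi

/-!
# Topological Markov shifts, closed words and periodic points
-/

namespace Pool.Agent.V1161.PS

open Function Polynomial

variable {A : Type} (R : A → A → Prop)

/-- The one-sided Markov shift space of a relation. -/
structure Om : Type where
  /-- the sequence of letters -/
  seq : ℕ → A
  /-- consecutive letters are related -/
  adm : ∀ i, R (seq i) (seq (i + 1))

/-- The shift. -/
def sft : Om R → Om R := fun x => ⟨fun i => x.1 (i + 1), fun i => x.2 (i + 1)⟩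

variable {R}

theorem Om.ext {x y : Om R} (h : ∀ i, x.1 i = y.1 i) : x = y := by
  obtain ⟨x, hx⟩ := x
  obtain ⟨y, hy⟩ := y
  obtain rfl : x = y := funext h
  rfl

theorem sft_iterate (x : Om R) (n i : ℕ) : ((sft R)^[n] x).1 i = x.1 (i + n) := by
  induction n generalizing x i with
  | zero => rfl
  | succ n ih =>
    rw [iterate_succ_apply, ih]
    show x.1 (i + n + 1) = _
    congr 1

/-- A function of the first two letters. -/
def two (c : A → A → ℤ) (x : Om R) : ℤ := c (x.1 0) (x.1 1)

theorem birkhoff_two (c : A → A → ℤ) (n : ℕ) (x : Om R) :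
    birkhoffSum (sft R) (two c) n x = ∑ i ∈ Finset.range n, c (x.1 i) (x.1 (i + 1)) := by
  unfold birkhoffSum
  refine Finset.sum_congr rfl fun i _ => ?_
  unfold two
  rw [sft_iterate, sft_iterate, zero_add, add_comm 1 i]

/-- Closing a closed word. -/
theorem close {n : ℕ} (hn : 0 < n) (w : ℕ → A) (hw : ∀ i < n, R (w i) (w (i + 1)))
    (hc : w n = w 0) :
    ∃ x : Om R, (∀ i, x.1 i = w (i % n)) ∧ (∀ i ≤ n, x.1 i = w i) ∧ IsPeriodicPt (sft R) n x ∧
      ∀ c : A → A → ℤ, birkhoffSum (sft R) (two c) n x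
        = ∑ i ∈ Finset.range n, c (w i) (w (i + 1)) := by
  have hstep : ∀ i, w ((i + 1) % n) = w (i % n + 1) := by
    intro i
    rw [Nat.add_mod]
    have h1 : i % n < n := Nat.mod_lt _ hn
    rcases Nat.lt_or_ge (i % n + 1) n with h | h
    · have h2 : (1 : ℕ) % n = 1 := Nat.mod_eq_of_lt (by omega)
      rw [h2, Nat.mod_eq_of_lt h]
    · have h3 : i % n + 1 = n := by omega
      rcases Nat.lt_or_ge 1 n with h4 | h4
      · rw [Nat.mod_eq_of_lt h4, h3, Nat.mod_self, hc]
      · have h5 : n = 1 := by omega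
        subst h5
        have h6 : i % 1 = 0 := Nat.mod_one i
        rw [h6]
        simpa using hc.symm
  refine ⟨⟨fun i => w (i % n), fun i => ?_⟩, fun i => rfl, ?_, ?_, ?_⟩
  · show R (w (i % n)) (w ((i + 1) % n))
    rw [hstep]
    exact hw _ (Nat.mod_lt _ hn)
  · intro i hi
    show w (i % n) = w i
    rcases Nat.lt_or_ge i n with h | h
    · rw [Nat.mod_eq_of_lt h]
    · have : i = n := le_antisymm hi h
      rw [this, Nat.mod_self, hc]
  · apply Om.ext
    intro i
    rw [sft_iterate]
    show w ((i + n) % n) = w (i % n)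
    rw [Nat.add_mod_right]
  · intro c
    rw [birkhoff_two]
    refine Finset.sum_congr rfl fun i hi => ?_
    have hi' : i < n := Finset.mem_range.1 hi
    show c (w (i % n)) (w ((i + 1) % n)) = _
    rw [hstep, Nat.mod_eq_of_lt hi']

variable (R)

/-- Points fixed by the `n`-th power of the shift. -/
def fixSet (n : ℕ) : Set (Om R) := {x | IsPeriodicPt (sft R) n x}

variable {R}

theorem fix_mod {n : ℕ} {x : Om R} (h : IsPeriodicPt (sft R) n x) (i : ℕ) :
    x.1 i = x.1 (i % n) := by
  have key : ∀ k i, x.1 (i + n * k) = x.1 i := by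
    intro k i
    have h2 : (sft R)^[n * k] x = x := by
      have := h.mul_const k
      exact this
    have h3 := sft_iterate x (n * k) i
    rw [h2] at h3
    exact h3.symm
  conv_lhs => rw [← Nat.mod_add_div i n]
  exact key _ _

theorem fix_finite [Finite A] {n : ℕ} (hn : 0 < n) : (fixSet R n).Finite := by
  apply Set.Finite.of_finite_image (f := fun (x : Om R) (i : Fin n) => x.1 i)
  · exact Set.toFinite _
  · intro x hx y hy hxy
    apply Om.ext
    intro i
    rw [fix_mod hx i, fix_mod hy i]
    exact congrFun hxy ⟨i % n, Nat.mod_lt _ hn⟩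

/-- Closed words of length `m + 1` are the points fixed by the power `m + 1` of the shift. -/
theorem sum_words [Fintype A] [DecidableEq A] [DecidableRel R] {S : Type*} [AddCommMonoid S] (m : ℕ)
    (F : (Fin (m + 1) → A) → S)
    (hF : ∀ w, ¬ ((∀ i : Fin m, R (w i.castSucc) (w i.succ)) ∧ R (w (Fin.last m)) (w 0)) →
      F w = 0) :
    ∑ w : Fin (m + 1) → A, F w
      = ∑ x ∈ (fix_finite (R := R) (Nat.succ_pos m)).toFinset,
          F (fun i : Fin (m + 1) => x.1 i) := by
  classical
  symm
  refine Finset.sum_bij_ne_zero (fun x _ _ => fun i : Fin (m + 1) => x.1 i)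
    (fun _ _ _ => Finset.mem_univ _) ?_ ?_ (fun _ _ _ => rfl)
  · intro x hx _ y hy _ hxy
    have hx' : IsPeriodicPt (sft R) (m + 1) x :=
      (fix_finite (R := R) (Nat.succ_pos m)).mem_toFinset.1 hx
    have hy' : IsPeriodicPt (sft R) (m + 1) y :=
      (fix_finite (R := R) (Nat.succ_pos m)).mem_toFinset.1 hy
    apply Om.ext
    intro i
    rw [fix_mod hx' i, fix_mod hy' i]
    exact congrFun hxy ⟨i % (m + 1), Nat.mod_lt _ (Nat.succ_pos m)⟩
  · intro w _ hw
    have hadm : (∀ i : Fin m, R (w i.castSucc) (w i.succ)) ∧ R (w (Fin.last m)) (w 0) := by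
      by_contra hc
      exact hw (hF w hc)
    let w' : ℕ → A := fun i => if h : i < m + 1 then w ⟨i, h⟩ else w 0
    have hw' : ∀ i < m + 1, R (w' i) (w' (i + 1)) := by
      intro i hi
      rcases Nat.lt_or_ge i m with h | h
      · have := hadm.1 ⟨i, h⟩
        simp only [w', hi, dif_pos, Nat.succ_lt_succ h]
        exact this
      · have hi' : i = m := by omega
        subst hi'
        simp only [w', Nat.lt_succ_self, dif_pos, lt_irrefl, dif_neg, not_false_eq_true]
        exact hadm.2
    have hc : w' (m + 1) = w' 0 := by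
      simp only [w', lt_irrefl, dif_neg, not_false_eq_true, Nat.succ_pos, dif_pos]
      rfl
    obtain ⟨x, h1, h2, h3, h4⟩ := close (Nat.succ_pos m) w' hw' hc
    have hxw : (fun i : Fin (m + 1) => x.1 i) = w := by
      funext i
      show x.1 i = w i
      rw [h2 i i.2.le]
      simp only [w', i.2, dif_pos]
    refine ⟨x, ?_, ?_, hxw⟩
    · exact (fix_finite (R := R) (Nat.succ_pos m)).mem_toFinset.2 h3
    · rw [hxw]; exact hw

end Pool.Agent.V1161.PS
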