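import Pool.Agent.V1161.PS.Rep
import Pool.Agent.V1161.PS.Markov

/-!
# Backward infinite paths
-/

namespace Pool.Agent.V1161.PS

open CategoryTheory CategoryTheory.Limits Function

variable {V : Type} (E : V → V → Type)

/-- All edges: `⟨u, v, e⟩` with `e` an edge from `u` to `v`. -/
abbrev Et : Type := Σ u : V, Σ v : V, E u v

/-- `a` can be preceded by `b`: the target of `b` is the source of `a`. -/
def RE : Et E → Et E → Prop := fun a b => b.2.1 = a.1

/-- The backward infinite paths ending at `v`. -/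
def Xp (v : V) : Type := {x : Om (RE E) // (x.1 0).2.1 = v}

variable {E}

/-- Prolong a backward path by an edge. -/
def cons {u v : V} (e : E u v) (y : Xp E u) : Xp E v :=
  ⟨⟨fun i => Nat.casesOn i (⟨u, v, e⟩ : Et E) (fun j => y.1.1 j), fun i => by
    cases i with
    | zero => exact y.2
    | succ i => exact y.1.2 i⟩, rfl⟩

theorem cons_zero {u v : V} (e : E u v) (y : Xp E u) : (cons e y).1.1 0 = ⟨u, v, e⟩ := rfl

theorem cons_succ {u v : V} (e : E u v) (y : Xp E u) (i : ℕ) : (cons e y).1.1 (i + 1) = y.1.1 i := rfl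

theorem sft_cons {u v : V} (e : E u v) (y : Xp E u) : sft (RE E) (cons e y).1 = y.1 :=
  Om.ext fun _ => rfl

theorem Xp_ext {v : V} {x y : Xp E v} (h : ∀ i, x.1.1 i = y.1.1 i) : x = y :=
  Subtype.ext (Om.ext h)

theorem exists_cons {v : V} (x : Xp E v) : ∃ u, ∃ e : E u v, ∃ y : Xp E u, x = cons e y := by
  obtain ⟨⟨s, hs⟩, h⟩ := x
  have h' : (s 0).2.1 = v := h
  subst h'
  refine ⟨(s 0).1, (s 0).2.2, ⟨⟨fun i => s (i + 1), fun i => hs (i + 1)⟩, hs 0⟩, ?_⟩
  apply Xp_ext
  intro i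
  cases i <;> rfl

theorem cons_inj {v u u' : V} {e : E u v} {e' : E u' v} {y : Xp E u} {y' : Xp E u'}
    (h : cons e y = cons e' y') : (⟨u, e, y⟩ : Σ u, E u v × Xp E u) = ⟨u', e', y'⟩ := by
  have h0 : (⟨u, v, e⟩ : Et E) = ⟨u', v, e'⟩ := congrArg (fun z : Xp E v => z.1.1 0) h
  have hu : u = u' := congrArg (fun z : Et E => z.1) h0
  subst hu
  have he : e = e' := by
    have h1 := eq_of_heq (Sigma.mk.inj_iff.1 h0).2
    exact eq_of_heq (Sigma.mk.inj_iff.1 h1).2
  subst he
  have hy : y = y' := Xp_ext fun i => congrArg (fun z : Xp E v => z.1.1 (i + 1)) h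
  rw [hy]

variable (E)

/-- The path spaces as a covariant diagram. -/
def XP : PtD E where
  S := Xp E
  map e := cons e
  bij v := ⟨fun _ _ h => cons_inj h, fun x => by
    obtain ⟨u, e, y, h⟩ := exists_cons x
    exact ⟨⟨u, e, y⟩, h.symm⟩⟩

variable {E}

section Anchor

variable (S : PtD E)

/-- The inverse of the structure bijection. -/
noncomputable def PtD.unc (v : V) : S.S v → (Σ u, E u v × S.S u) :=
  (Equiv.ofBijective _ (S.bij v)).symm

theorem PtD.unc_map {u v : V} (e : E u v) (y : S.S u) : S.unc v (S.map e y) = ⟨u, e, y⟩ := by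
  unfold PtD.unc
  rw [Equiv.symm_apply_eq]
  rfl

/-- One step backward. -/
noncomputable def PtD.next (z : Σ v, S.S v) : Σ v, S.S v := ⟨(S.unc z.1 z.2).1, (S.unc z.1 z.2).2.2⟩

/-- The last edge. -/
noncomputable def PtD.lab (z : Σ v, S.S v) : Et E := ⟨(S.unc z.1 z.2).1, z.1, (S.unc z.1 z.2).2.1⟩

/-- The backward path of an element. -/
noncomputable def PtD.anc (v : V) (z : S.S v) : Xp E v :=
  ⟨⟨fun i => S.lab (S.next^[i] ⟨v, z⟩), fun i => by
    show (S.lab (S.next^[i + 1] ⟨v, z⟩)).2.1 = (S.lab (S.next^[i] ⟨v, z⟩)).1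
    rw [iterate_succ_apply']
    rfl⟩, rfl⟩

theorem PtD.next_map {u v : V} (e : E u v) (y : S.S u) : S.next ⟨v, S.map e y⟩ = ⟨u, y⟩ := by
  show (⟨(S.unc v (S.map e y)).1, (S.unc v (S.map e y)).2.2⟩ : Σ v, S.S v) = _
  rw [S.unc_map]

theorem PtD.lab_map {u v : V} (e : E u v) (y : S.S u) : S.lab ⟨v, S.map e y⟩ = ⟨u, v, e⟩ := by
  show (⟨(S.unc v (S.map e y)).1, v, (S.unc v (S.map e y)).2.1⟩ : Et E) = _
  rw [S.unc_map]

theorem PtD.anc_map {u v : V} (e : E u v) (y : S.S u) :
    S.anc v (S.map e y) = cons e (S.anc u y) := by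
  apply Xp_ext
  intro i
  cases i with
  | zero => exact S.lab_map e y
  | succ i =>
    show S.lab (S.next^[i + 1] ⟨v, S.map e y⟩) = S.lab (S.next^[i] ⟨u, y⟩)
    rw [iterate_succ_apply, S.next_map]

end Anchor

/-- Two natural maps into the path spaces are equal. -/
theorem unique_anc (S : PtD E) (a b : ∀ v, S.S v → Xp E v)
    (ha : ∀ {u v : V} (e : E u v) (y : S.S u), a v (S.map e y) = cons e (a u y))
    (hb : ∀ {u v : V} (e : E u v) (y : S.S u), b v (S.map e y) = cons e (b u y)) (v : V)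
    (z : S.S v) : a v z = b v z := by
  have key : ∀ (i : ℕ) (v : V) (z : S.S v), (a v z).1.1 i = (b v z).1.1 i := by
    intro i
    induction i with
    | zero =>
      intro v z
      obtain ⟨u, e, y, rfl⟩ := S.surj z
      rw [ha, hb, cons_zero, cons_zero]
    | succ i ih =>
      intro v z
      obtain ⟨u, e, y, rfl⟩ := S.surj z
      rw [ha, hb, cons_succ, cons_succ, ih]
  exact Xp_ext fun i => key i v z

/-- The tail orbit of a backward path. -/
def xorb {v : V} (x : Xp E v) : Orb (sft (RE E)) := orb (sft (RE E)) x.1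

theorem xorb_cons {u v : V} (e : E u v) (y : Xp E u) : xorb (cons e y) = xorb y := by
  unfold xorb
  rw [← orb_apply (cons e y).1, sft_cons]

variable (E)

/-- The diagram of one tail orbit. -/
def Eo (ω : Orb (sft (RE E))) : PtD E where
  S v := {x : Xp E v // xorb x = ω}
  map e y := ⟨cons e y.1, by rw [xorb_cons, y.2]⟩
  bij v := by
    constructor
    · rintro ⟨u, e, y, hy⟩ ⟨u', e', y', hy'⟩ h
      have h' : cons e y = cons e' y' := congrArg Subtype.val h
      have h2 := cons_inj h'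
      have hu : u = u' := congrArg (fun z : (Σ u, E u v × Xp E u) => z.1) h2
      subst hu
      have h3 := eq_of_heq (Sigma.mk.inj_iff.1 h2).2
      have he : e = e' := congrArg Prod.fst h3
      have hy2 : y = y' := congrArg Prod.snd h3
      subst he
      subst hy2
      rfl
    · rintro ⟨x, hx⟩
      obtain ⟨u, e, y, rfl⟩ := exists_cons x
      exact ⟨⟨u, e, ⟨y, by rw [← hx, xorb_cons]⟩⟩, rfl⟩

variable {E}

/-- Every point of the shift space as a backward path. -/
def toXp (x : Om (RE E)) : Xp E (x.1 0).2.1 := ⟨x, rfl⟩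

theorem toXp_eq {v : V} (x : Xp E v) : (⟨v, x⟩ : Σ v, Xp E v) = ⟨_, toXp x.1⟩ := by
  obtain ⟨x, rfl⟩ := x
  rfl

end Pool.Agent.V1161.PS
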