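import Pool.Agent.V1161.PS.Cat

/-!
# Diagrams in the collage category: the two types
-/

namespace Pool.Agent.V1161.PS

open CategoryTheory CategoryTheory.Limits

variable {V : Type} (E : V → V → Type)

/-- Covariant diagrams of sets with the coproduct condition at every vertex. -/
structure PtD where
  /-- the sets -/
  S : V → Type
  /-- the maps -/
  map : ∀ {u v : V}, E u v → S u → S v
  /-- disjoint union condition -/
  bij : ∀ v, Function.Bijective (fun p : (Σ u, E u v × S u) => map p.2.1 p.2.2)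

/-- Contravariant diagrams of sets with the product condition at every vertex. -/
structure ShD where
  /-- the sets -/
  M : V → Type
  /-- the restrictions -/
  res : ∀ {u v : V}, E u v → M v → M u
  /-- product condition -/
  bij : ∀ v, Function.Bijective (fun (m : M v) (p : (Σ u, E u v)) => res p.2 m)

variable {E}

theorem PtD.surj (S : PtD E) {v : V} (z : S.S v) : ∃ u, ∃ e : E u v, ∃ y : S.S u, S.map e y = z := by
  obtain ⟨⟨u, e, y⟩, h⟩ := (S.bij v).2 z
  exact ⟨u, e, y, h⟩

theorem ShD.ext' (M : ShD E) {v : V} {m m' : M.M v}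
    (h : ∀ u (e : E u v), M.res e m = M.res e m') : m = m' :=
  (M.bij v).1 (funext fun p => h p.1 p.2)

theorem ShD.glue (M : ShD E) {v : V} (g : ∀ u, E u v → M.M u) :
    ∃ m : M.M v, ∀ u (e : E u v), M.res e m = g u e := by
  obtain ⟨m, hm⟩ := (M.bij v).2 (fun p => g p.1 p.2)
  exact ⟨m, fun u e => congrFun hm ⟨u, e⟩⟩

theorem up_pt (S : PtD E) (v : V) :
    UP (fun p : (Σ u, E u v) => Ob.pt (S.S p.1)) (Ob.pt (S.S v)) (fun p => S.map p.2) := by
  intro W g
  have hinj := (S.bij v).1
  let φ := Equiv.ofBijective _ (S.bij v)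
  have hφ : ∀ u (e : E u v) (y : S.S u), φ.symm (S.map e y) = ⟨u, e, y⟩ := by
    intro u e y
    rw [Equiv.symm_apply_eq]
    rfl
  cases W with
  | pt Z =>
    have key : ∃ h : S.S v → Z, ∀ u (e : E u v) (y : S.S u),
        h (S.map e y) = (g ⟨u, e⟩ : S.S u → Z) y := by
      refine ⟨fun z => (g ⟨(φ.symm z).1, (φ.symm z).2.1⟩ : S.S (φ.symm z).1 → Z) (φ.symm z).2.2, ?_⟩
      intro u e y
      show (g ⟨(φ.symm (S.map e y)).1, (φ.symm (S.map e y)).2.1⟩ : S.S _ → Z)
        (φ.symm (S.map e y)).2.2 = _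
      rw [hφ]
    obtain ⟨h, hh⟩ := key
    refine ⟨h, fun p => funext fun y => hh p.1 p.2 y, fun h' hh' => ?_⟩
    refine funext fun z => ?_
    obtain ⟨u, e, y, rfl⟩ := S.surj z
    exact (congrFun (hh' ⟨u, e⟩) y).trans (hh u e y).symm
  | sh M =>
    have key : ∃ h : M → S.S v → Bool, ∀ u (e : E u v) (m : M) (y : S.S u),
        h m (S.map e y) = (g ⟨u, e⟩ : M → S.S u → Bool) m y := by
      refine ⟨fun m z => (g ⟨(φ.symm z).1, (φ.symm z).2.1⟩ : M → S.S (φ.symm z).1 → Bool)
        m (φ.symm z).2.2, ?_⟩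
      intro u e m y
      show (g ⟨(φ.symm (S.map e y)).1, (φ.symm (S.map e y)).2.1⟩ : M → S.S _ → Bool) m
        (φ.symm (S.map e y)).2.2 = _
      rw [hφ]
    obtain ⟨h, hh⟩ := key
    refine ⟨h, fun p => funext fun m => funext fun y => hh p.1 p.2 m y, fun h' hh' => ?_⟩
    refine funext fun m => funext fun z => ?_
    obtain ⟨u, e, y, rfl⟩ := S.surj z
    exact (congrFun (congrFun (hh' ⟨u, e⟩) m) y).trans (hh u e m y).symm

theorem up_sh (M : ShD E) (v : V) (hv : ∃ u, Nonempty (E u v)) :
    UP (fun p : (Σ u, E u v) => Ob.sh (M.M p.1)) (Ob.sh (M.M v)) (fun p => M.res p.2) := by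
  intro W g
  cases W with
  | pt Z =>
    obtain ⟨u, ⟨e⟩⟩ := hv
    exact (g ⟨u, e⟩ : Empty).elim
  | sh N =>
    have key : ∀ n : N, ∃ m : M.M v, ∀ u (e : E u v),
        M.res e m = (g ⟨u, e⟩ : N → M.M u) n := fun n => M.glue fun u e => (g ⟨u, e⟩ : N → M.M u) n
    choose h hh using key
    refine ⟨h, fun p => funext fun n => hh n p.1 p.2, fun h' hh' => ?_⟩
    refine funext fun n => M.ext' fun u e => ?_
    exact (congrFun (hh' ⟨u, e⟩) n).trans (hh n u e).symm

/-- A covariant diagram as a diagram in the collage category. -/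
def ofPt (S : PtD E) : Diag Ob E where
  obj v := Ob.pt (S.S v)
  map e := S.map e
  coprod v _ := (up_iff _ _ _).2 (up_pt S v)

/-- A contravariant diagram as a diagram in the collage category. -/
def ofSh (M : ShD E) : Diag Ob E where
  obj v := Ob.sh (M.M v)
  map e := M.res e
  coprod v hv := (up_iff _ _ _).2 (up_sh M v hv)

theorem pt_bij {v : V} (S : V → Type) (map : ∀ u, E u v → S u → S v)
    (h : UP (fun p : (Σ u, E u v) => Ob.pt (S p.1)) (Ob.pt (S v)) (fun p => map p.1 p.2)) :
    Function.Bijective (fun p : (Σ u, E u v × S u) => map p.1 p.2.1 p.2.2) := by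
  obtain ⟨h₁, hh₁, -⟩ := h (Ob.pt (Σ u, E u v × S u))
    (fun p => (fun y => ⟨p.1, p.2, y⟩ : S p.1 → (Σ u, E u v × S u)))
  let k : S v → (Σ u, E u v × S u) := h₁
  have hk : ∀ u (e : E u v) (y : S u), k (map u e y) = ⟨u, e, y⟩ := fun u e y =>
    congrFun (hh₁ ⟨u, e⟩) y
  constructor
  · rintro ⟨u, e, y⟩ ⟨u', e', y'⟩ hp
    have hp' : map u e y = map u' e' y' := hp
    rw [← hk, ← hk, hp']
  · obtain ⟨h₂, -, hu⟩ := h (Ob.pt (S v)) (fun p => map p.1 p.2)
    have e1 := hu (fun z : S v => z) (fun p => rfl)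
    have e2 := hu (fun z : S v => map (k z).1 (k z).2.1 (k z).2.2) (fun p => funext fun y => by
      show map (k (map p.1 p.2 y)).1 (k (map p.1 p.2 y)).2.1 (k (map p.1 p.2 y)).2.2 = map p.1 p.2 y
      rw [hk])
    intro z
    refine ⟨k z, ?_⟩
    have e3 := congrFun (e2.trans e1.symm) z
    exact e3

theorem sh_bij {v : V} (M : V → Type) (res : ∀ u, E u v → M v → M u)
    (h : UP (fun p : (Σ u, E u v) => Ob.sh (M p.1)) (Ob.sh (M v)) (fun p => res p.1 p.2)) :
    Function.Bijective (fun (m : M v) (p : (Σ u, E u v)) => res p.1 p.2 m) := by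
  obtain ⟨h₁, hh₁, -⟩ := h (Ob.sh (∀ p : (Σ u, E u v), M p.1))
    (fun p => (fun g => g p : (∀ p : (Σ u, E u v), M p.1) → M p.1))
  let k : (∀ p : (Σ u, E u v), M p.1) → M v := h₁
  have hk : ∀ u (e : E u v) (g : ∀ p : (Σ u, E u v), M p.1), res u e (k g) = g ⟨u, e⟩ :=
    fun u e g => congrFun (hh₁ ⟨u, e⟩) g
  constructor
  · obtain ⟨h₂, -, hu⟩ := h (Ob.sh (M v)) (fun p => res p.1 p.2)
    have e1 := hu (fun z : M v => z) (fun p => rfl)
    have e2 := hu (fun z : M v => k (fun p => res p.1 p.2 z)) (fun p => funext fun y => by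
      show res p.1 p.2 (k (fun p => res p.1 p.2 y)) = res p.1 p.2 y
      rw [hk])
    intro m m' hm
    have e3 : ∀ z : M v, k (fun p => res p.1 p.2 z) = z := fun z => congrFun (e2.trans e1.symm) z
    rw [← e3 m, ← e3 m']
    exact congrArg k hm
  · intro g
    exact ⟨k g, funext fun p => hk p.1 p.2 g⟩

/-- Irreducibility of a directed graph. -/
def Irred (E : V → V → Type) : Prop :=
  ∀ u v : V, Relation.ReflTransGen (fun a b => Nonempty (E a b)) u v

/-- Every diagram in the collage category is of one of the two types. -/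
theorem diag_cases (hirr : Irred E) (hns : ∀ v : V, ∃ u, Nonempty (E u v)) (D : Diag Ob E) :
    (∃ S : PtD E, D = ofPt S) ∨ (∃ M : ShD E, D = ofSh M) := by
  by_cases h : ∃ u M, D.obj u = Ob.sh M
  · right
    obtain ⟨u, M, hM⟩ := h
    have hall : ∀ v, ∃ N, D.obj v = Ob.sh N := by
      intro v
      induction hirr u v with
      | refl => exact ⟨M, hM⟩
      | tail _ he ih =>
        rename_i a b _
        obtain ⟨e⟩ := he
        obtain ⟨N, hN⟩ := ih
        have f := D.map e
        cases hb : D.obj b with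
        | sh N' => exact ⟨N', rfl⟩
        | pt X =>
          rw [hb, hN] at f
          exact (f : Empty).elim
    choose N hN using hall
    obtain ⟨obj, map, cop⟩ := D
    obtain rfl : obj = fun v => Ob.sh (N v) := funext hN
    refine ⟨⟨N, fun e => map e, fun v => ?_⟩, rfl⟩
    exact sh_bij N (fun u e => map e) ((up_iff _ _ _).1 (cop v (hns v)))
  · left
    have hall : ∀ v, ∃ N, D.obj v = Ob.pt N := by
      intro v
      cases hb : D.obj v with
      | sh N' => exact absurd ⟨v, N', hb⟩ h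
      | pt X => exact ⟨X, rfl⟩
    choose N hN using hall
    obtain ⟨obj, map, cop⟩ := D
    obtain rfl : obj = fun v => Ob.pt (N v) := funext hN
    refine ⟨⟨N, fun e => map e, fun v => ?_⟩, rfl⟩
    exact pt_bij N (fun u e => map e) ((up_iff _ _ _).1 (cop v (hns v)))

/-! ### Morphisms -/

section Homs

/-- Components of a morphism between covariant diagrams. -/
def pp {S S' : PtD E} (f : ofPt S ⟶ ofPt S') (v : V) : S.S v → S'.S v := f.app v

/-- Components of a morphism from a covariant to a contravariant diagram. -/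
def ps {S : PtD E} {M : ShD E} (f : ofPt S ⟶ ofSh M) (v : V) : M.M v → S.S v → Bool := f.app v

/-- Components of a morphism between contravariant diagrams. -/
def ss {M N : ShD E} (f : ofSh M ⟶ ofSh N) (v : V) : N.M v → M.M v := f.app v

theorem pp_nat {S S' : PtD E} (f : ofPt S ⟶ ofPt S') {u v : V} (e : E u v) (y : S.S u) :
    pp f v (S.map e y) = S'.map e (pp f u y) :=
  congrFun (f.comm e) y

theorem ps_nat {S : PtD E} {M : ShD E} (f : ofPt S ⟶ ofSh M) {u v : V} (e : E u v) (m : M.M v)
    (y : S.S u) : ps f v m (S.map e y) = ps f u (M.res e m) y :=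
  congrFun (congrFun (f.comm e) m) y

theorem ss_nat {M N : ShD E} (f : ofSh M ⟶ ofSh N) {u v : V} (e : E u v) (n : N.M v) :
    ss f u (N.res e n) = M.res e (ss f v n) :=
  (congrFun (f.comm e) n).symm

/-- Construct a morphism between covariant diagrams. -/
def mkPP {S S' : PtD E} (a : ∀ v, S.S v → S'.S v)
    (h : ∀ {u v : V} (e : E u v) (y : S.S u), a v (S.map e y) = S'.map e (a u y)) :
    ofPt S ⟶ ofPt S' :=
  Diag.Hom.mk (fun v => a v) (fun e => funext fun y => h e y)

/-- Construct a morphism from a covariant to a contravariant diagram. -/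
def mkPS {S : PtD E} {M : ShD E} (a : ∀ v, M.M v → S.S v → Bool)
    (h : ∀ {u v : V} (e : E u v) (m : M.M v) (y : S.S u), a v m (S.map e y) = a u (M.res e m) y) :
    ofPt S ⟶ ofSh M :=
  Diag.Hom.mk (fun v => a v) (fun e => funext fun m => funext fun y => h e m y)

/-- Construct a morphism between contravariant diagrams. -/
def mkSS {M N : ShD E} (a : ∀ v, N.M v → M.M v)
    (h : ∀ {u v : V} (e : E u v) (n : N.M v), a u (N.res e n) = M.res e (a v n)) :
    ofSh M ⟶ ofSh N :=
  Diag.Hom.mk (fun v => a v) (fun e => funext fun n => (h e n).symm)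

theorem pp_ext {S S' : PtD E} {f g : ofPt S ⟶ ofPt S'} (h : ∀ v y, pp f v y = pp g v y) : f = g :=
  Diag.Hom.ext (funext fun v => funext fun y => h v y)

theorem ps_ext {S : PtD E} {M : ShD E} {f g : ofPt S ⟶ ofSh M}
    (h : ∀ v m y, ps f v m y = ps g v m y) : f = g :=
  Diag.Hom.ext (funext fun v => funext fun m => funext fun y => h v m y)

theorem ss_ext {M N : ShD E} {f g : ofSh M ⟶ ofSh N} (h : ∀ v n, ss f v n = ss g v n) : f = g :=
  Diag.Hom.ext (funext fun v => funext fun n => h v n)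

theorem sp_empty [Nonempty V] {M : ShD E} {S : PtD E} (f : ofSh M ⟶ ofPt S) : False :=
  (f.app (Classical.arbitrary V) : Empty).elim

end Homs

end Pool.Agent.V1161.PS
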