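import Pool.Agent.V1161.PS.Path

/-!
# Integer torsors among the contravariant diagrams
-/

namespace Pool.Agent.V1161.PS

open CategoryTheory CategoryTheory.Limits Function

/-- `T` is an integer torsor in a category: `T ⨿ T` is the product of copies of `T` indexed by
the integers, by means of the maps `(1, τ n)`. -/
def Tor {𝒟 : Type*} [Category 𝒟] (T : 𝒟) : Prop :=
  ∃ (τ : ℤ → (T ⟶ T)) (P : 𝒟) (i j : T ⟶ P) (π : ℤ → (P ⟶ T)),
    τ 0 = 𝟙 T ∧ (∀ m n, τ (m + n) = τ m ≫ τ n) ∧ (∀ n, i ≫ π n = 𝟙 T) ∧ (∀ n, j ≫ π n = τ n) ∧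
    (∀ X (a b : T ⟶ X), ∃! h : P ⟶ X, i ≫ h = a ∧ j ≫ h = b) ∧
    (∀ X (g : ℤ → (X ⟶ T)), ∃! h : X ⟶ P, ∀ n, h ≫ π n = g n)

variable {V : Type} {E : V → V → Type}

/-- The functions from a covariant diagram to a set. -/
def powD (S : PtD E) (Q : Type) : ShD E where
  M v := S.S v → Q
  res e φ := fun y => φ (S.map e y)
  bij v := by
    constructor
    · intro φ ψ h
      funext z
      obtain ⟨u, e, y, rfl⟩ := S.surj z
      exact congrFun (congrFun h ⟨u, e⟩) y
    · intro g
      refine ⟨fun z => g ⟨(S.unc v z).1, (S.unc v z).2.1⟩ (S.unc v z).2.2, ?_⟩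
      funext p
      funext y
      show g ⟨(S.unc v (S.map p.2 y)).1, (S.unc v (S.map p.2 y)).2.1⟩
        (S.unc v (S.map p.2 y)).2.2 = g p y
      rw [S.unc_map]

/-- Binary products of contravariant diagrams. -/
def prodD (M N : ShD E) : ShD E where
  M v := M.M v × N.M v
  res e p := (M.res e p.1, N.res e p.2)
  bij v := by
    constructor
    · rintro ⟨a, b⟩ ⟨a', b'⟩ h
      have h1 : a = a' := M.ext' fun u e => congrArg Prod.fst (congrFun h ⟨u, e⟩)
      have h2 : b = b' := N.ext' fun u e => congrArg Prod.snd (congrFun h ⟨u, e⟩)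
      rw [h1, h2]
    · intro g
      obtain ⟨a, ha⟩ := M.glue (v := v) fun u e => (g ⟨u, e⟩).1
      obtain ⟨b, hb⟩ := N.glue (v := v) fun u e => (g ⟨u, e⟩).2
      refine ⟨(a, b), funext fun p => ?_⟩
      exact Prod.ext (ha p.1 p.2) (hb p.1 p.2)

/-- Local membership in the orbit of a section. -/
inductive Near (T : ShD E) (τ : ℤ → ∀ v, T.M v → T.M v) : ∀ v, T.M v → T.M v → Prop
  | base (v : V) (t : T.M v) (n : ℤ) : Near T τ v t (τ n v t)
  | step (v : V) (t t' : T.M v) (h : ∀ u (e : E u v), Near T τ u (T.res e t) (T.res e t')) :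
      Near T τ v t t'

theorem Near.restr {T : ShD E} {τ : ℤ → ∀ v, T.M v → T.M v}
    (hτ : ∀ n {u v : V} (e : E u v) (t : T.M v), τ n u (T.res e t) = T.res e (τ n v t))
    {u v : V} (e : E u v) {t t' : T.M v} (h : Near T τ v t t') :
    Near T τ u (T.res e t) (T.res e t') := by
  cases h with
  | base _ _ n =>
    rw [← hτ]
    exact Near.base u _ n
  | step _ _ _ h => exact h u e

/-- A locally simply transitive action of the integers. -/
structure LT (T : ShD E) where
  /-- the action -/
  τ : ℤ → ∀ v, T.M v → T.M v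
  nat : ∀ n {u v : V} (e : E u v) (t : T.M v), τ n u (T.res e t) = T.res e (τ n v t)
  zero : ∀ v t, τ 0 v t = t
  add : ∀ m n v t, τ (m + n) v t = τ m v (τ n v t)
  inj : ∀ m n v t, τ m v t = τ n v t → m = n
  near : ∀ v t t', Near T τ v t t'

section LemmaA

variable {T : ShD E} (L : LT T) {M : ShD E} (g : ℤ → ∀ v, T.M v → M.M v)

/-- The graph of the map out of the product. -/
inductive Rr : ∀ v, T.M v → T.M v → M.M v → Prop
  | base (v : V) (t : T.M v) (n : ℤ) : Rr v t (L.τ n v t) (g n v t)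
  | step (v : V) (t t' : T.M v) (m : M.M v)
      (h : ∀ u (e : E u v), Rr u (T.res e t) (T.res e t') (M.res e m)) : Rr v t t' m

theorem Rr.total {v : V} {t t' : T.M v} (h : Near T L.τ v t t') : ∃ m, Rr L g v t t' m := by
  induction h with
  | base v t n => exact ⟨_, Rr.base v t n⟩
  | step v t t' _ ih =>
    choose m hm using ih
    obtain ⟨m₀, hm₀⟩ := M.glue (v := v) m
    refine ⟨m₀, Rr.step v t t' m₀ fun u e => ?_⟩
    rw [hm₀]
    exact hm u e

variable {g} (hg : ∀ n {u v : V} (e : E u v) (t : T.M v), g n u (T.res e t) = M.res e (g n v t))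

include hg in
theorem Rr.base' {v : V} {t t' : T.M v} {m : M.M v} (h : Rr L g v t t' m) :
    ∀ n, t' = L.τ n v t → m = g n v t := by
  induction h with
  | base v t n =>
    intro n' hn
    rw [L.inj n n' v t hn]
  | step v t t' m _ ih =>
    intro n hn
    apply M.ext'
    intro u e
    rw [ih u e n (by rw [hn, L.nat]), hg]

include hg in
theorem Rr.unique {v : V} {t t' : T.M v} {m : M.M v} (h : Rr L g v t t' m) :
    ∀ m', Rr L g v t t' m' → m = m' := by
  induction h with
  | base v t n =>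
    intro m' h'
    exact (Rr.base' L hg h' n rfl).symm
  | step v t t' m hs ih =>
    intro m' h'
    cases h' with
    | base _ _ n => exact Rr.base' L hg (Rr.step v _ _ m hs) n rfl
    | step _ _ _ _ h'' =>
      apply M.ext'
      intro u e
      exact ih u e _ (h'' u e)

include hg in
theorem Rr.restr {u v : V} (e : E u v) {t t' : T.M v} {m : M.M v} (h : Rr L g v t t' m) :
    Rr L g u (T.res e t) (T.res e t') (M.res e m) := by
  cases h with
  | base _ _ n =>
    rw [← L.nat, ← hg]
    exact Rr.base u _ n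
  | step _ _ _ _ h'' => exact h'' u e

include hg in
/-- The universal property of `T × T`, for contravariant diagrams. -/
theorem LT.univ : ∃ h : ∀ v, T.M v × T.M v → M.M v,
    (∀ {u v : V} (e : E u v) p, h u ((prodD T T).res e p) = M.res e (h v p)) ∧
    (∀ n v t, h v (t, L.τ n v t) = g n v t) ∧
    ∀ h' : ∀ v, T.M v × T.M v → M.M v,
      (∀ {u v : V} (e : E u v) p, h' u ((prodD T T).res e p) = M.res e (h' v p)) →
      (∀ n v t, h' v (t, L.τ n v t) = g n v t) → ∀ v p, h' v p = h v p := by
  have hex : ∀ v (p : T.M v × T.M v), ∃ m, Rr L g v p.1 p.2 m := fun v p =>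
    Rr.total L g (L.near v p.1 p.2)
  choose h hh using hex
  refine ⟨h, ?_, ?_, ?_⟩
  · intro u v e p
    exact Rr.unique L hg (hh u ((prodD T T).res e p)) _ (Rr.restr L hg e (hh v p))
  · intro n v t
    exact Rr.unique L hg (hh v (t, L.τ n v t)) _ (Rr.base v t n)
  · intro h' h1 h2 v p
    have key : ∀ {v : V} {t t' : T.M v} {m : M.M v}, Rr L g v t t' m → h' v (t, t') = m := by
      intro v t t' m hR
      induction hR with
      | base v t n => exact h2 n v t
      | step v t t' m _ ih =>
        apply M.ext'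
        intro u e
        rw [← h1, ← ih u e]
        rfl
    exact key (hh v p)

end LemmaA

/-- The two factors and the graphs of the action. -/
theorem LT.tor [Nonempty V] (hirr : Irred E) (hns : ∀ v : V, ∃ u, Nonempty (E u v)) {T : ShD E}
    (L : LT T) : Tor (ofSh T) := by
  have hcomm : ∀ n m v t, L.τ n v (L.τ m v t) = L.τ m v (L.τ n v t) := by
    intro n m v t
    rw [← L.add, ← L.add, add_comm]
  refine ⟨fun n => mkSS (L.τ n) (fun e t => L.nat n e t), ofSh (prodD T T),
    mkSS (fun v p => p.1) (fun e p => rfl), mkSS (fun v p => p.2) (fun e p => rfl),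
    fun n => mkSS (fun v t => (t, L.τ n v t)) (fun e t => by
      show (T.res e t, L.τ n _ (T.res e t)) = (T.res e t, T.res e (L.τ n _ t))
      rw [L.nat]), ?_, ?_, ?_, ?_, ?_, ?_⟩
  · exact ss_ext fun v t => L.zero v t
  · intro m n
    exact ss_ext fun v t => L.add m n v t
  · intro n
    exact ss_ext fun v t => rfl
  · intro n
    exact ss_ext fun v t => rfl
  · intro X a b
    rcases diag_cases hirr hns X with ⟨S, rfl⟩ | ⟨M, rfl⟩
    · exact (sp_empty a).elim
    · refine ⟨mkSS (fun v m => (ss a v m, ss b v m)) (fun e m => by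
        show (ss a _ (M.res e m), ss b _ (M.res e m)) = (T.res e (ss a _ m), T.res e (ss b _ m))
        rw [ss_nat, ss_nat]), ⟨ss_ext fun v t => rfl, ss_ext fun v t => rfl⟩, ?_⟩
      rintro h ⟨h1, h2⟩
      refine ss_ext fun v m => ?_
      rw [← h1, ← h2]
      rfl
  · intro X g
    rcases diag_cases hirr hns X with ⟨S, rfl⟩ | ⟨M, rfl⟩
    · obtain ⟨h, h1, h2, h3⟩ := L.univ (M := powD S Bool) (g := fun n v t => ps (g n) v t)
        (fun n u v e t => by
          funext y
          exact (ps_nat (g n) e t y).symm)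
      refine ⟨mkPS (fun v p => h v p) (fun {u v} e p y => ?_), fun n => ?_, fun h' hh' => ?_⟩
      · exact (congrFun (h1 e p) y).symm
      · exact ps_ext fun v t y => congrFun (h2 n v t) y
      · refine ps_ext fun v p y => ?_
        have := h3 (fun v p => ps h' v p) (fun {u v} e p => by
          funext y
          exact (ps_nat h' e p y).symm) (fun n v t => by
          rw [← hh' n]
          rfl) v p
        exact congrFun this y
    · obtain ⟨h, h1, h2, h3⟩ := L.univ (M := M) (g := fun n v t => ss (g n) v t)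
        (fun n u v e t => ss_nat (g n) e t)
      refine ⟨mkSS (fun v p => h v p) (fun {u v} e p => h1 e p), fun n => ?_, fun h' hh' => ?_⟩
      · exact ss_ext fun v t => h2 n v t
      · refine ss_ext fun v p => ?_
        exact h3 (fun v p => ss h' v p) (fun {u v} e p => ss_nat h' e p) (fun n v t => by
          rw [← hh' n]
          rfl) v p

/-- The path spaces are nonempty when every vertex receives an edge. -/
theorem nonempty_Xp (hns : ∀ v : V, ∃ u, Nonempty (E u v)) (v : V) : Nonempty (Xp E v) := by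
  choose p hp using hns
  let e : ∀ v, E (p v) v := fun v => (hp v).some
  exact ⟨⟨⟨fun i => ⟨p (p^[i] v), p^[i] v, e _⟩, fun i => by
    show p^[i + 1] v = p (p^[i] v)
    rw [iterate_succ_apply']⟩, rfl⟩⟩

/-- A torsor in the category of diagrams is locally simply transitive. -/
theorem Tor.lt [Nonempty V] (hirr : Irred E) (hns : ∀ v : V, ∃ u, Nonempty (E u v)) {T : ShD E}
    (h : Tor (ofSh T)) : Nonempty (LT T) := by
  obtain ⟨τ, P₀, i, j, π, h0, hadd, hi, hj, hcop, hprod⟩ := h
  rcases diag_cases hirr hns P₀ with ⟨S, rfl⟩ | ⟨P, rfl⟩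
  · exact (sp_empty i).elim
  -- pointwise identities
  have hi' : ∀ n v t, ss i v (ss (π n) v t) = t := fun n v t =>
    congrArg (fun f : ofSh T ⟶ ofSh T => ss f v t) (hi n)
  have hj' : ∀ n v t, ss j v (ss (π n) v t) = ss (τ n) v t := fun n v t =>
    congrArg (fun f : ofSh T ⟶ ofSh T => ss f v t) (hj n)
  -- the pair map is bijective
  obtain ⟨h₁, ⟨hh1, hh2⟩, -⟩ := hcop (ofSh (prodD T T)) (mkSS (fun v p => p.1) (fun e p => rfl))
    (mkSS (fun v p => p.2) (fun e p => rfl))
  have hp1 : ∀ v (p : T.M v × T.M v), ss i v (ss h₁ v p) = p.1 := fun v p =>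
    congrArg (fun f : ofSh T ⟶ ofSh (prodD T T) => ss f v p) hh1
  have hp2 : ∀ v (p : T.M v × T.M v), ss j v (ss h₁ v p) = p.2 := fun v p =>
    congrArg (fun f : ofSh T ⟶ ofSh (prodD T T) => ss f v p) hh2
  have hpair : ∀ v (m : P.M v), ss h₁ v (ss i v m, ss j v m) = m := by
    obtain ⟨h₂, -, hu⟩ := hcop (ofSh P) i j
    let k : ofSh (prodD T T) ⟶ ofSh P := mkSS (fun v m => (ss i v m, ss j v m)) (fun e m => by
      show (ss i _ (P.res e m), ss j _ (P.res e m)) = (T.res e (ss i _ m), T.res e (ss j _ m))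
      rw [ss_nat, ss_nat])
    have e1 := hu (𝟙 _) ⟨Category.comp_id i, Category.comp_id j⟩
    have e2 := hu (h₁ ≫ k) ⟨ss_ext fun v m => hp1 v _, ss_ext fun v m => hp2 v _⟩
    intro v m
    exact congrArg (fun f : ofSh P ⟶ ofSh P => ss f v m) (e2.trans e1.symm)
  -- local transitivity
  let U : ShD E :=
    { M := fun v => {m : P.M v // Near T (fun n => ss (τ n)) v (ss i v m) (ss j v m)}
      res := fun {u v} e m => ⟨P.res e m.1, by
        rw [ss_nat i, ss_nat j]
        exact Near.restr (τ := fun n => ss (τ n)) (fun n u v e t => ss_nat (τ n) e t) e m.2⟩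
      bij := fun v => by
        constructor
        · rintro ⟨m, hm⟩ ⟨m', hm'⟩ hmm
          apply Subtype.ext
          exact P.ext' fun u e => congrArg Subtype.val (congrFun hmm ⟨u, e⟩)
        · intro g
          obtain ⟨m, hm⟩ := P.glue (v := v) (fun u e => (g ⟨u, e⟩).1)
          refine ⟨⟨m, Near.step v _ _ fun u e => ?_⟩, ?_⟩
          · rw [← ss_nat i, ← ss_nat j, hm]
            exact (g ⟨u, e⟩).2
          · funext p
            exact Subtype.ext (hm p.1 p.2) }
  have hU : ∀ v (m : P.M v), Near T (fun n => ss (τ n)) v (ss i v m) (ss j v m) := by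
    obtain ⟨h₂, -, hu⟩ := hprod (ofSh P) π
    let gU : ℤ → (ofSh U ⟶ ofSh T) := fun n => mkSS (M := U) (N := T)
      (fun v t => ⟨ss (π n) v t, by rw [hi', hj']; exact Near.base v t n⟩)
      (fun e t => Subtype.ext (ss_nat (π n) e t))
    obtain ⟨h₃, hh₃, -⟩ := hprod (ofSh U) gU
    let ι : ofSh P ⟶ ofSh U := mkSS (fun v m => m.1) (fun e m => rfl)
    have e1 := hu (𝟙 _) (fun n => Category.id_comp _)
    have e2 := hu (ι ≫ h₃) (fun n => by
      rw [Category.assoc, hh₃]
      rfl)
    intro v m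
    have e3 : (ss h₃ v m).1 = m :=
      congrArg (fun f : ofSh P ⟶ ofSh P => ss f v m) (e2.trans e1.symm)
    have e4 := (ss h₃ v m).2
    rw [e3] at e4
    exact e4
  refine ⟨⟨fun n => ss (τ n), fun n u v e t => ss_nat (τ n) e t, ?_, ?_, ?_, ?_⟩⟩
  · intro v t
    exact congrArg (fun f : ofSh T ⟶ ofSh T => ss f v t) h0
  · intro m n v t
    exact congrArg (fun f : ofSh T ⟶ ofSh T => ss f v t) (hadd m n)
  · intro m n v t hmn
    have e1 : ss (π m) v t = ss (π n) v t := by
      rw [← hpair v (ss (π m) v t), ← hpair v (ss (π n) v t), hi', hj', hi', hj', hmn]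
    obtain ⟨h₄, hh₄, -⟩ := hprod (ofSh (powD (XP E) ℤ)) (fun n =>
      mkSS (M := powD (XP E) ℤ) (N := T) (fun v t => fun _ => n) (fun e t => rfl))
    have e2 : ∀ n, ss h₄ v (ss (π n) v t) = fun _ => n := fun n =>
      congrArg (fun f : ofSh (powD (XP E) ℤ) ⟶ ofSh T => ss f v t) (hh₄ n)
    have e3 : (fun _ : (XP E).S v => m) = fun _ => n := by
      rw [← e2 m, ← e2 n, e1]
    obtain ⟨x⟩ := nonempty_Xp hns v
    exact congrFun e3 x
  · intro v t t'
    have := hU v (ss h₁ v (t, t'))
    rw [hp1, hp2] at this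
    exact this

end Pool.Agent.V1161.PS
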