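import Pool.Agent.V1161.PS.Markov

/-!
# The trace formula for the weighted transition matrix
-/

namespace Pool.Agent.V1161.PS

set_option linter.unusedSectionVars false

open Function Polynomial

variable {A : Type} [Fintype A] [DecidableEq A] (R : A → A → Prop) [DecidableRel R] (c : A → A → ℕ)

/-- The weighted transition matrix. -/
noncomputable def Lmat : Matrix A A ℤ[X] :=
  Matrix.of fun a b => if R a b then (X : ℤ[X]) ^ c a b else 0

/-- The Euler derivation. -/
noncomputable def theta : Derivation ℤ ℤ[X] ℤ[X] := (X : ℤ[X]) • (Polynomial.derivative' (R := ℤ))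

theorem theta_apply (p : ℤ[X]) : theta p = X * derivative p := rfl

theorem coeff_theta (p : ℤ[X]) (k : ℕ) : (theta p).coeff k = k * p.coeff k := by
  rw [theta_apply]
  cases k with
  | zero => simp
  | succ k =>
    rw [coeff_X_mul, coeff_derivative]
    push_cast
    ring

theorem theta_X_pow (k : ℕ) : theta ((X : ℤ[X]) ^ k) = (k : ℤ[X]) * X ^ k := by
  ext n
  rw [coeff_theta, ← C_eq_natCast, coeff_C_mul, coeff_X_pow]
  split_ifs with h
  · rw [h]
  · simp

variable {R} {c}

theorem prod_L (m : ℕ) (w : Fin (m + 1) → A) (h : ∀ i : Fin m, R (w i.castSucc) (w i.succ)) :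
    ∏ i : Fin m, Lmat R c (w i.castSucc) (w i.succ)
      = X ^ (∑ i : Fin m, c (w i.castSucc) (w i.succ)) := by
  rw [← Finset.prod_pow_eq_pow_sum]
  refine Finset.prod_congr rfl fun i _ => ?_
  unfold Lmat
  rw [Matrix.of_apply, if_pos (h i)]

theorem trace_formula (m : ℕ) :
    (Lmat R c ^ m * (Lmat R c).map theta).trace
      = ∑ x ∈ (fix_finite (R := R) (Nat.succ_pos m)).toFinset,
          ((c (x.1 m) (x.1 (m + 1)) : ℕ) : ℤ[X])
            * X ^ (∑ i ∈ Finset.range (m + 1), c (x.1 i) (x.1 (i + 1))) := by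
  rw [trace_pow_mul, sum_words (R := R)]
  · refine Finset.sum_congr rfl fun x hx => ?_
    have hx' : IsPeriodicPt (sft R) (m + 1) x :=
      (fix_finite (R := R) (Nat.succ_pos m)).mem_toFinset.1 hx
    have h0 : x.1 (m + 1) = x.1 0 := by
      rw [fix_mod hx' (m + 1), Nat.mod_self]
    have hR : R (x.1 m) (x.1 0) := by
      have := x.2 m
      rwa [h0] at this
    have hA : ∏ i : Fin m, Lmat R c (x.1 i) (x.1 (i + 1))
        = X ^ (∑ i : Fin m, c (x.1 i) (x.1 (i + 1))) :=
      prod_L m (fun i : Fin (m + 1) => x.1 i) (fun i => x.2 i)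
    have hB : (Lmat R c).map theta (x.1 m) (x.1 0)
        = ((c (x.1 m) (x.1 0) : ℕ) : ℤ[X]) * X ^ c (x.1 m) (x.1 0) := by
      unfold Lmat
      rw [Matrix.map_apply, Matrix.of_apply, if_pos hR, theta_X_pow]
    have hC : (∏ i : Fin m, Lmat R c (x.1 i) (x.1 (i + 1))) * (Lmat R c).map theta (x.1 m) (x.1 0)
        = ((c (x.1 m) (x.1 (m + 1)) : ℕ) : ℤ[X])
            * X ^ (∑ i ∈ Finset.range (m + 1), c (x.1 i) (x.1 (i + 1))) := by
      rw [hA, hB, Finset.sum_range_succ, h0, pow_add, Finset.sum_range]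
      ring
    exact hC
  · intro w hw
    by_cases h1 : ∀ i : Fin m, R (w i.castSucc) (w i.succ)
    · have h2 : ¬ R (w (Fin.last m)) (w 0) := fun h => hw ⟨h1, h⟩
      have : (Lmat R c).map theta (w (Fin.last m)) (w 0) = 0 := by
        unfold Lmat
        rw [Matrix.map_apply, Matrix.of_apply, if_neg h2, map_zero]
      rw [this, mul_zero]
    · push Not at h1
      obtain ⟨i, hi⟩ := h1
      have : ∏ i : Fin m, Lmat R c (w i.castSucc) (w i.succ) = 0 := by
        apply Finset.prod_eq_zero (Finset.mem_univ i)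
        unfold Lmat
        rw [Matrix.of_apply, if_neg hi]
      rw [this, zero_mul]

/-- The integer-valued two-letter function attached to `c`. -/
def cz (c : A → A → ℕ) : A → A → ℤ := fun a b => c a b

theorem birkhoff_cz (n : ℕ) (x : Om R) :
    birkhoffSum (sft R) (two (cz c)) n x
      = ((∑ i ∈ Finset.range n, c (x.1 i) (x.1 (i + 1)) : ℕ) : ℤ) := by
  rw [birkhoff_two]
  unfold cz
  push_cast
  rfl

theorem coeff_trace (m k : ℕ) :
    ((Lmat R c ^ m * (Lmat R c).map theta).trace).coeff k
      = ∑ x ∈ (fix_finite (R := R) (Nat.succ_pos m)).toFinset,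
          if birkhoffSum (sft R) (two (cz c)) (m + 1) x = k then two (cz c) x else 0 := by
  rw [trace_formula, finsetSum_coeff]
  have h1 : ∀ x : Om R, (((c (x.1 m) (x.1 (m + 1)) : ℕ) : ℤ[X])
      * X ^ (∑ i ∈ Finset.range (m + 1), c (x.1 i) (x.1 (i + 1)))).coeff k
      = if birkhoffSum (sft R) (two (cz c)) (m + 1) x = k then
          two (cz c) ((sft R)^[m] x) else 0 := by
    intro x
    rw [← C_eq_natCast, coeff_C_mul, coeff_X_pow, birkhoff_cz]
    have : two (cz c) ((sft R)^[m] x) = (c (x.1 m) (x.1 (m + 1)) : ℤ) := by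
      unfold two cz
      rw [sft_iterate, sft_iterate, zero_add, add_comm 1 m]
    rw [this]
    by_cases h : (∑ i ∈ Finset.range (m + 1), c (x.1 i) (x.1 (i + 1))) = k
    · rw [if_pos h.symm, if_pos (by exact_mod_cast h)]
      simp
    · rw [if_neg (Ne.symm h), if_neg (by exact_mod_cast h)]
      simp
  rw [Finset.sum_congr rfl fun x _ => h1 x]
  have hb : ∀ x : Om R, IsPeriodicPt (sft R) (m + 1) x →
      birkhoffSum (sft R) (two (cz c)) (m + 1) (sft R x)
        = birkhoffSum (sft R) (two (cz c)) (m + 1) x := by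
    intro x hx
    have h2 := birkhoffSum_apply_sub_birkhoffSum (sft R) (two (cz c)) (m + 1) x
    rw [hx.eq, sub_self] at h2
    exact sub_eq_zero.1 h2
  refine Finset.sum_nbij' (fun x => (sft R)^[m] x) (fun x => sft R x) ?_ ?_ ?_ ?_ ?_
  · intro x hx
    have hx' : IsPeriodicPt (sft R) (m + 1) x :=
      (fix_finite (R := R) (Nat.succ_pos m)).mem_toFinset.1 hx
    exact (fix_finite (R := R) (Nat.succ_pos m)).mem_toFinset.2 (hx'.apply_iterate m)
  · intro x hx
    have hx' : IsPeriodicPt (sft R) (m + 1) x :=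
      (fix_finite (R := R) (Nat.succ_pos m)).mem_toFinset.1 hx
    exact (fix_finite (R := R) (Nat.succ_pos m)).mem_toFinset.2 (hx'.apply_iterate 1)
  · intro x hx
    have hx' : IsPeriodicPt (sft R) (m + 1) x :=
      (fix_finite (R := R) (Nat.succ_pos m)).mem_toFinset.1 hx
    show sft R ((sft R)^[m] x) = x
    rw [← iterate_succ_apply' (sft R)]
    exact hx'
  · intro x hx
    have hx' : IsPeriodicPt (sft R) (m + 1) x :=
      (fix_finite (R := R) (Nat.succ_pos m)).mem_toFinset.1 hx
    show (sft R)^[m] (sft R x) = x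
    rw [← iterate_succ_apply (sft R)]
    exact hx'
  · intro x hx
    have hx' : IsPeriodicPt (sft R) (m + 1) x :=
      (fix_finite (R := R) (Nat.succ_pos m)).mem_toFinset.1 hx
    have h3 : ∀ j, birkhoffSum (sft R) (two (cz c)) (m + 1) ((sft R)^[j] x)
        = birkhoffSum (sft R) (two (cz c)) (m + 1) x := by
      intro j
      induction j with
      | zero => rfl
      | succ j ih => rw [iterate_succ_apply', hb _ (hx'.apply_iterate j), ih]
    rw [h3]

end Pool.Agent.V1161.PS
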