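import Pool.Agent.V1161.PS.Zeta

/-!
# Walks, positivity and potentials
-/

namespace Pool.Agent.V1161.PS

set_option linter.unusedSectionVars false

open Function

variable {A : Type} {R : A → A → Prop} {c : A → A → ℤ}

/-- There is a walk of length `n` from `a` to `b` of weight `w`. -/
def Wlk (R : A → A → Prop) (c : A → A → ℤ) (n : ℕ) (a b : A) (w : ℤ) : Prop :=
  ∃ u : ℕ → A, u 0 = a ∧ u n = b ∧ (∀ i < n, R (u i) (u (i + 1))) ∧
    ∑ i ∈ Finset.range n, c (u i) (u (i + 1)) = w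

theorem Wlk.nil (a : A) : Wlk R c 0 a a 0 := ⟨fun _ => a, rfl, rfl, fun i hi => absurd hi (by omega), by simp⟩

theorem Wlk.single {a b : A} (h : R a b) : Wlk R c 1 a b (c a b) := by
  refine ⟨fun i => if i = 0 then a else b, by simp, by simp, fun i hi => ?_, by simp⟩
  have : i = 0 := by omega
  subst this
  simpa using h

theorem Wlk.trans {n m : ℕ} {a b d : A} {w w' : ℤ} (h : Wlk R c n a b w) (h' : Wlk R c m b d w') :
    Wlk R c (n + m) a d (w + w') := by
  obtain ⟨u, u0, un, uR, uw⟩ := h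
  obtain ⟨v, v0, vm, vR, vw⟩ := h'
  let s : ℕ → A := fun i => if i < n then u i else v (i - n)
  have s1 : ∀ i ≤ n, s i = u i := by
    intro i hi
    rcases Nat.lt_or_ge i n with h | h
    · simp only [s, h, if_true]
    · have : i = n := le_antisymm hi h
      subst this
      simp only [s, lt_irrefl, if_false, Nat.sub_self]
      rw [v0, un]
  have s2 : ∀ i, s (n + i) = v i := by
    intro i
    have : ¬ n + i < n := by omega
    simp only [s, this, if_false, Nat.add_sub_cancel_left]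
  refine ⟨s, by rw [s1 0 (Nat.zero_le _), u0], by rw [s2, vm], ?_, ?_⟩
  · intro i hi
    rcases Nat.lt_or_ge i n with h | h
    · rw [s1 i h.le, s1 (i + 1) h]
      exact uR i h
    · obtain ⟨j, rfl⟩ := Nat.exists_eq_add_of_le h
      rw [s2, add_assoc, s2]
      exact vR j (by omega)
  · rw [Finset.sum_range_add]
    congr 1
    · rw [← uw]
      refine Finset.sum_congr rfl fun i hi => ?_
      have hi' := Finset.mem_range.1 hi
      rw [s1 i hi'.le, s1 (i + 1) hi']
    · rw [← vw]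
      refine Finset.sum_congr rfl fun i _ => ?_
      rw [s2, add_assoc, s2]

theorem Wlk.rep {n : ℕ} {a : A} {w : ℤ} (h : Wlk R c n a a w) (k : ℕ) :
    Wlk R c (k * n) a a (k * w) := by
  induction k with
  | zero => simpa using Wlk.nil (R := R) (c := c) a
  | succ k ih =>
    have := ih.trans h
    rw [Nat.succ_mul]
    have e : ((k + 1 : ℕ) : ℤ) * w = k * w + w := by push_cast; ring
    rw [e]
    exact this

theorem Wlk.exists_pt {n : ℕ} (hn : 0 < n) {a : A} {w : ℤ} (h : Wlk R c n a a w) :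
    ∃ x : Om R, IsPeriodicPt (sft R) n x ∧ birkhoffSum (sft R) (two c) n x = w := by
  obtain ⟨u, u0, un, uR, uw⟩ := h
  obtain ⟨x, -, -, h3, h4⟩ := close hn u uR (by rw [un, u0])
  exact ⟨x, h3, by rw [h4, uw]⟩

theorem Wlk.of_pt {n : ℕ} {x : Om R} (h : IsPeriodicPt (sft R) n x) :
    Wlk R c n (x.1 0) (x.1 0) (birkhoffSum (sft R) (two c) n x) := by
  refine ⟨x.1, rfl, ?_, fun i _ => x.2 i, ?_⟩
  · have := sft_iterate x n 0
    rw [h.eq, zero_add] at this
    exact this.symm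
  · rw [birkhoff_two]

/-- Irreducibility of a relation. -/
def Irr (R : A → A → Prop) : Prop := ∀ a b, Relation.TransGen R a b

theorem exists_walk {a b : A} (h : Relation.TransGen R a b) : ∃ n, 0 < n ∧ ∃ w, Wlk R c n a b w := by
  induction h with
  | single h => exact ⟨1, one_pos, _, Wlk.single h⟩
  | tail _ h ih =>
    obtain ⟨n, hn, w, hw⟩ := ih
    exact ⟨n + 1, Nat.succ_pos n, _, hw.trans (Wlk.single h)⟩

open Classical in
/-- The period of a tail orbit. -/
noncomputable def per {X : Type*} (σ : X → X) (ω : Orb σ) : ℕ :=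
  if h : ∃ x, orb σ x = ω ∧ x ∈ periodicPts σ then minimalPeriod σ h.choose else 0

theorem per_orb {X : Type*} {σ : X → X} {x : X} (hx : x ∈ periodicPts σ) :
    per σ (orb σ x) = minimalPeriod σ x := by
  have h : ∃ y, orb σ y = orb σ x ∧ y ∈ periodicPts σ := ⟨x, rfl, hx⟩
  unfold per
  rw [dif_pos h]
  obtain ⟨k, hk⟩ := exists_iterate h.choose_spec.2 h.choose_spec.1.symm
  rw [← hk, minimalPeriod_apply_iterate hx]

theorem no_zero (hirr : Irr R)
    (hfin : ∀ k, 0 < k → {ω : Orb (sft R) | wt (sft R) (two c) ω = k}.Finite)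
    (hne : ∃ ω : Orb (sft R), wt (sft R) (two c) ω ≠ 0) {n : ℕ} (hn : 0 < n) {a : A} :
    ¬ Wlk R c n a a 0 := by
  intro hz
  -- a closed walk at `a` of nonzero weight
  have hex : ∃ m, 0 < m ∧ ∃ w, w ≠ 0 ∧ Wlk R c m a a w := by
    obtain ⟨ω, hω⟩ := hne
    obtain ⟨x, rfl, hx⟩ := exists_of_wt_ne_zero _ hω
    rw [wt_orb _ hx] at hω
    have hω' : ell (σ := sft R) (two c) x ≠ 0 := fun h => hω (by rw [h]; rfl)
    have hW := Wlk.of_pt (c := c) (isPeriodicPt_minimalPeriod (sft R) x)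
    have hq : 0 < minimalPeriod (sft R) x := minimalPeriod_pos_of_mem_periodicPts hx
    obtain ⟨n₁, hn₁, w₁, h₁⟩ := exists_walk (c := c) (hirr a (x.1 0))
    obtain ⟨n₂, hn₂, w₂, h₂⟩ := exists_walk (c := c) (hirr (x.1 0) a)
    by_cases h12 : w₁ + w₂ = 0
    · refine ⟨n₁ + minimalPeriod (sft R) x + n₂, by omega, _, ?_, (h₁.trans hW).trans h₂⟩
      unfold ell at hω'
      intro h
      apply hω'
      linarith
    · exact ⟨n₁ + n₂, by omega, _, h12, h₁.trans h₂⟩
  obtain ⟨m, hm, w, hw, hW⟩ := hex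
  have hF : {ω : Orb (sft R) | wt (sft R) (two c) ω ≠ 0 ∧ wt (sft R) (two c) ω ≤ w.natAbs}.Finite := by
    have h1 : (⋃ k ∈ Set.Icc 1 w.natAbs, {ω : Orb (sft R) | wt (sft R) (two c) ω = k}).Finite := by
      apply Set.Finite.biUnion (Set.finite_Icc _ _)
      intro k hk
      exact hfin k (by have := hk.1; omega)
    apply h1.subset
    intro ω hω
    rw [Set.mem_iUnion₂]
    exact ⟨wt (sft R) (two c) ω, ⟨Nat.one_le_iff_ne_zero.2 hω.1, hω.2⟩, rfl⟩
  have hB := (hF.image (per (sft R))).bddAbove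
  obtain ⟨Q, hQ⟩ := hB
  -- closed walks of length `k n + m` and weight `w`
  have key : ∀ k : ℕ, k * n + m ≤ w.natAbs * Q := by
    intro k
    have h1 : Wlk R c (k * n + m) a a w := by
      have := (hz.rep k).trans hW
      simpa using this
    obtain ⟨x, hx, hs⟩ := h1.exists_pt (by omega)
    obtain ⟨d, hd, hs'⟩ := birkhoff_of_isPeriodicPt (two c) hx
    rw [hs] at hs'
    have hxp : x ∈ periodicPts (sft R) := ⟨k * n + m, by omega, hx⟩
    have h2 : w.natAbs = d * (ell (σ := sft R) (two c) x).natAbs := by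
      rw [hs', Int.natAbs_mul, Int.natAbs_natCast]
    have hw0 : 0 < w.natAbs := Int.natAbs_pos.2 hw
    have hd0 : 0 < d := by
      rcases Nat.eq_zero_or_pos d with h | h
      · rw [h, zero_mul] at h2; omega
      · exact h
    have hl0 : 0 < (ell (σ := sft R) (two c) x).natAbs := by
      rcases Nat.eq_zero_or_pos (ell (σ := sft R) (two c) x).natAbs with h | h
      · rw [h, mul_zero] at h2; omega
      · exact h
    have h3 : minimalPeriod (sft R) x ≤ Q := by
      apply hQ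
      refine ⟨orb (sft R) x, ⟨?_, ?_⟩, per_orb hxp⟩
      · rw [wt_orb _ hxp]; omega
      · rw [wt_orb _ hxp, h2]
        exact Nat.le_mul_of_pos_left _ hd0
    rw [hd]
    apply Nat.mul_le_mul _ h3
    rw [h2]
    exact Nat.le_mul_of_pos_right _ hl0
  have h5 := key (w.natAbs * Q)
  have h6 : w.natAbs * Q ≤ w.natAbs * Q * n := Nat.le_mul_of_pos_right _ hn
  omega

theorem pos_or_neg (hirr : Irr R)
    (hfin : ∀ k, 0 < k → {ω : Orb (sft R) | wt (sft R) (two c) ω = k}.Finite)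
    (hne : ∃ ω : Orb (sft R), wt (sft R) (two c) ω ≠ 0) :
    Pos R (two c) ∨ Pos R (fun x => - two c x) := by
  by_contra hcon
  rw [not_or] at hcon
  obtain ⟨h1, h2⟩ := hcon
  have hno := fun {n : ℕ} (hn : 0 < n) {a : A} => no_zero (c := c) hirr hfin hne (n := n) hn (a := a)
  unfold Pos at h1 h2
  push Not at h1 h2
  obtain ⟨n, hn, x, hx, hxs⟩ := h1
  obtain ⟨m, hm, y, hy, hys⟩ := h2
  have hneg : birkhoffSum (sft R) (fun x => - two c x) m y
      = - birkhoffSum (sft R) (two c) m y := by simp [birkhoffSum]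
  rw [hneg] at hys
  have W1 := Wlk.of_pt (c := c) hx
  have W2 := Wlk.of_pt (c := c) hy
  generalize birkhoffSum (sft R) (two c) n x = w at *
  generalize birkhoffSum (sft R) (two c) m y = w' at *
  have hw : w < 0 := by
    rcases lt_or_eq_of_le hxs with h | h
    · exact h
    · rw [h] at W1
      exact absurd W1 (hno hn)
  have hw' : 0 < w' := by
    rcases lt_or_eq_of_le (neg_nonpos.1 hys) with h | h
    · exact h
    · rw [← h] at W2
      exact absurd W2 (hno hm)
  obtain ⟨n₁, hn₁, w₁, h₁⟩ := exists_walk (c := c) (hirr (x.1 0) (y.1 0))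
  obtain ⟨n₂, hn₂, w₂, h₂⟩ := exists_walk (c := c) (hirr (y.1 0) (x.1 0))
  have hM := (h₁.trans (W2.rep ((w₁ + w₂).natAbs + 1))).trans h₂
  generalize hLdef : n₁ + ((w₁ + w₂).natAbs + 1) * m + n₂ = L at hM
  generalize hWdef : w₁ + (((w₁ + w₂).natAbs + 1 : ℕ) : ℤ) * w' + w₂ = W at hM
  have hL : 0 < L := by omega
  have hW : 0 < W := by
    rw [← hWdef]
    push_cast
    have h3 : -(|w₁ + w₂|) ≤ w₁ + w₂ := neg_abs_le _
    have h4 : |w₁ + w₂| * 1 ≤ |w₁ + w₂| * w' :=
      mul_le_mul_of_nonneg_left hw' (abs_nonneg _)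
    linarith
  have hz := (W1.rep W.toNat).trans (hM.rep (-w).toNat)
  have e1 : ((W.toNat : ℕ) : ℤ) = W := Int.toNat_of_nonneg hW.le
  have e2 : (((-w).toNat : ℕ) : ℤ) = -w := Int.toNat_of_nonneg (by linarith)
  rw [e1, e2] at hz
  have e3 : W * w + -w * W = 0 := by ring
  rw [e3] at hz
  refine hno ?_ hz
  have h5 : 0 < W.toNat := by omega
  have h6 : 0 < W.toNat * n := Nat.mul_pos h5 hn
  omega

/-- The potential. -/
theorem exists_potential (hirr : Irr R) (hpos : Pos R (two c)) :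
    ∃ h : A → ℤ, ∀ a b, R a b → 0 ≤ c a b + h a - h b := by
  rcases isEmpty_or_nonempty A with hA | ⟨⟨a₀⟩⟩
  · exact ⟨fun _ => 0, fun a => (hA.false a).elim⟩
  have hex : ∀ b, ∃ lb : ℤ, (∃ n, Wlk R c n a₀ b lb) ∧ ∀ z, (∃ n, Wlk R c n a₀ b z) → lb ≤ z := by
    intro b
    apply Int.exists_least_of_bdd
    · obtain ⟨n₂, hn₂, w₂, h₂⟩ := exists_walk (c := c) (hirr b a₀)
      refine ⟨- w₂, ?_⟩
      rintro z ⟨n, hz⟩
      obtain ⟨x, hx, hs⟩ := (hz.trans h₂).exists_pt (by omega)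
      have := hpos _ (by omega) x hx
      rw [hs] at this
      linarith
    · obtain ⟨n₁, hn₁, w₁, h₁⟩ := exists_walk (c := c) (hirr a₀ b)
      exact ⟨w₁, n₁, h₁⟩
  choose h hh1 hh2 using hex
  refine ⟨h, fun a b hab => ?_⟩
  obtain ⟨n, hn⟩ := hh1 a
  have := hh2 b _ ⟨n + 1, hn.trans (Wlk.single hab)⟩
  linarith

/-- Normalisation to nonnegative weights. -/
theorem exists_nat (hirr : Irr R) (hpos : Pos R (two c)) :
    ∃ d : A → A → ℕ, Pos R (two (cz d)) ∧
      ∀ ω : Orb (sft R), wt (sft R) (two (cz d)) ω = wt (sft R) (two c) ω := by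
  obtain ⟨h, hh⟩ := exists_potential hirr hpos
  have h1 : (two (cz fun a b => (c a b + h a - h b).toNat) : Om R → ℤ)
      = fun x => two c x + (fun y : Om R => h (y.1 0)) x - (fun y : Om R => h (y.1 0)) (sft R x) := by
    funext x
    show (((c (x.1 0) (x.1 1) + h (x.1 0) - h (x.1 1)).toNat : ℕ) : ℤ) = _
    rw [Int.toNat_of_nonneg (hh _ _ (x.2 0))]
    rfl
  refine ⟨fun a b => (c a b + h a - h b).toNat, ?_, ?_⟩
  · intro n hn x hx
    rw [h1, birkhoff_cob, hx.eq]
    have := hpos n hn x hx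
    linarith
  · intro ω
    rw [h1]
    exact wt_cob (two c) (fun y : Om R => h (y.1 0)) ω

end Pool.Agent.V1161.PS
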