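import Pool.Agent.V1161.PS.Main
import Pool.Agent.V1161.PS.GraphDefs

/-!
# Comparison of the two descriptions of directed graphs and diagrams
-/

namespace Pool.Agent.V1161.PS

open CategoryTheory CategoryTheory.Limits

section Compare

variable {C : Type*} [Category C] (G : Graph)

/-- The edges from `u` to `v`. -/
abbrev Graph.edges (u v : G.V) : Type := {e : G.E // G.s e = u ∧ G.t e = v}

variable {G}

/-- From source-target diagrams to diagrams indexed by edge sets. -/
def toDiag (D : Diagram C G) : Diag C G.edges where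
  obj := D.obj
  map {u v} e := eqToHom (congrArg D.obj e.2.1.symm) ≫ D.map e.1 ≫ eqToHom (congrArg D.obj e.2.2)
  coprod v hv := by
    rw [up_iff]
    have h1 : ∃ e, G.t e = v := by
      obtain ⟨u, ⟨e⟩⟩ := hv
      exact ⟨e.1, e.2.2⟩
    have h2 := (up_iff _ _ _).1 (D.coprod v h1)
    intro W g
    obtain ⟨h, hh, hu⟩ := h2 W (fun e => g ⟨G.s e.1, ⟨e.1, rfl, e.2⟩⟩)
    refine ⟨h, ?_, ?_⟩
    · rintro ⟨u, ⟨e, rfl, he⟩⟩
      have := hh ⟨e, he⟩
      show (eqToHom _ ≫ D.map e ≫ eqToHom _) ≫ h = _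
      rw [eqToHom_refl, Category.id_comp]
      exact this
    · intro k hk
      apply hu
      rintro ⟨e, he⟩
      have := hk ⟨G.s e, ⟨e, rfl, he⟩⟩
      have h3 : (eqToHom (congrArg D.obj (rfl : G.s e = G.s e)) ≫ D.map e ≫
        eqToHom (congrArg D.obj he)) ≫ k = g ⟨G.s e, ⟨e, rfl, he⟩⟩ := this
      rw [eqToHom_refl, Category.id_comp] at h3
      exact h3

/-- From diagrams indexed by edge sets to source-target diagrams. -/
def ofDiag (D : Diag C G.edges) : Diagram C G where
  obj := D.obj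
  map e := D.map ⟨e, rfl, rfl⟩
  coprod v hv := by
    rw [up_iff]
    have h1 : ∃ u, Nonempty (G.edges u v) := by
      obtain ⟨e, he⟩ := hv
      exact ⟨G.s e, ⟨⟨e, rfl, he⟩⟩⟩
    have h2 := (up_iff _ _ _).1 (D.coprod v h1)
    have key : ∀ (e : G.E) (he : G.t e = v), D.map (⟨e, rfl, rfl⟩ : G.edges (G.s e) (G.t e)) ≫
        eqToHom (congrArg D.obj he) = D.map (⟨e, rfl, he⟩ : G.edges (G.s e) v) := by
      rintro e rfl
      rw [eqToHom_refl, Category.comp_id]
    intro W g
    obtain ⟨h, hh, hu⟩ := h2 W (fun p => eqToHom (congrArg D.obj p.2.2.1.symm) ≫ g ⟨p.2.1, p.2.2.2⟩)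
    refine ⟨h, ?_, ?_⟩
    · rintro ⟨e, he⟩
      have h3 := hh ⟨G.s e, ⟨e, rfl, he⟩⟩
      show (D.map (⟨e, rfl, rfl⟩ : G.edges (G.s e) (G.t e)) ≫ eqToHom (congrArg D.obj he)) ≫ h = _
      rw [key e he]
      have h4 : D.map (⟨e, rfl, he⟩ : G.edges (G.s e) v) ≫ h
        = eqToHom (congrArg D.obj (rfl : G.s e = G.s e)) ≫ g ⟨e, he⟩ := h3
      rw [eqToHom_refl, Category.id_comp] at h4
      exact h4
    · intro k hk
      apply hu
      rintro ⟨u, ⟨e, rfl, he⟩⟩
      have h3 : (D.map (⟨e, rfl, rfl⟩ : G.edges (G.s e) (G.t e)) ≫ eqToHom (congrArg D.obj he)) ≫ k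
        = g ⟨e, he⟩ := hk ⟨e, he⟩
      rw [key e he] at h3
      show D.map (⟨e, rfl, he⟩ : G.edges (G.s e) v) ≫ k
        = eqToHom (congrArg D.obj (rfl : G.s e = G.s e)) ≫ g ⟨e, he⟩
      rw [eqToHom_refl, Category.id_comp]
      exact h3

variable (C G)

/-- The two descriptions of diagrams are equivalent. -/
def diagEquiv : Diagram C G ≌ Diag C G.edges where
  functor :=
    { obj := toDiag
      map := fun {D D'} f => Diag.Hom.mk f.app (by
        rintro u v ⟨e, rfl, rfl⟩
        show (eqToHom _ ≫ D.map e ≫ eqToHom _) ≫ f.app _ = f.app _ ≫ (eqToHom _ ≫ D'.map e ≫ eqToHom _)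
        simp only [eqToHom_refl, Category.comp_id, Category.id_comp]
        exact f.comm e)
      map_id := fun _ => rfl
      map_comp := fun _ _ => rfl }
  inverse :=
    { obj := ofDiag
      map := fun {D D'} f => Diagram.Hom.mk f.app (fun e => f.comm (⟨e, rfl, rfl⟩ : G.edges _ _))
      map_id := fun _ => rfl
      map_comp := fun _ _ => rfl }
  unitIso := NatIso.ofComponents (fun D =>
    { hom := Diagram.Hom.mk (fun v => 𝟙 _) (fun e => by
        show D.map e ≫ 𝟙 _ = 𝟙 _ ≫ (eqToHom _ ≫ D.map e ≫ eqToHom _)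
        simp only [eqToHom_refl, Category.comp_id, Category.id_comp])
      inv := Diagram.Hom.mk (fun v => 𝟙 _) (fun e => by
        show (eqToHom _ ≫ D.map e ≫ eqToHom _) ≫ 𝟙 _ = 𝟙 _ ≫ D.map e
        simp only [eqToHom_refl, Category.comp_id, Category.id_comp])
      hom_inv_id := Diagram.Hom.ext (funext fun v => Category.comp_id _)
      inv_hom_id := Diagram.Hom.ext (funext fun v => Category.comp_id _) })
    (fun {D D'} f => Diagram.Hom.ext (funext fun v => by
      show f.app v ≫ 𝟙 _ = 𝟙 _ ≫ f.app v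
      rw [Category.comp_id, Category.id_comp]))
  counitIso := NatIso.ofComponents (fun D =>
    { hom := Diag.Hom.mk (fun v => 𝟙 _) (by
        rintro u v ⟨e, rfl, rfl⟩
        show (eqToHom _ ≫ D.map (⟨e, rfl, rfl⟩ : G.edges _ _) ≫ eqToHom _) ≫ 𝟙 _
          = 𝟙 _ ≫ D.map (⟨e, rfl, rfl⟩ : G.edges _ _)
        simp only [eqToHom_refl, Category.comp_id, Category.id_comp])
      inv := Diag.Hom.mk (fun v => 𝟙 _) (by
        rintro u v ⟨e, rfl, rfl⟩
        show D.map (⟨e, rfl, rfl⟩ : G.edges _ _) ≫ 𝟙 _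
          = 𝟙 _ ≫ (eqToHom _ ≫ D.map (⟨e, rfl, rfl⟩ : G.edges _ _) ≫ eqToHom _)
        simp only [eqToHom_refl, Category.comp_id, Category.id_comp])
      hom_inv_id := Diag.Hom.ext (funext fun v => Category.comp_id _)
      inv_hom_id := Diag.Hom.ext (funext fun v => Category.comp_id _) })
    (fun {D D'} f => Diag.Hom.ext (funext fun v => by
      show f.app v ≫ 𝟙 _ = 𝟙 _ ≫ f.app v
      rw [Category.comp_id, Category.id_comp]))
  functor_unitIso_comp D := Diag.Hom.ext (funext fun v => Category.comp_id _)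

end Compare

theorem irred_edges {G : Graph} (h : G.Irreducible) : Irred G.edges := by
  intro u v
  have h0 : ∀ a b : G.V, (∃ e : G.E, G.s e = a ∧ G.t e = b) → Nonempty (G.edges a b) := by
    rintro a b ⟨e, h1, h2⟩
    exact ⟨⟨e, h1, h2⟩⟩
  exact Relation.ReflTransGen.mono h0 u v (h u v)

open Classical in
theorem PS_edges (G : Graph) [Fintype G.V] [Fintype G.E] : PS G.edges = G.parrySullivan := by
  unfold PS Graph.parrySullivan Graph.adj
  congr 2
  ext1 u v
  rw [Matrix.of_apply, Matrix.of_apply, Nat.card_eq_fintype_card]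

/-- The main theorem for graphs given by source and target maps. -/
theorem main_graph (G H : Graph) [Fintype G.V] [Fintype G.E] [Nonempty G.V] [Fintype H.V]
    [Fintype H.E] [Nonempty H.V] (hG : G.Irreducible) (hH : H.Irreducible)
    (h : Nonempty (Diagram Ob G ≌ Diagram Ob H)) : G.parrySullivan = H.parrySullivan := by
  classical
  obtain ⟨e⟩ := h
  rw [← PS_edges, ← PS_edges]
  exact main G.edges H.edges (irred_edges hG) (irred_edges hH)
    ⟨((diagEquiv Ob G).symm.trans e).trans (diagEquiv Ob H)⟩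

end Pool.Agent.V1161.PS
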