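import Pool.Agent.V1161.PS.Long

/-!
# The logarithmic derivative of the determinant as a sum over periodic orbits
-/

namespace Pool.Agent.V1161.PS

set_option linter.unusedSectionVars false

open Function Polynomial

/-- Sum of the weights dividing `k`. -/
noncomputable def Wk {X : Type*} (σ : X → X) (f : X → ℤ) (k : ℕ) : ℤ :=
  open Classical in
  ∑ᶠ ω : Orb σ, if k ≠ 0 ∧ wt σ f ω ≠ 0 ∧ wt σ f ω ∣ k then (wt σ f ω : ℤ) else 0

theorem Wk_zero {X : Type*} (σ : X → X) (f : X → ℤ) : Wk σ f 0 = 0 := by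
  unfold Wk
  simp

theorem Wk_congr {X Y : Type*} {σ : X → X} {τ : Y → Y} {f : X → ℤ} {g : Y → ℤ}
    (e : Orb σ ≃ Orb τ) (h : ∀ ω, wt τ g (e ω) = wt σ f ω) (k : ℕ) : Wk τ g k = Wk σ f k := by
  unfold Wk
  rw [← finsum_comp_equiv e]
  simp_rw [h]

variable {A : Type} [Fintype A] [DecidableEq A] {R : A → A → Prop} [DecidableRel R] {c : A → A → ℕ}

theorem ell_pos (hpos : Pos R (two (cz c))) {x : Om R} (hx : x ∈ periodicPts (sft R)) :
    0 < ell (σ := sft R) (two (cz c)) x :=
  hpos _ (minimalPeriod_pos_of_mem_periodicPts hx) x (isPeriodicPt_minimalPeriod _ _)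

/-- The periodic points whose orbit weight divides `k`. -/
def Tset (R : A → A → Prop) (c : A → A → ℕ) (k : ℕ) : Set (Om R) :=
  {x | x ∈ periodicPts (sft R) ∧ (ell (σ := sft R) (two (cz c)) x).natAbs ∣ k}

theorem minPer_lt (hpos : Pos R (two (cz c))) {k : ℕ} (hk : 0 < k) {x : Om R}
    (hx : x ∈ Tset R c k) : minimalPeriod (sft R) x < Fintype.card A * (k + 1) := by
  have h1 := ell_pos hpos hx.1
  have h2 : (ell (σ := sft R) (two (cz c)) x).natAbs ≤ k := Nat.le_of_dvd hk hx.2
  have h3 : birkhoffSum (sft R) (two (cz c)) (minimalPeriod (sft R) x) x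
      = ((ell (σ := sft R) (two (cz c)) x).natAbs : ℤ) := by
    unfold ell at *
    omega
  have h4 := len_lt hpos h3
  exact lt_of_lt_of_le h4 (Nat.mul_le_mul_left _ (by omega))

theorem Tset_finite (hpos : Pos R (two (cz c))) {k : ℕ} (hk : 0 < k) : (Tset R c k).Finite := by
  have h1 : (⋃ m ∈ Set.Iio (Fintype.card A * (k + 1)), fixSet R (m + 1)).Finite := by
    apply Set.Finite.biUnion (Set.finite_Iio _)
    intro m _
    exact fix_finite (Nat.succ_pos m)
  apply h1.subset
  intro x hx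
  have h2 := minPer_lt hpos hk hx
  have h3 : 0 < minimalPeriod (sft R) x := minimalPeriod_pos_of_mem_periodicPts hx.1
  rw [Set.mem_iUnion₂]
  refine ⟨minimalPeriod (sft R) x - 1, by rw [Set.mem_Iio]; omega, ?_⟩
  rw [Nat.sub_add_cancel h3]
  exact isPeriodicPt_minimalPeriod _ _

theorem unique_len (hpos : Pos R (two (cz c))) {k : ℕ} (hk : 0 < k) {x : Om R}
    (hx : x ∈ Tset R c k) : ∃ m₀ : ℕ, m₀ + 1 < Fintype.card A * (k + 1) ∧
      ∀ m, (IsPeriodicPt (sft R) (m + 1) x ∧ birkhoffSum (sft R) (two (cz c)) (m + 1) x = k)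
        ↔ m = m₀ := by
  have h1 := ell_pos hpos hx.1
  have hq : 0 < minimalPeriod (sft R) x := minimalPeriod_pos_of_mem_periodicPts hx.1
  obtain ⟨d, hd⟩ := hx.2
  have he : ((ell (σ := sft R) (two (cz c)) x).natAbs : ℤ) = ell (σ := sft R) (two (cz c)) x := by
    omega
  have hd0 : 0 < d := by
    rcases Nat.eq_zero_or_pos d with h | h
    · rw [h] at hd; omega
    · exact h
  have hlen : 0 < d * minimalPeriod (sft R) x := Nat.mul_pos hd0 hq
  have hS : birkhoffSum (sft R) (two (cz c)) (d * minimalPeriod (sft R) x) x = k := by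
    have h8 : (k : ℤ) = ((ell (σ := sft R) (two (cz c)) x).natAbs : ℤ) * d := by
      rw [hd, Nat.cast_mul]
    rw [birkhoff_mul, h8, he]
    ring
  refine ⟨d * minimalPeriod (sft R) x - 1, ?_, ?_⟩
  · rw [Nat.sub_add_cancel hlen]
    exact len_lt hpos hS
  · intro m
    constructor
    · rintro ⟨hp, hs⟩
      obtain ⟨d', hd', hs'⟩ := birkhoff_of_isPeriodicPt (two (cz c)) hp
      rw [hs] at hs'
      have h5 : (d' : ℤ) * ell (σ := sft R) (two (cz c)) x
          = d * ell (σ := sft R) (two (cz c)) x := by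
        rw [← hs', ← hS, birkhoff_mul]
      have h6 : (d' : ℤ) = d := mul_right_cancel₀ h1.ne' h5
      have h7 : d' = d := by exact_mod_cast h6
      rw [h7] at hd'
      omega
    · rintro rfl
      rw [Nat.sub_add_cancel hlen]
      exact ⟨(isPeriodicPt_minimalPeriod _ _).const_mul d, hS⟩

open Classical in
theorem sum_T (hpos : Pos R (two (cz c))) {k : ℕ} (hk : 0 < k) {N : ℕ}
    (hN : Fintype.card A * (k + 1) ≤ N) :
    ∑ m ∈ Finset.range N, ∑ x ∈ (fix_finite (R := R) (Nat.succ_pos m)).toFinset,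
        (if birkhoffSum (sft R) (two (cz c)) (m + 1) x = k then two (cz c) x else 0)
      = ∑ x ∈ (Tset_finite hpos hk).toFinset, two (cz c) x := by
  have h1 : ∀ m ∈ Finset.range N, ∑ x ∈ (fix_finite (R := R) (Nat.succ_pos m)).toFinset,
      (if birkhoffSum (sft R) (two (cz c)) (m + 1) x = k then two (cz c) x else 0)
      = ∑ x ∈ (Tset_finite hpos hk).toFinset,
        (if IsPeriodicPt (sft R) (m + 1) x ∧ birkhoffSum (sft R) (two (cz c)) (m + 1) x = k
          then two (cz c) x else 0) := by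
    intro m _
    rw [← Finset.sum_filter, ← Finset.sum_filter]
    apply Finset.sum_congr _ fun _ _ => rfl
    ext x
    rw [Finset.mem_filter, Finset.mem_filter, Set.Finite.mem_toFinset, Set.Finite.mem_toFinset]
    constructor
    · rintro ⟨h2, h3⟩
      refine ⟨⟨⟨m + 1, Nat.succ_pos m, h2⟩, ?_⟩, h2, h3⟩
      obtain ⟨d', hd', hs'⟩ := birkhoff_of_isPeriodicPt (two (cz c)) h2
      rw [h3] at hs'
      have h4 : (ell (σ := sft R) (two (cz c)) x) ∣ (k : ℤ) := ⟨d', by rw [hs']; ring⟩
      exact Int.natAbs_dvd_natAbs.2 h4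
    · rintro ⟨-, h2, h3⟩
      exact ⟨h2, h3⟩
  rw [Finset.sum_congr rfl h1, Finset.sum_comm]
  refine Finset.sum_congr rfl fun x hx => ?_
  obtain ⟨m₀, hm₀, h2⟩ := unique_len hpos hk ((Tset_finite hpos hk).mem_toFinset.1 hx)
  simp_rw [h2]
  rw [Finset.sum_ite_eq', if_pos]
  rw [Finset.mem_range]
  omega

open Classical in
theorem sum_orbits (hpos : Pos R (two (cz c))) {k : ℕ} (hk : 0 < k) :
    ∑ x ∈ (Tset_finite hpos hk).toFinset, two (cz c) x = Wk (sft R) (two (cz c)) k := by
  rw [← Finset.sum_fiberwise_of_maps_to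
    (t := (Tset_finite hpos hk).toFinset.image (orb (sft R))) (g := orb (sft R))
    (fun x hx => Finset.mem_image_of_mem _ hx)]
  unfold Wk
  rw [finsum_eq_sum_of_support_subset
    (s := (Tset_finite hpos hk).toFinset.image (orb (sft R)))]
  · refine Finset.sum_congr rfl fun ω hω => ?_
    obtain ⟨x, hx, rfl⟩ := Finset.mem_image.1 hω
    have hx' : x ∈ Tset R c k := (Tset_finite hpos hk).mem_toFinset.1 hx
    have hw : wt (sft R) (two (cz c)) (orb (sft R) x)
        = (ell (σ := sft R) (two (cz c)) x).natAbs := wt_orb _ hx'.1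
    have hpx := ell_pos hpos hx'.1
    rw [if_pos ⟨by omega, by rw [hw]; omega, by rw [hw]; exact hx'.2⟩, hw]
    have hset : (Tset_finite hpos hk).toFinset.filter (fun y => orb (sft R) y = orb (sft R) x)
        = (Finset.range (minimalPeriod (sft R) x)).image (fun i => (sft R)^[i] x) := by
      ext y
      rw [Finset.mem_filter, Set.Finite.mem_toFinset, Finset.mem_image]
      constructor
      · rintro ⟨hy, hyx⟩
        obtain ⟨j, hj⟩ := exists_iterate hy.1 hyx.symm
        refine ⟨j % minimalPeriod (sft R) x, ?_, ?_⟩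
        · rw [Finset.mem_range]
          exact Nat.mod_lt _ (minimalPeriod_pos_of_mem_periodicPts hx'.1)
        · show (sft R)^[j % minimalPeriod (sft R) x] x = y
          rw [iterate_mod_minimalPeriod_eq, hj]
      · rintro ⟨i, -, rfl⟩
        refine ⟨⟨periodic_iterate hx'.1 i, ?_⟩, orb_iterate x i⟩
        rw [ell_iterate _ hx'.1]
        exact hx'.2
    rw [hset, Finset.sum_image]
    · have : ∑ i ∈ Finset.range (minimalPeriod (sft R) x), two (cz c) ((sft R)^[i] x)
          = ell (σ := sft R) (two (cz c)) x := rfl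
      rw [this]
      omega
    · intro i hi j hj hij
      have hi' := Finset.mem_range.1 hi
      have hj' := Finset.mem_range.1 hj
      exact (iterate_eq_iterate_iff_of_lt_minimalPeriod hi' hj').1 hij
  · intro ω hω
    rw [Function.mem_support] at hω
    have h1 : k ≠ 0 ∧ wt (sft R) (two (cz c)) ω ≠ 0 ∧ wt (sft R) (two (cz c)) ω ∣ k := by
      by_contra hc
      exact hω (if_neg hc)
    obtain ⟨x, rfl, hx⟩ := exists_of_wt_ne_zero _ h1.2.1
    rw [Finset.mem_coe, Finset.mem_image]
    refine ⟨x, (Tset_finite hpos hk).mem_toFinset.2 ⟨hx, ?_⟩, rfl⟩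
    rw [← wt_orb _ hx]
    exact h1.2.2

theorem coeff_rec (hpos : Pos R (two (cz c))) {k : ℕ} (hk : 0 < k) :
    (k : ℤ) * (Ppoly R c).coeff k
      = - ∑ p ∈ Finset.HasAntidiagonal.antidiagonal k, (Ppoly R c).coeff p.1 * Wk (sft R) (two (cz c)) p.2 := by
  classical
  obtain ⟨L', hL'⟩ := exists_pow_smul hpos (k + 1) (Fintype.card A * (k + 1)) le_rfl
  obtain ⟨Q, hQ⟩ := trunc theta (Lmat R c) L' (Fintype.card A * (k + 1)) (k + 1) hL'
  have h1 : (theta (1 - Lmat R c).det).coeff k = _ := congrArg (fun p : ℤ[X] => p.coeff k) hQ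
  rw [coeff_theta, coeff_add, coeff_X_pow_mul', if_neg (by omega), add_zero, neg_mul,
    coeff_neg, coeff_mul] at h1
  unfold Ppoly
  rw [h1]
  congr 1
  refine Finset.sum_congr rfl fun p hp => ?_
  have hp' : p.1 + p.2 = k := Finset.HasAntidiagonal.mem_antidiagonal.1 hp
  congr 1
  rw [finsetSum_coeff]
  simp_rw [coeff_trace]
  rcases Nat.eq_zero_or_pos p.2 with h0 | h0
  · rw [h0, Wk_zero]
    apply Finset.sum_eq_zero
    intro m _
    apply Finset.sum_eq_zero
    intro x hx
    have hx' : IsPeriodicPt (sft R) (m + 1) x :=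
      (fix_finite (R := R) (Nat.succ_pos m)).mem_toFinset.1 hx
    have := hpos (m + 1) (Nat.succ_pos m) x hx'
    rw [if_neg]
    push_cast
    omega
  · rw [sum_T hpos h0 (Nat.mul_le_mul_left _ (by omega)), sum_orbits hpos h0]

theorem poly_unique {P P' : ℤ[X]} {W : ℕ → ℤ} (hW : W 0 = 0) (h0 : P.coeff 0 = P'.coeff 0)
    (h : ∀ k : ℕ, 0 < k → (k : ℤ) * P.coeff k = - ∑ p ∈ Finset.HasAntidiagonal.antidiagonal k, P.coeff p.1 * W p.2)
    (h' : ∀ k : ℕ, 0 < k → (k : ℤ) * P'.coeff k
      = - ∑ p ∈ Finset.HasAntidiagonal.antidiagonal k, P'.coeff p.1 * W p.2) : P = P' := by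
  ext k
  induction k using Nat.strong_induction_on with
  | _ k ih =>
    rcases Nat.eq_zero_or_pos k with hk | hk
    · rw [hk, h0]
    · have h1 : (k : ℤ) * P.coeff k = k * P'.coeff k := by
        rw [h k hk, h' k hk]
        congr 1
        refine Finset.sum_congr rfl fun p hp => ?_
        have hp' : p.1 + p.2 = k := Finset.HasAntidiagonal.mem_antidiagonal.1 hp
        rcases Nat.eq_zero_or_pos p.2 with h2 | h2
        · rw [h2, hW, mul_zero, mul_zero]
        · rw [ih p.1 (by omega)]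
      have h2 : (k : ℤ) ≠ 0 := by exact_mod_cast hk.ne'
      exact mul_left_cancel₀ h2 h1

/-- The transition matrix. -/
def Rmat (R : A → A → Prop) [DecidableRel R] : Matrix A A ℤ :=
  Matrix.of fun a b => if R a b then 1 else 0

theorem Ppoly_eval_one : (Ppoly R c).eval 1 = (1 - Rmat R).det := by
  unfold Ppoly
  rw [← Polynomial.coe_evalRingHom, RingHom.map_det]
  congr 1
  rw [map_sub, map_one]
  congr 1
  ext1 a b
  unfold Lmat Rmat
  rw [RingHom.mapMatrix_apply, Matrix.map_apply, Matrix.of_apply, Matrix.of_apply]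
  split_ifs <;> simp

/-- Two Markov shifts with nonnegative two-letter functions having positive Birkhoff sums on
periodic points, and a weight preserving bijection of tail orbits, have the same determinant. -/
theorem det_eq {B : Type} [Fintype B] [DecidableEq B] {S : B → B → Prop} [DecidableRel S]
    {d : B → B → ℕ} (hpos : Pos R (two (cz c))) (hpos' : Pos S (two (cz d)))
    (e : Orb (sft R) ≃ Orb (sft S))
    (he : ∀ ω, wt (sft S) (two (cz d)) (e ω) = wt (sft R) (two (cz c)) ω) :
    (1 - Rmat R).det = (1 - Rmat S).det := by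
  rw [← Ppoly_eval_one (c := c), ← Ppoly_eval_one (c := d)]
  congr 1
  apply poly_unique (W := Wk (sft R) (two (cz c))) (Wk_zero _ _)
  · rw [Ppoly_coeff_zero hpos, Ppoly_coeff_zero hpos']
  · intro k hk
    exact coeff_rec hpos hk
  · intro k hk
    rw [coeff_rec hpos' hk]
    simp_rw [Wk_congr e he]

end Pool.Agent.V1161.PS
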